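import Pool.Agent.W867.Cov3.Sym

/-!
Affine symmetries whose fourth power is not the identity.
-/

set_option autoImplicit false

open Set Topology Filter Module

namespace Pool.Agent.W867.Cov3

variable {V : Type*} [NormedAddCommGroup V] [NormedSpace ℝ V]

theorem det_ne_zero [FiniteDimensional ℝ V] {K : Set V} (hint : (interior K).Nonempty)
    (g : V →ᵃ[ℝ] V) (hg : g '' K = K) : LinearMap.det g.linear ≠ 0 := by
  have hsurj : Function.Surjective g.linear := by
    obtain ⟨p, hp⟩ := hint
    obtain ⟨r, hr, hball⟩ := Metric.mem_nhds_iff.1 (mem_interior_iff_mem_nhds.1 hp)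
    have hpK : p ∈ g '' K := by
      rw [hg]
      exact interior_subset hp
    obtain ⟨y₀, -, hy₀⟩ := hpK
    intro v
    by_cases hv : v = 0
    · exact ⟨0, by rw [map_zero, hv]⟩
    have hv0 := norm_pos_iff.2 hv
    have h1 : p + ((r / 2) / ‖v‖) • v ∈ K := by
      apply hball
      rw [Metric.mem_ball, dist_eq_norm, add_sub_cancel_left, norm_smul,
        Real.norm_of_nonneg (by positivity), div_mul_cancel₀ _ hv0.ne']
      linarith
    rw [← hg] at h1
    obtain ⟨y, -, hy⟩ := h1
    refine ⟨(‖v‖ / (r / 2)) • (y - y₀), ?_⟩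
    have h2 : g.linear (y - y₀) = ((r / 2) / ‖v‖) • v := by
      have := g.linearMap_vsub y y₀
      simp only [vsub_eq_sub] at this
      rw [this, hy, hy₀, add_sub_cancel_left]
    rw [map_smul, h2, smul_smul]
    have : ‖v‖ / (r / 2) * (r / 2 / ‖v‖) = 1 := by
      field_simp
    rw [this, one_smul]
  intro h0
  have hinj : Function.Injective g.linear := LinearMap.injective_iff_surjective.2 hsurj
  have h1 : LinearMap.ker g.linear ≠ ⊥ := LinearMap.det_eq_zero_iff_ker_ne_bot.1 h0
  exact h1 (LinearMap.ker_eq_bot.2 hinj)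

/-- a convex body in a three-dimensional space with an affine symmetry `g` such that either `g`
preserves the orientation and is not an involution, or the fourth power of `g` is not the
identity -/
theorem cov_affine' [FiniteDimensional ℝ V] (hdim : finrank ℝ V = 3) {K : Set V}
    (hK : Convex ℝ K) (hc : IsCompact K) (hint : (interior K).Nonempty) (g : V →ᵃ[ℝ] V)
    (hg : g '' K = K)
    (h : (0 < LinearMap.det g.linear ∧ ∃ v, g (g v) ≠ v) ∨ ∃ v, g (g (g (g v))) ≠ v) :
    Cov8 K := by
  rcases h with ⟨h1, h2⟩ | h4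
  · exact cov_affine hdim hK hc hint g hg h1 h2
  · refine cov_affine hdim hK hc hint (g.comp g) ?_ ?_ ?_
    · have : (g.comp g : V → V) = g ∘ g := rfl
      rw [this, image_comp, hg, hg]
    · have h5 := det_ne_zero hint g hg
      have : (g.comp g).linear = g.linear * g.linear := rfl
      rw [this, map_mul]
      exact mul_self_pos.2 h5
    · obtain ⟨v, hv⟩ := h4
      exact ⟨v, hv⟩

end Pool.Agent.W867.Cov3
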