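import Pool.Agent.W867.Cov3.Three

/-!
Bodies in `ℂ × ℝ` invariant under a rotation `ω` with `ω² ≠ 1`.
-/

set_option autoImplicit false

open Set Topology Filter
open scoped ComplexConjugate

namespace Pool.Agent.W867.Cov3

theorem RotBody.conj {K : Set (ℂ × ℝ)} {ω : ℂ} (h : RotBody K ω) : RotBody K (conj ω) :=
  { conv := h.conv
    comp := h.comp
    int := h.int
    norm := by rw [Complex.norm_conj, h.norm]
    ne := by
      intro h1
      apply h.ne
      have := congrArg (starRingEnd ℂ) h1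
      rwa [Complex.conj_conj, map_one] at this
    inv := h.inv'
    inv' := by
      intro x z hx
      rw [Complex.conj_conj]
      exact h.inv _ _ hx }

theorem RotBody.pow {K : Set (ℂ × ℝ)} {ω : ℂ} (h : RotBody K ω) (k : ℕ) (hk : ω ^ k ≠ 1) :
    RotBody K (ω ^ k) :=
  { conv := h.conv
    comp := h.comp
    int := h.int
    norm := by rw [norm_pow, h.norm, one_pow]
    ne := hk
    inv := fun x z hx => h.inv_pow k hx
    inv' := fun x z hx => by
      rw [map_pow]
      exact h.conj.inv_pow k hx }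

theorem RotBody.cov {K : Set (ℂ × ℝ)} {ω : ℂ} (h : RotBody K ω) (h2 : ω ^ 2 ≠ 1) : Cov K := by
  by_cases hre : 0 ≤ ω.re
  · exact h.four hre
  push Not at hre
  have hri := h.re_im
  by_cases hre2 : 0 ≤ (ω ^ 2).re
  · exact (h.pow 2 h2).four hre2
  push Not at hre2
  have e2 : (ω ^ 2).re = ω.re ^ 2 - ω.im ^ 2 := by
    rw [pow_two, Complex.mul_re]
    ring
  have e3 : (ω ^ 3).re = ω.re * (ω.re ^ 2 - 3 * ω.im ^ 2) := by
    have : ω ^ 3 = ω * (ω * ω) := by ring
    rw [this]
    simp only [Complex.mul_re, Complex.mul_im]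
    ring
  have hre3 : 0 ≤ (ω ^ 3).re := by
    rw [e3]
    rw [e2] at hre2
    nlinarith [sq_nonneg ω.im]
  by_cases h3 : ω ^ 3 = 1
  · have h4 : (ω - 1) * (ω ^ 2 + ω + 1) = 0 := by linear_combination h3
    have h5 : ω ^ 2 + ω + 1 = 0 := (mul_eq_zero.1 h4).resolve_left (sub_ne_zero.2 h.ne)
    have h6 : (ω - w3) * (ω - (starRingEnd ℂ) w3) = 0 := by
      linear_combination h5 - ω * w3_sum + w3_mul_conj
    rcases mul_eq_zero.1 h6 with h7 | h7
    · rw [sub_eq_zero.1 h7] at h
      exact h.three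
    · have h8 := h.conj
      rw [sub_eq_zero.1 h7, Complex.conj_conj] at h8
      exact h8.three
  · exact (h.pow 3 h3).four hre3

end Pool.Agent.W867.Cov3
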