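import Pool.Agent.W867.Cov3.Main3b

/-!
Bodies in `ℂ × ℝ` invariant under the rotation by 120 degrees, with two equal triangular ends:
no opposite triangle in between.
-/

set_option autoImplicit false

open Set Topology Filter
open scoped ComplexConjugate

namespace Pool.Agent.W867.Cov3

/-- directions slightly less than 30 degrees away from the vertex -/
noncomputable def D (σ η : ℝ) : ℂ := ⟨√3, σ * (1 - η)⟩

theorem D_cont (σ : ℝ) : Continuous (D σ) := by
  have : D σ = fun η : ℝ => ((√3 : ℝ) : ℂ) + ((σ * (1 - η) : ℝ) : ℂ) * Complex.I := by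
    funext η
    apply Complex.ext <;> simp [D]
  rw [this]
  fun_prop

theorem D_zero (σ : ℝ) : u30 σ = (1 / 2 : ℝ) • D σ 0 := by
  apply Complex.ext
  · simp [D, u30]
    ring
  · simp [D, u30]
    ring

theorem near_vertex {S : Set ℂ} (hS : Convex ℝ S) (h0 : (0 : ℂ) ∈ interior S) (h3 : Inv3 S)
    {x : ℂ} (hx : x ∈ S) (hx3 : 0 < (x ^ 3).re) {η : ℝ} (hη : 0 < η) (hη1 : η ≤ 1) :
    ∃ σ : ℝ, (σ = 1 ∨ σ = -1) ∧ ∃ k, PI S x (rot3 k * D σ η) := by
  have hs := sqrt3_sq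
  have hs0 := sqrt3_pos
  have hx0 : x ≠ 0 := by
    rintro rfl
    simp at hx3
  obtain ⟨s, k, hsk⟩ := hex (conj x)
  obtain ⟨q, hq⟩ : ∃ q, q = conj x * ((sg s : ℂ) * rot3 k) := ⟨_, rfl⟩
  rw [← hq] at hsk
  have hq3 : (q ^ 3).re = q.re * (q.re ^ 2 - 3 * q.im ^ 2) := by
    have : q ^ 3 = q * (q * q) := by ring
    rw [this]
    simp only [Complex.mul_re, Complex.mul_im]
    ring
  have hq3' : (q ^ 3).re = (sg s) ^ 3 * (x ^ 3).re := by
    rw [hq, mul_pow, mul_pow, rot3_pow, mul_one, ← map_pow, ← Complex.ofReal_pow, mul_comm,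
      Complex.re_ofReal_mul, Complex.conj_re]
  have hre : 0 ≤ q.re := le_trans (by positivity) hsk
  have hsq : 3 * q.im ^ 2 ≤ q.re ^ 2 := by
    have h1 : (√3 * |q.im|) ^ 2 ≤ q.re ^ 2 := by gcongr
    rw [mul_pow, sq_abs, show √3 ^ 2 = 3 by rw [pow_two]; exact hs] at h1
    exact h1
  have hs1 : sg s = 1 := by
    fin_cases s
    · rfl
    · exfalso
      have h1 : 0 ≤ (q ^ 3).re := by
        rw [hq3]
        exact mul_nonneg hre (by linarith)
      rw [hq3'] at h1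
      simp [sg] at h1
      linarith
  rw [hs1] at hq hq3'
  rw [Complex.ofReal_one, one_mul] at hq
  rw [one_pow, one_mul] at hq3'
  rw [← hq3', hq3] at hx3
  have hpos : 0 < q.re := by
    rcases hre.lt_or_eq with h | h
    · exact h
    · rw [← h] at hx3
      simp at hx3
  have hlt : √3 * |q.im| < q.re := by
    rcases hsk.lt_or_eq with h | h
    · exact h
    · exfalso
      have h1 : 3 * q.im ^ 2 = q.re ^ 2 := by
        rw [← h, mul_pow, sq_abs, show √3 ^ 2 = 3 by rw [pow_two]; exact hs]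
      rw [h1, sub_self, mul_zero] at hx3
      exact lt_irrefl _ hx3
  -- the sign
  obtain ⟨σ, hσ, hσb⟩ : ∃ σ : ℝ, (σ = 1 ∨ σ = -1) ∧ |q.im| = -σ * q.im := by
    rcases abs_cases q.im with ⟨h1, _⟩ | ⟨h1, _⟩
    · exact ⟨-1, Or.inr rfl, by rw [h1]; ring⟩
    · exact ⟨1, Or.inl rfl, by rw [h1]; ring⟩
  have hσ2 : σ * σ = 1 := by
    rcases hσ with rfl | rfl <;> norm_num
  refine ⟨σ, hσ, k, PI_sector hS h0 h3 hx hx0 ?_⟩
  have e1 : conj x * (rot3 k * D σ η) = q * D σ η := by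
    rw [hq]
    ring
  rw [e1]
  obtain ⟨Q, hQ⟩ : ∃ Q, Q = |q.im| := ⟨_, rfl⟩
  have hQ0 : 0 ≤ Q := by
    rw [hQ]
    exact abs_nonneg _
  have hqi : q.im = -σ * Q := by
    rw [hQ, hσb]
    linear_combination (-q.im) * hσ2
  rw [← hQ] at hlt
  have eR : (q * D σ η).re = √3 * q.re + (1 - η) * Q := by
    rw [Complex.mul_re, hqi]
    simp only [D]
    linear_combination ((1 - η) * Q) * hσ2
  have eI : |(q * D σ η).im| = |(1 - η) * q.re - √3 * Q| := by
    rw [Complex.mul_im, hqi]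
    simp only [D]
    have : q.re * (σ * (1 - η)) + -σ * Q * √3 = σ * ((1 - η) * q.re - √3 * Q) := by ring
    rw [this, abs_mul]
    rcases hσ with rfl | rfl <;> simp
  rw [eR, eI, ← abs_of_pos hs0, ← abs_mul, abs_of_pos hs0, abs_lt]
  have h5 : √3 * Q < q.re := hlt
  have h6 : (2 + η) * (√3 * Q) ≤ (2 + η) * q.re := by
    apply mul_le_mul_of_nonneg_left h5.le
    linarith
  have h7 : (2 + η) * q.re ≤ 3 * (2 - η) * q.re := by
    apply mul_le_mul_of_nonneg_right _ hpos.le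
    linarith
  constructor
  · -- -(√3 P + (1-η) Q) < √3 ((1-η) P - √3 Q)
    have h8 : √3 * ((2 + η) * Q) < √3 * (√3 * (2 - η) * q.re) := by
      have : √3 * (√3 * (2 - η) * q.re) = 3 * (2 - η) * q.re := by
        linear_combination ((2 - η) * q.re) * hs
      rw [this]
      have h9 : (2 + η) * (√3 * Q) < (2 + η) * q.re := mul_lt_mul_of_pos_left h5 (by linarith)
      nlinarith
    have h9 := lt_of_mul_lt_mul_left h8 hs0.le
    have h10 : √3 * ((1 - η) * q.re - √3 * Q) = √3 * (1 - η) * q.re - 3 * Q := by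
      linear_combination (-Q) * hs
    rw [h10]
    nlinarith
  · have h10 : √3 * ((1 - η) * q.re - √3 * Q) = √3 * (1 - η) * q.re - 3 * Q := by
      linear_combination (-Q) * hs
    rw [h10]
    have h11 : 0 < √3 * (η * q.re) := by positivity
    have h12 : 0 ≤ η * Q := by positivity
    nlinarith

theorem inT_one {x : ℂ} (h : InT 1 x) : 0 ≤ 1 + 2 * x.re ∧ 0 ≤ 1 - x.re + √3 * x.im ∧
    0 ≤ 1 - x.re - √3 * x.im := by
  have h0 := h 0
  have h1 := h 1
  have h2 := h 2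
  rw [rot3_zero] at h0
  rw [rot3_one] at h1
  rw [rot3_two] at h2
  simp only [mul_one, map_one, one_mul, norm_one, Complex.mul_re, Complex.conj_re, Complex.conj_im,
    w3_re, w3_im, Complex.conj_conj] at h0 h1 h2
  refine ⟨?_, ?_, ?_⟩ <;> linarith

theorem dec3 (x : ℂ) : x = ((1 + 2 * x.re) / 3) • (1 : ℂ) + ((1 - x.re + √3 * x.im) / 3) • w3 +
    ((1 - x.re - √3 * x.im) / 3) • conj w3 := by
  have hs := sqrt3_sq
  apply Complex.ext
  · simp [w3_re]
    ring
  · simp [w3_im]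
    ring_nf
    rw [show √3 ^ 2 = 3 by rw [pow_two]; exact hs]
    ring

theorem InT.rot {e x : ℂ} (h : InT e x) (j : Fin 3) : InT e (rot3 j * x) := by
  intro k
  have h1 := h (k - j)
  have h2 : conj (rot3 (k - j) * e) * x = conj (rot3 k * e) * (rot3 j * x) := by
    rw [sub_eq_add_neg, rot3_mul, ← rot3_conj]
    simp only [map_mul, Complex.conj_conj]
    ring
  rwa [h2] at h1

theorem PI_tri0 {S : Set ℂ} (hS : Convex ℝ S) (h3 : Inv3 S) (h1 : (1 : ℂ) ∈ S) {u x : ℂ}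
    (hu : PI S 1 u) (hx : InT 1 x) (hx0 : 0 < 1 + 2 * x.re) : PI S x u := by
  obtain ⟨l, hl, hi⟩ := hu
  obtain ⟨-, h5, h6⟩ := inT_one hx
  obtain ⟨a, ha⟩ : ∃ a, a = (1 + 2 * x.re) / 3 := ⟨_, rfl⟩
  have ha0 : 0 < a := by
    rw [ha]
    positivity
  refine ⟨a * l, by positivity, ?_⟩
  have hc : Continuous fun y : ℂ => (a⁻¹ : ℝ) • (y - (x - a • (1 : ℂ))) := by fun_prop
  refine mem_interior.2 ⟨(fun y : ℂ => (a⁻¹ : ℝ) • (y - (x - a • (1 : ℂ)))) ⁻¹' interior S, ?_,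
    isOpen_interior.preimage hc, ?_⟩
  · intro y hy
    have h7 : (a⁻¹ : ℝ) • (y - (x - a • (1 : ℂ))) ∈ S := interior_subset hy
    have hw : w3 ∈ S := by simpa [rot3] using h3 1 h1 1
    have hw' : conj w3 ∈ S := by simpa [rot3] using h3 1 h1 2
    have h8 := convex3 hS h7 hw hw' (a := a) (b := (1 - x.re + √3 * x.im) / 3)
      (c := (1 - x.re - √3 * x.im) / 3) ha0.le (by positivity) (by positivity) (by rw [ha]; ring)
    convert h8 using 1
    rw [smul_smul, mul_inv_cancel₀ ha0.ne', one_smul]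
    have h9 := dec3 x
    rw [← ha] at h9
    conv_rhs => rw [add_assoc]
    have h10 : ((1 - x.re + √3 * x.im) / 3) • w3 + ((1 - x.re - √3 * x.im) / 3) • conj w3 =
        x - a • (1 : ℂ) := by
      conv_rhs => rw [h9]
      abel
    rw [h10]
    abel
  · simp only [mem_preimage]
    convert hi using 1
    simp only [Complex.real_smul]
    have : (a : ℂ) ≠ 0 := by exact_mod_cast ha0.ne'
    push_cast
    field_simp
    ring

theorem PI_tri {S : Set ℂ} (hS : Convex ℝ S) (h3 : Inv3 S) (h1 : (1 : ℂ) ∈ S) {u x : ℂ}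
    (hu : PI S 1 u) (hx : InT 1 x) : ∃ k, PI S x (rot3 k * u) := by
  obtain ⟨k, hk⟩ : ∃ k : Fin 3, 0 < 1 + 2 * (rot3 (-k) * x).re := by
    by_contra hcon
    push Not at hcon
    have e0 := hcon 0
    have e1 := hcon 1
    have e2 := hcon 2
    rw [neg_zero, rot3_zero, one_mul] at e0
    rw [show (-1 : Fin 3) = 2 from rfl, rot3_two] at e1
    rw [show (-2 : Fin 3) = 1 from rfl, rot3_one] at e2
    simp only [Complex.mul_re, Complex.conj_re, Complex.conj_im, w3_re, w3_im] at e1 e2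
    linarith
  refine ⟨k, ?_⟩
  have := (PI_tri0 hS h3 h1 hu (hx.rot (-k)) hk).rot h3 k
  rwa [← mul_assoc, ← rot3_mul, add_neg_cancel, rot3_zero, one_mul] at this

theorem u30_pow {σ : ℝ} (hσ : σ = 1 ∨ σ = -1) : u30 σ ^ 6 = -1 := by
  have hs := sqrt3_sq
  have h3 : u30 σ ^ 3 = σ * Complex.I := by
    have hsc : ((√3 : ℝ) : ℂ) ^ 2 = 3 := by
      rw [pow_two]
      exact_mod_cast hs
    have hI := Complex.I_sq
    have hσ2 : σ ^ 2 = 1 := by
      rcases hσ with rfl | rfl <;> norm_num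
    have hσc : (σ : ℂ) ^ 2 = 1 := by exact_mod_cast hσ2
    have e : u30 σ = (((√3 : ℝ) : ℂ) + σ * Complex.I) / 2 := by
      apply Complex.ext <;> simp [u30]
    rw [e]
    linear_combination (((√3 : ℝ) : ℂ) / 8 + 3 * σ * Complex.I / 8) * hsc +
      (3 * ((√3 : ℝ) : ℂ) * σ ^ 2 / 8 + σ ^ 3 * Complex.I / 8) * hI +
      (-3 * ((√3 : ℝ) : ℂ) / 8 - σ * Complex.I / 8) * hσc
  have : u30 σ ^ 6 = (u30 σ ^ 3) ^ 2 := by ring
  rw [this, h3, mul_pow, Complex.I_sq]
  rcases hσ with rfl | rfl <;> simp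

end Pool.Agent.W867.Cov3
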