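import Pool.Agent.W867.Cov3.Alpha

/-!
Bodies in `ℂ × ℝ` invariant under the rotation by 120 degrees, with two equal triangular ends:
no opposite triangle in between.
-/

set_option autoImplicit false

open Set Topology Filter
open scoped ComplexConjugate

namespace Pool.Agent.W867.Cov3

/-- one of the six directions at angle `± 30` degrees works, unless opposite triangle -/
theorem six {S : Set ℂ} (hS : Convex ℝ S) (h0 : (0 : ℂ) ∈ interior S) (h3 : Inv3 S)
    {x : ℂ} (hx : x ∈ S) (hx0 : x ≠ 0) (hx3 : (x ^ 3).re ≤ 0) :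
    (∃ σ : ℝ, (σ = 1 ∨ σ = -1) ∧ ∃ k, PI S x (rot3 k * u30 σ)) ∨
      ((∀ y ∈ S, InT x y) ∧ x ^ 3 = -((‖x‖ : ℂ) ^ 3)) := by
  by_cases h1 : ∃ k, PI S x (rot3 k * u30 1)
  · exact Or.inl ⟨1, Or.inl rfl, h1⟩
  by_cases h2 : ∃ k, PI S x (-(rot3 k * u30 1))
  · left
    obtain ⟨k, hk⟩ := h2
    obtain ⟨k₀, hk₀⟩ := u30_rot (σ := -1) (Or.inr rfl)
    rw [neg_neg] at hk₀
    refine ⟨-1, Or.inr rfl, k - k₀, ?_⟩
    have e : rot3 (k - k₀) * u30 (-1) = -(rot3 k * u30 1) := by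
      rw [← hk₀, sub_eq_add_neg, rot3_mul, ← rot3_conj]
      linear_combination (-(rot3 k * u30 1)) * conj_mul_rot3 k₀
    rwa [e]
  right
  push Not at h1 h2
  obtain ⟨h4, h5⟩ := hex_fail hS h0 h3 hx hx0 (u30_norm (Or.inl rfl)) h1 h2
  refine ⟨h4, ?_⟩
  rw [mul_pow, u30_pow (Or.inl rfl), mul_neg, mul_one, neg_inj] at h5
  have h6 : x ^ 6 = (‖x‖ : ℂ) ^ 6 := by
    have := congrArg conj h5
    simpa using this
  have h7 : (x ^ 3 - (‖x‖ : ℂ) ^ 3) * (x ^ 3 + (‖x‖ : ℂ) ^ 3) = 0 := by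
    linear_combination h6
  rcases mul_eq_zero.1 h7 with h8 | h8
  · exfalso
    have h9 : x ^ 3 = ((‖x‖ ^ 3 : ℝ) : ℂ) := by
      push_cast
      linear_combination h8
    rw [h9, Complex.ofReal_re] at hx3
    have := norm_pos_iff.2 hx0
    have : 0 < ‖x‖ ^ 3 := by positivity
    linarith
  · linear_combination h8

section

variable {K : Set (ℂ × ℝ)} {bot top : ℝ}

theorem alpha_eta (h : RotBody K w3) (he : Ends K bot top)
    (h1t : ((1 : ℂ), top) ∈ K) (h1b : ((1 : ℂ), bot) ∈ K)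
    (hTt : ∀ y ∈ sec K top, InT 1 y) (hTb : ∀ y ∈ sec K bot, InT 1 y)
    (hα : ¬ ∃ x z, bot < z ∧ z < top ∧ (x, z) ∈ K ∧ x ∉ interior (Prod.fst '' K) ∧
      (∀ y ∈ sec K z, InT x y) ∧ x ^ 3 = -((‖x‖ : ℂ) ^ 3)) :
    ∃ η : ℝ, 0 < η ∧ η ≤ 1 ∧ ∀ q : ℂ × ℝ, q ∈ K → q.1 ∉ interior (Prod.fst '' K) → bot < q.2 →
      q.2 < top → ∃ σ : ℝ, (σ = 1 ∨ σ = -1) ∧ ∃ k, PI (sec K q.2) q.1 (rot3 k * D σ η) := by
  have hX : IsCompact (K ∩ {q | q.1 ∉ interior (Prod.fst '' K)}) := by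
    refine h.comp.inter_right ?_
    have : {q : ℂ × ℝ | q.1 ∉ interior (Prod.fst '' K)} =
      (Prod.fst ⁻¹' interior (Prod.fst '' K))ᶜ := rfl
    rw [this]
    exact (isOpen_interior.preimage continuous_fst).isClosed_compl
  have hz0 : ((0 : ℂ), (bot + top) / 2) ∈ interior K :=
    he.inner _ (by linarith [he.lt]) (by linarith [he.lt])
  -- the direction at `η = 0`
  have hstep : ∀ (x : ℂ) (z : ℝ), (∃ σ : ℝ, (σ = 1 ∨ σ = -1) ∧ ∃ k, PI (sec K z) x (rot3 k * u30 σ)) →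
      ∃ σ : ℝ, (σ = 1 ∨ σ = -1) ∧ ∃ k, PI (sec K z) x (rot3 k * D σ 0) := by
    rintro x z ⟨σ, hσ, k, hk⟩
    refine ⟨σ, hσ, k, PI.of_smul (r := 1 / 2) (by norm_num) ?_⟩
    rw [D_zero] at hk
    rwa [mul_smul_comm] at hk
  have hcontp : ∀ (σ : ℝ) (k : Fin 3) (l : ℝ), Continuous fun p : ℝ × (ℂ × ℝ) =>
      (((p.2.1 - l • (rot3 k * D σ p.1), p.2.2) : ℂ × ℝ)) := by
    intro σ k l
    have := D_cont σ
    fun_prop
  have key : ∀ q ∈ K ∩ {q : ℂ × ℝ | q.1 ∉ interior (Prod.fst '' K)},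
      ∀ᶠ p : ℝ × (ℂ × ℝ) in 𝓝 ((0 : ℝ), q), 0 < p.1 → p.1 ≤ 1 → p.2 ∈ K → bot < p.2.2 →
        p.2.2 < top → ∃ σ : ℝ, (σ = 1 ∨ σ = -1) ∧
          ∃ k, PI (sec K p.2.2) p.2.1 (rot3 k * D σ p.1) := by
    rintro ⟨x, z⟩ ⟨hxK, hxM⟩
    have hxM : x ∉ interior (Prod.fst '' K) := hxM
    have hx0 := ne_zero_of_not_int he hxM
    have hfat := h.fat w3_im_ne hxK hx0
    by_cases hx3 : 0 < (x ^ 3).re
    · have hc : ContinuousAt (fun p : ℝ × (ℂ × ℝ) => (p.2.1 ^ 3).re) ((0 : ℝ), ((x, z) : ℂ × ℝ)) := by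
        fun_prop
      filter_upwards [continuousAt_const.eventually_lt hc hx3] with p hp hp0 hp1 hpK hpb hpt
      exact near_vertex (sec_convex h.conv _) (sec_of_int (he.inner _ hpb hpt)) (h.inv3 _) hpK hp
        hp0 hp1
    · push Not at hx3
      rcases six (sec_convex h.conv z) hfat (h.inv3 z) hxK hx0 hx3 with h1 | ⟨h1, h2⟩
      · obtain ⟨σ, hσ, k, l, hl, hi⟩ := hstep _ _ h1
        have hcont := (hcontp σ k l).continuousAt (x := ((0 : ℝ), ((x, z) : ℂ × ℝ)))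
        have hfin : (∀ᶠ p' : ℂ × ℝ in 𝓝 ((x - l • (rot3 k * D σ 0), z) : ℂ × ℝ), bot < p'.2 →
            p'.2 < top → p' ∈ interior K) := by
          obtain ⟨hz1, hz2⟩ := he.le _ hxK
          simp only at hz1 hz2
          rcases hz1.eq_or_lt with hz1 | hz1
          · subst hz1
            have := cap h.conv (σ := -1) (e := bot) hz0 (by linarith [he.lt])
              (mem_interior_iff_mem_nhds.1 hi)
            filter_upwards [this] with p' hp' hb _
            exact hp' (by linarith)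
          · rcases hz2.eq_or_lt with hz2 | hz2
            · subst hz2
              have := cap h.conv (σ := 1) (e := z) hz0 (by linarith [he.lt])
                (mem_interior_iff_mem_nhds.1 hi)
              filter_upwards [this] with p' hp' _ ht
              exact hp' (by linarith)
            · have h5 := int_of_sec h.conv (he.inner z hz1 hz2) hi
              filter_upwards [isOpen_interior.mem_nhds h5] with p' hp' _ _
              exact hp'
        have h6 := hcont.eventually hfin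
        filter_upwards [h6] with p hp hp0 hp1 hpK hpb hpt
        exact ⟨σ, hσ, k, l, hl, sec_of_int (hp hpb hpt)⟩
      · exfalso
        obtain ⟨hz1, hz2⟩ := he.le _ hxK
        simp only at hz1 hz2
        have hend : InT x 1 → InT 1 x → False := by
          intro g1 g2
          obtain ⟨g3, g4⟩ := inT_both hx0 one_ne_zero g1 g2
          rw [h2, g3] at g4
          simp at g4
          norm_num at g4
        rcases hz1.eq_or_lt with hz1 | hz1
        · subst hz1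
          exact hend (h1 _ h1b) (hTb _ hxK)
        · rcases hz2.eq_or_lt with hz2 | hz2
          · subst hz2
            exact hend (h1 _ h1t) (hTt _ hxK)
          · exact hα ⟨x, z, hz1, hz2, hxK, hxM, h1, h2⟩
  have h1 := hX.eventually_forall_of_forall_eventually (x₀ := (0 : ℝ))
    (P := fun η q => 0 < η → η ≤ 1 → q ∈ K → bot < q.2 → q.2 < top → ∃ σ : ℝ, (σ = 1 ∨ σ = -1) ∧
          ∃ k, PI (sec K q.2) q.1 (rot3 k * D σ η)) key
  obtain ⟨ε, hε, h2⟩ := Metric.eventually_nhds_iff.1 h1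
  have h3 : dist (min (ε / 2) 1) 0 < ε := by
    rw [Real.dist_eq, sub_zero, abs_of_pos (by positivity)]
    exact (min_le_left _ _).trans_lt (by linarith)
  refine ⟨min (ε / 2) 1, by positivity, min_le_right _ _, fun q hq hqM hb ht => ?_⟩
  exact h2 h3 q ⟨hq, hqM⟩ (by positivity) (min_le_right _ _) hq hb ht

theorem alpha (h : RotBody K w3) (he : Ends K bot top)
    (h1t : ((1 : ℂ), top) ∈ K) (h1b : ((1 : ℂ), bot) ∈ K)
    (hTt : ∀ y ∈ sec K top, InT 1 y) (hTb : ∀ y ∈ sec K bot, InT 1 y)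
    (hα : ¬ ∃ x z, bot < z ∧ z < top ∧ (x, z) ∈ K ∧ x ∉ interior (Prod.fst '' K) ∧
      (∀ y ∈ sec K z, InT x y) ∧ x ^ 3 = -((‖x‖ : ℂ) ^ 3)) : Cov K := by
  have hs := sqrt3_sq
  have hs0 := sqrt3_pos
  obtain ⟨η, hη, hη1, hall⟩ := alpha_eta h he h1t h1b hTt hTb hα
  have hvert : ∀ σ : ℝ, (σ = 1 ∨ σ = -1) → ∀ z, (1, z) ∈ K → (0 : ℂ) ∈ interior (sec K z) →
      PI (sec K z) 1 (D σ η) := by
    intro σ hσ z hz h0
    refine PI_sector (sec_convex h.conv z) h0 (h.inv3 z) hz one_ne_zero ?_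
    rw [map_one, one_mul]
    simp only [D]
    rw [abs_mul]
    have : |σ| = 1 := by
      rcases hσ with rfl | rfl <;> simp
    rw [this, one_mul, abs_of_nonneg (by linarith)]
    nlinarith
  obtain ⟨T, hT, hcov⟩ := cover_general (ιA := Fin 3) (ιB := Fin 3) (ιV := Fin 2) h.conv h.comp he
    (fun k => rot3 k * D (-1) η) (fun k => rot3 k * D 1 η) sg (by
      intro x hx
      left
      exact PI_tri (sec_convex h.conv top) (h.inv3 top) h1t
        (hvert _ (Or.inr rfl) top h1t (h.fat w3_im_ne h1t one_ne_zero)) (hTt x hx)) (by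
      intro x hx
      left
      exact PI_tri (sec_convex h.conv bot) (h.inv3 bot) h1b
        (hvert _ (Or.inl rfl) bot h1b (h.fat w3_im_ne h1b one_ne_zero)) (hTb x hx)) (by
      intro z x h1 h2 hx
      by_cases hM : x ∈ interior (Prod.fst '' K)
      · exact Or.inr (Or.inr (ill_inner h hM))
      · obtain ⟨σ, hσ, k, hk⟩ := hall (x, z) hx hM h1 h2
        rcases hσ with rfl | rfl
        · exact Or.inr (Or.inl ⟨k, hk⟩)
        · exact Or.inl ⟨k, hk⟩)
  exact ⟨T, by simpa using hT, hcov⟩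

end

end Pool.Agent.W867.Cov3
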