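import Mathlib

/-!
Convex bodies in `ℂ × ℝ` and directions of illumination.
-/

set_option autoImplicit false

open Set Topology Filter

namespace Pool.Agent.W867.Cov3

/-- `q` can be moved into the interior of `K` in the direction `v` -/
def Ill (K : Set (ℂ × ℝ)) (v q : ℂ × ℝ) : Prop := ∃ l : ℝ, 0 < l ∧ q + l • v ∈ interior K

/-- the family of directions `v i t` (small `t > 0`) illuminates a neighbourhood of `q` -/
def GoodAt {ι : Type*} (K : Set (ℂ × ℝ)) (v : ι → ℝ → ℂ × ℝ) (q : ℂ × ℝ) : Prop :=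
  ∀ᶠ p : ℝ × (ℂ × ℝ) in 𝓝 ((0 : ℝ), q), 0 < p.1 → p.2 ∈ K → ∃ i, Ill K (v i p.1) p.2

theorem Ill.mono {K : Set (ℂ × ℝ)} (hK : Convex ℝ K) {v q : ℂ × ℝ} (hq : q ∈ K) {l m : ℝ}
    (hm : 0 < m) (hml : m ≤ l) (h : q + l • v ∈ interior K) : q + m • v ∈ interior K := by
  have hl : 0 < l := lt_of_lt_of_le hm hml
  have h1 : q + m • v = (1 - m / l) • q + (m / l) • (q + l • v) := by
    rw [smul_add, smul_smul, div_mul_cancel₀ _ hl.ne', ← add_assoc, ← add_smul]
    congr 1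
    rw [sub_add_cancel, one_smul]
  rw [h1]
  have h2 : 0 < m / l := div_pos hm hl
  have h3 : m / l ≤ 1 := (div_le_one hl).2 hml
  exact hK.combo_self_interior_mem_interior hq h (by linarith) h2 (by ring)

/-- if finitely many directions illuminate all points, few translates of the interior suffice -/
theorem cover_of_ill {ι : Type*} [Fintype ι] {K : Set (ℂ × ℝ)} (hK : Convex ℝ K)
    (hc : IsCompact K) (v : ι → ℂ × ℝ) (h : ∀ q ∈ K, ∃ i, Ill K (v i) q) :
    ∃ T : Finset (ℂ × ℝ), T.card ≤ Fintype.card ι ∧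
      K ⊆ ⋃ t ∈ T, (fun x => t + x) '' interior K := by
  classical
  let U : ℕ → Set (ℂ × ℝ) := fun n => ⋃ i, {q | q + ((1 : ℝ) / (n + 1)) • v i ∈ interior K}
  have hU : ∀ n, IsOpen (U n) := fun n => isOpen_iUnion fun i =>
    isOpen_interior.preimage (by fun_prop)
  have hcov : K ⊆ ⋃ n, U n := by
    intro q hq
    obtain ⟨i, l, hl, hi⟩ := h q hq
    obtain ⟨n, hn⟩ := exists_nat_one_div_lt hl
    refine mem_iUnion.2 ⟨n, mem_iUnion.2 ⟨i, ?_⟩⟩
    exact Ill.mono hK hq (by positivity) hn.le hi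
  obtain ⟨F, hF⟩ := hc.elim_finite_subcover U hU hcov
  -- take the largest index
  obtain ⟨N, hN⟩ : ∃ N : ℕ, ∀ n ∈ F, n ≤ N := ⟨F.sup id, fun n hn => Finset.le_sup (f := id) hn⟩
  have hall : ∀ q ∈ K, ∃ i, q + ((1 : ℝ) / (N + 1)) • v i ∈ interior K := by
    intro q hq
    obtain ⟨n, hn⟩ := mem_iUnion.1 (hF hq)
    obtain ⟨hnF, hn⟩ := mem_iUnion.1 hn
    obtain ⟨i, hi⟩ := mem_iUnion.1 hn
    refine ⟨i, Ill.mono hK hq (by positivity) ?_ hi⟩
    have : (n : ℝ) ≤ N := by exact_mod_cast hN n hnF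
    exact one_div_le_one_div_of_le (by positivity) (by linarith)
  refine ⟨Finset.univ.image fun i => -(((1 : ℝ) / (N + 1)) • v i), Finset.card_image_le, ?_⟩
  intro q hq
  obtain ⟨i, hi⟩ := hall q hq
  refine mem_iUnion₂.2 ⟨-(((1 : ℝ) / (N + 1)) • v i),
    Finset.mem_image.2 ⟨i, Finset.mem_univ _, rfl⟩, _, hi, ?_⟩
  simp

theorem cover_of_good {ι : Type*} [Fintype ι] {K : Set (ℂ × ℝ)} (hK : Convex ℝ K)
    (hc : IsCompact K) (v : ι → ℝ → ℂ × ℝ) (h : ∀ q ∈ K, GoodAt K v q) :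
    ∃ T : Finset (ℂ × ℝ), T.card ≤ Fintype.card ι ∧
      K ⊆ ⋃ t ∈ T, (fun x => t + x) '' interior K := by
  have h1 := hc.eventually_forall_of_forall_eventually (x₀ := (0 : ℝ))
    (P := fun t q => 0 < t → q ∈ K → ∃ i, Ill K (v i t) q) h
  obtain ⟨ε, hε, h2⟩ := Metric.eventually_nhds_iff.1 h1
  have h3 : dist (ε / 2) 0 < ε := by
    rw [Real.dist_eq, sub_zero, abs_of_pos (by linarith)]
    linarith
  refine cover_of_ill hK hc (fun i => v i (ε / 2)) fun q hq => ?_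
  exact h2 h3 q hq (by linarith) hq

/-- openness: illumination at `t = 0` -/
theorem GoodAt.of_ill {ι : Type*} {K : Set (ℂ × ℝ)} {v : ι → ℝ → ℂ × ℝ} {q : ℂ × ℝ} {i : ι}
    (hv : ContinuousAt (v i) 0) (h : Ill K (v i 0) q) : GoodAt K v q := by
  obtain ⟨l, hl, hi⟩ := h
  have hcont : ContinuousAt (fun p : ℝ × (ℂ × ℝ) => p.2 + l • v i p.1) ((0 : ℝ), q) := by
    have h1 : ContinuousAt (fun p : ℝ × (ℂ × ℝ) => v i p.1) ((0 : ℝ), q) :=
      ContinuousAt.comp (f := Prod.fst) (x := ((0 : ℝ), q)) hv continuousAt_fst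
    exact continuousAt_snd.add (h1.const_smul l)
  have := hcont.eventually_mem (isOpen_interior.mem_nhds hi)
  exact this.mono fun p hp _ _ => ⟨i, l, hl, hp⟩

/-- interior points are illuminated by everything -/
theorem Ill.of_interior {K : Set (ℂ × ℝ)} {v q : ℂ × ℝ} (hq : q ∈ interior K) : Ill K v q := by
  have hcont : ContinuousAt (fun l : ℝ => q + l • v) 0 := by fun_prop
  have h1 := hcont.eventually_mem (isOpen_interior.mem_nhds (by simpa using hq))
  obtain ⟨ε, hε, h2⟩ := Metric.eventually_nhds_iff.1 h1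
  refine ⟨ε / 2, by linarith, h2 ?_⟩
  rw [Real.dist_eq, sub_zero, abs_of_pos (by linarith)]
  linarith

/-- the section at height `z` -/
def sec (K : Set (ℂ × ℝ)) (z : ℝ) : Set ℂ := {x | (x, z) ∈ K}

theorem sec_convex {K : Set (ℂ × ℝ)} (hK : Convex ℝ K) (z : ℝ) : Convex ℝ (sec K z) := by
  intro x hx y hy a b ha hb hab
  have := hK hx hy ha hb hab
  have h2 : a * z + b * z = z := by rw [← add_mul, hab, one_mul]
  simpa [sec, h2] using this

theorem sec_closed {K : Set (ℂ × ℝ)} (hK : IsClosed K) (z : ℝ) : IsClosed (sec K z) :=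
  hK.preimage (by fun_prop : Continuous fun x : ℂ => (x, z))

/-- the cap lemma: near a point inside the section at the end of `K` -/
theorem cap {K : Set (ℂ × ℝ)} (hK : Convex ℝ K) {σ e : ℝ}
    {z₀ : ℝ} (hz₀ : ((0 : ℂ), z₀) ∈ interior K) (hz : σ * z₀ < σ * e)
    {y : ℂ} (hy : sec K e ∈ 𝓝 y) :
    ∀ᶠ p : ℂ × ℝ in 𝓝 (y, e), σ * p.2 < σ * e → p ∈ interior K := by
  -- κ = (σe - σh)/(σe - σz₀)
  have hd : 0 < σ * e - σ * z₀ := by linarith
  let κ : ℂ × ℝ → ℝ := fun p => (σ * e - σ * p.2) / (σ * e - σ * z₀)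
  have hκc : Continuous κ := by
    simp only [κ]
    fun_prop
  have hκ0 : κ (y, e) = 0 := by simp [κ]
  have h1 : ContinuousAt (fun p : ℂ × ℝ => (1 - κ p)⁻¹ • p.1) (y, e) := by
    have h0 : ContinuousAt (fun p : ℂ × ℝ => 1 - κ p) (y, e) :=
      (continuous_const.sub hκc).continuousAt
    exact (h0.inv₀ (by rw [hκ0]; norm_num)).smul continuousAt_fst
  have h2 : (1 - κ (y, e))⁻¹ • (y, e).1 = y := by
    simp [hκ0]
  have h3 : ∀ᶠ p : ℂ × ℝ in 𝓝 (y, e), (1 - κ p)⁻¹ • p.1 ∈ sec K e :=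
    h1.eventually_mem (by rw [h2]; exact hy)
  have h4 : ∀ᶠ p : ℂ × ℝ in 𝓝 (y, e), κ p < 1 :=
    hκc.continuousAt.eventually_lt continuousAt_const (by rw [hκ0]; norm_num)
  filter_upwards [h3, h4] with p hp3 hp4 hp
  have hκp : 0 < κ p := div_pos (by linarith) hd
  have hσ : σ ≠ 0 := by
    rintro rfl
    simp at hz
  have h5 : p = κ p • ((0 : ℂ), z₀) + (1 - κ p) • ((1 - κ p)⁻¹ • p.1, e) := by
    have h6 : (1 - κ p) ≠ 0 := by linarith
    refine Prod.ext ?_ ?_
    · simp only [Prod.fst_add, Prod.smul_fst, smul_zero, zero_add]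
      rw [smul_smul, mul_inv_cancel₀ h6, one_smul]
    · simp only [Prod.snd_add, Prod.smul_snd, smul_eq_mul]
      have h7 : κ p * (σ * e - σ * z₀) = σ * e - σ * p.2 := div_mul_cancel₀ _ hd.ne'
      have h8 : σ * (κ p * z₀ + (1 - κ p) * e) = σ * p.2 := by linarith
      exact (mul_left_cancel₀ hσ h8).symm
  rw [h5]
  exact hK.combo_interior_self_mem_interior hz₀ hp3 hκp (by linarith) (by ring)

/-- illumination near a point of the section at the end `e` of `K` (`σ = 1`: top, `σ = -1`: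
bottom) by the directions `(-u, -σ t)` -/
theorem GoodAt.of_end {ι : Type*} {K : Set (ℂ × ℝ)} (hK : Convex ℝ K) {σ e : ℝ}
    (hend : ∀ p ∈ K, σ * p.2 ≤ σ * e) {z₀ : ℝ} (hz₀ : ((0 : ℂ), z₀) ∈ interior K)
    (hz : σ * z₀ < σ * e) {v : ι → ℝ → ℂ × ℝ} {i : ι} {u x : ℂ}
    (hv : ∀ t, v i t = (-u, -σ * t)) {l : ℝ} (hl : 0 < l)
    (h : x - l • u ∈ interior (sec K e)) : GoodAt K v (x, e) := by
  have h1 := cap hK hz₀ hz (mem_interior_iff_mem_nhds.1 h)
  have hσ : σ ≠ 0 := by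
    rintro rfl
    simp at hz
  have hcont : ContinuousAt (fun p : ℝ × (ℂ × ℝ) => p.2 + l • ((-u, -σ * p.1) : ℂ × ℝ))
      ((0 : ℝ), ((x, e) : ℂ × ℝ)) := by fun_prop
  have h2 : (fun p : ℝ × (ℂ × ℝ) => p.2 + l • ((-u, -σ * p.1) : ℂ × ℝ))
      ((0 : ℝ), ((x, e) : ℂ × ℝ)) = (x - l • u, e) := by
    simp [sub_eq_add_neg]
  have h3 := hcont.eventually (by rw [h2]; exact h1)
  refine h3.mono fun p hp hp0 hpK => ⟨i, l, hl, ?_⟩
  rw [hv]
  refine hp ?_
  have h4 := hend _ hpK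
  simp only [Prod.snd_add, Prod.smul_snd, smul_eq_mul]
  have h5 : 0 < σ ^ 2 * (l * p.1) := by positivity
  nlinarith

/-- points over the interior of the projection -/
theorem exists_interior_fibre {K : Set (ℂ × ℝ)} (hK : Convex ℝ K) (hKi : (interior K).Nonempty)
    {x : ℂ} (hx : x ∈ interior (Prod.fst '' K)) : ∃ z, (x, z) ∈ interior K := by
  obtain ⟨⟨x₀, z₀⟩, h0⟩ := hKi
  have hcont : ContinuousAt (fun ε : ℝ => x + ε • (x - x₀)) 0 := by fun_prop
  have h1 := hcont.eventually_mem (isOpen_interior.mem_nhds (by simpa using hx))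
  obtain ⟨ε, hε, h2⟩ := Metric.eventually_nhds_iff.1 h1
  have h3 : x + (ε / 2) • (x - x₀) ∈ interior (Prod.fst '' K) := by
    apply h2
    rw [Real.dist_eq, sub_zero, abs_of_pos (by linarith)]
    linarith
  obtain ⟨⟨y, z₁⟩, hyK, hy⟩ := interior_subset h3
  have hy' : y = x + (ε / 2) • (x - x₀) := hy
  set d := ε / 2 with hd
  have hd0 : 0 < d := by positivity
  have h4 := hK.combo_interior_self_mem_interior h0 hyK (a := d / (1 + d)) (b := 1 / (1 + d))
    (by positivity) (by positivity) (by field_simp; ring)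
  refine ⟨(d / (1 + d)) * z₀ + (1 / (1 + d)) * z₁, ?_⟩
  convert h4 using 1
  refine Prod.ext ?_ ?_
  · simp only [Prod.fst_add, Prod.smul_fst]
    rw [hy']
    have h5 : (1 : ℝ) + d ≠ 0 := by positivity
    simp only [Complex.real_smul]
    push_cast
    have h6 : (1 : ℂ) + (d : ℂ) ≠ 0 := by exact_mod_cast h5
    field_simp
    ring
  · simp

/-- points over the interior of the projection are illuminated by the vertical directions -/
theorem ill_vertical {K : Set (ℂ × ℝ)} (hK : Convex ℝ K) (hKi : (interior K).Nonempty)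
    {x : ℂ} {z : ℝ} (hx : x ∈ interior (Prod.fst '' K)) :
    Ill K ((0 : ℂ), (-1 : ℝ)) (x, z) ∨ Ill K ((0 : ℂ), (1 : ℝ)) (x, z) := by
  obtain ⟨z', hz'⟩ := exists_interior_fibre hK hKi hx
  rcases lt_trichotomy z z' with h | h | h
  · right
    refine ⟨z' - z, by linarith, ?_⟩
    convert hz' using 1
    simp
  · left
    subst h
    exact Ill.of_interior hz'
  · left
    refine ⟨z - z', by linarith, ?_⟩
    convert hz' using 1
    simp

/-- vertical direction for the top and the bottom -/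
theorem ill_end {K : Set (ℂ × ℝ)} (hK : Convex ℝ K) (hKi : (interior K).Nonempty) {σ e : ℝ}
    (hσ : 0 < σ ^ 2) (hend : ∀ p ∈ K, σ * p.2 ≤ σ * e)
    {x : ℂ} (hx : x ∈ interior (Prod.fst '' K)) : Ill K ((0 : ℂ), -σ) (x, e) := by
  obtain ⟨z', hz'⟩ := exists_interior_fibre hK hKi hx
  have h1 := hend _ (interior_subset hz')
  simp only at h1
  rcases h1.lt_or_eq with h2 | h2
  · refine ⟨(σ * e - σ * z') / σ ^ 2, div_pos (by linarith) hσ, ?_⟩
    convert hz' using 1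
    refine Prod.ext (by simp) ?_
    simp only [Prod.snd_add, Prod.smul_snd, smul_eq_mul]
    have : σ ≠ 0 := by
      rintro rfl
      simp at hσ
    field_simp
    ring
  · have : σ ≠ 0 := by
      rintro rfl
      simp at hσ
    have h3 : z' = e := mul_left_cancel₀ this h2
    rw [h3] at hz'
    exact Ill.of_interior hz'

end Pool.Agent.W867.Cov3
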