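import Pool.Agent.W867.Cov3.Alpha2

/-!
Bodies in `ℂ × ℝ` invariant under the rotation by 120 degrees, with two equal triangular ends
and an opposite triangle in between: seven directions.
-/

set_option autoImplicit false

open Set Topology Filter
open scoped ComplexConjugate

namespace Pool.Agent.W867.Cov3

/-- the normalised situation -/
structure Beta (K : Set (ℂ × ℝ)) (bot top z₀ : ℝ) : Prop where
  rot : RotBody K w3
  ends : Ends K bot top
  one_top : ((1 : ℂ), top) ∈ K
  one_bot : ((1 : ℂ), bot) ∈ K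
  tri_top : ∀ y ∈ sec K top, InT 1 y
  tri_bot : ∀ y ∈ sec K bot, InT 1 y
  lt0 : bot < z₀
  lt1 : z₀ < top
  two : ((-2 : ℂ), z₀) ∈ K
  re_le : ∀ p ∈ K, p.1.re ≤ 1

section

variable {K : Set (ℂ × ℝ)} {bot top z₀ : ℝ}

theorem Beta.re_le' (B : Beta K bot top z₀) {p : ℂ × ℝ} (hp : p ∈ K) (k : Fin 3) :
    (rot3 k * p.1).re ≤ 1 :=
  B.re_le (rot3 k * p.1, p.2) (B.rot.inv3 p.2 p.1 hp k)

theorem Beta.side (B : Beta K bot top z₀) {σ : ℝ} (hσ : σ = 1 ∨ σ = -1) :
    ((⟨1, σ * √3⟩ : ℂ), z₀) ∈ K := by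
  rcases hσ with rfl | rfl
  · have h1 : ((rot3 2 * (-2) : ℂ), z₀) ∈ K := B.rot.inv3 z₀ _ B.two 2
    have h2 : (⟨1, 1 * √3⟩ : ℂ) = rot3 2 * (-2) := by
      rw [rot3_two]
      apply Complex.ext <;> simp [w3_re, w3_im]
    rwa [h2]
  · have h1 : ((rot3 1 * (-2) : ℂ), z₀) ∈ K := B.rot.inv3 z₀ _ B.two 1
    have h2 : (⟨1, -1 * √3⟩ : ℂ) = rot3 1 * (-2) := by
      rw [rot3_one]
      apply Complex.ext <;> simp [w3_re, w3_im]
    rwa [h2]

theorem combo_one {a b p r s : ℝ} (hab : a + b = 1) :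
    a • ((1 : ℂ), p) + b • ((⟨1, s⟩ : ℂ), r) = ((⟨1, b * s⟩ : ℂ), a * p + b * r) := by
  refine Prod.ext ?_ ?_
  · apply Complex.ext
    · simp only [Prod.fst_add, Prod.smul_fst, Complex.add_re, Complex.smul_re, Complex.one_re,
        smul_eq_mul, mul_one]
      exact hab
    · simp only [Prod.fst_add, Prod.smul_fst, Complex.add_im, Complex.smul_im, Complex.one_im,
        smul_eq_mul, mul_zero, zero_add]
  · simp only [Prod.snd_add, Prod.smul_snd, smul_eq_mul]

theorem Beta.one (B : Beta K bot top z₀) {z : ℝ} (h1 : bot ≤ z) (h2 : z ≤ top) :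
    ((1 : ℂ), z) ∈ K := by
  have hd : 0 < top - bot := by linarith [B.ends.lt]
  have h5 := B.rot.conv B.one_bot B.one_top (a := (top - z) / (top - bot))
    (b := (z - bot) / (top - bot))
    (div_nonneg (by linarith) hd.le) (div_nonneg (by linarith) hd.le)
    (by rw [← add_div, div_eq_one_iff_eq hd.ne']; ring)
  convert h5 using 1
  refine Prod.ext ?_ ?_
  · simp only [Prod.fst_add, Prod.smul_fst]
    rw [← add_smul, ← add_div, div_eq_one_iff_eq hd.ne' |>.2 (by ring), one_smul]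
  · simp only [Prod.snd_add, Prod.smul_snd, smul_eq_mul]
    rw [div_mul_eq_mul_div, div_mul_eq_mul_div, ← add_div, eq_div_iff hd.ne']
    ring

theorem Beta.kappa (B : Beta K bot top z₀) {z : ℝ} (h1 : bot < z) (h2 : z < top) :
    ∃ κ : ℝ, 0 < κ ∧ ∀ σ : ℝ, (σ = 1 ∨ σ = -1) → ((⟨1, σ * (κ * √3)⟩ : ℂ), z) ∈ K := by
  have hlt0 := B.lt0
  have hlt1 := B.lt1
  rcases le_total z z₀ with h | h
  · have hd : 0 < z₀ - bot := by linarith
    refine ⟨(z - bot) / (z₀ - bot), div_pos (by linarith) hd, fun σ hσ => ?_⟩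
    have hab : (z₀ - z) / (z₀ - bot) + (z - bot) / (z₀ - bot) = 1 := by
      rw [← add_div, div_eq_one_iff_eq hd.ne']; ring
    have h5 := B.rot.conv B.one_bot (B.side hσ) (a := (z₀ - z) / (z₀ - bot))
      (b := (z - bot) / (z₀ - bot)) (div_nonneg (by linarith) hd.le)
      (div_nonneg (by linarith) hd.le) hab
    rw [combo_one hab] at h5
    convert h5 using 2
    · congr 1
      ring
    · rw [div_mul_eq_mul_div, div_mul_eq_mul_div, ← add_div, eq_div_iff hd.ne']
      ring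
  · have hd : 0 < top - z₀ := by linarith
    refine ⟨(top - z) / (top - z₀), div_pos (by linarith) hd, fun σ hσ => ?_⟩
    have hab : (z - z₀) / (top - z₀) + (top - z) / (top - z₀) = 1 := by
      rw [← add_div, div_eq_one_iff_eq hd.ne']; ring
    have h5 := B.rot.conv B.one_top (B.side hσ) (a := (z - z₀) / (top - z₀))
      (b := (top - z) / (top - z₀)) (div_nonneg (by linarith) hd.le)
      (div_nonneg (by linarith) hd.le) hab
    rw [combo_one hab] at h5
    convert h5 using 2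
    · congr 1
      ring
    · rw [div_mul_eq_mul_div, div_mul_eq_mul_div, ← add_div, eq_div_iff hd.ne']
      ring

/-- inner points of the side face are moved inwards by a horizontal direction -/
theorem Beta.inner (B : Beta K bot top z₀) {x : ℂ} {z : ℝ} (h1 : bot < z) (h2 : z < top)
    (hx : (x, z) ∈ K) (hre : x.re = 1) : ∃ j, PI (sec K z) x (-rot3 j) := by
  have hs := sqrt3_sq
  have hs0 := sqrt3_pos
  obtain ⟨κ, hκ, hK⟩ := B.kappa h1 h2
  obtain ⟨σ, hσ, hσb⟩ : ∃ σ : ℝ, (σ = 1 ∨ σ = -1) ∧ |x.im| = σ * x.im := by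
    rcases abs_cases x.im with ⟨h1, _⟩ | ⟨h1, _⟩
    · exact ⟨1, Or.inl rfl, by rw [h1, one_mul]⟩
    · exact ⟨-1, Or.inr rfl, by rw [h1, neg_one_mul]⟩
  have hσ2 : σ * σ = 1 := by
    rcases hσ with rfl | rfl <;> norm_num
  have hσ' : -σ = 1 ∨ -σ = -1 := by
    rcases hσ with rfl | rfl
    · right; rfl
    · left; norm_num
  obtain ⟨Y, hY⟩ : ∃ Y, Y = |x.im| := ⟨_, rfl⟩
  have hY0 : 0 ≤ Y := by
    rw [hY]
    exact abs_nonneg _
  rw [← hY] at hσb
  have hYle : Y ≤ √3 := by
    have e1 := B.re_le' hx 1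
    have e2 := B.re_le' hx 2
    rw [rot3_one] at e1
    rw [rot3_two] at e2
    simp only [Complex.mul_re, Complex.conj_re, Complex.conj_im, w3_re, w3_im, hre] at e1 e2
    have e3 : √3 * Y ≤ 3 := by
      rw [hσb]
      rcases hσ with rfl | rfl <;> linarith
    nlinarith
  have hxim : x.im = σ * Y := by
    rw [hσb]
    linear_combination (-x.im) * hσ2
  have hx' : x = ⟨1, σ * Y⟩ := Complex.ext hre hxim
  obtain ⟨j, hj⟩ : ∃ j, rot3 j = ⟨-1 / 2, -σ * (√3 / 2)⟩ := by
    rcases hσ with rfl | rfl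
    · refine ⟨2, ?_⟩
      rw [rot3_two]
      apply Complex.ext <;> simp [w3_re, w3_im]
    · refine ⟨1, ?_⟩
      rw [rot3_one]
      apply Complex.ext <;> simp [w3_re, w3_im]
  have hQ := hK (-σ) hσ'
  obtain ⟨W, hW⟩ : ∃ W, W = Y + κ * √3 := ⟨_, rfl⟩
  have hW0 : 0 < W := by
    rw [hW]
    positivity
  obtain ⟨l, hl⟩ : ∃ l, l = W / (√3 * (1 + κ)) := ⟨_, rfl⟩
  have hden : 0 < √3 * (1 + κ) := by positivity
  have hl0 : 0 < l := by
    rw [hl]
    positivity
  have hl1 : l ≤ 1 := by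
    rw [hl, div_le_one hden, hW]
    nlinarith
  have hlW : l * (√3 * (1 + κ)) = Y + κ * √3 := by
    rw [hl, div_mul_cancel₀ _ hden.ne', hW]
  have h0 : (0 : ℂ) ∈ interior (sec K z) := sec_of_int (B.ends.inner z h1 h2)
  refine ⟨j, l, hl0, ?_⟩
  have hd : 0 < 1 - l / 2 := by linarith
  obtain ⟨r, hr⟩ : ∃ r, r = (1 - l / 2)⁻¹ := ⟨_, rfl⟩
  have hr0 : 0 < r := by
    rw [hr]
    positivity
  have hrd : r * (1 - l / 2) = 1 := by
    rw [hr]
    exact inv_mul_cancel₀ hd.ne'
  refine radial (sec_convex B.rot.conv z) h0 (ε := r * (l / 2)) (by positivity) ?_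
  have h5 := (sec_convex B.rot.conv z) hx hQ (a := r * (1 / 2))
    (b := r * ((1 - l) / 2)) (by positivity) (mul_nonneg hr0.le (by linarith))
    (by linear_combination hrd)
  convert h5 using 1
  rw [hj, hx']
  have he : 1 + r * (l / 2) = r := by linear_combination -hrd
  rw [he]
  apply Complex.ext
  · simp only [Complex.smul_re, Complex.sub_re, Complex.add_re, Complex.neg_re, smul_eq_mul]
    ring
  · simp only [Complex.smul_im, Complex.sub_im, Complex.add_im, Complex.neg_im, smul_eq_mul]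
    linear_combination (-σ * r / 2) * hlW

theorem Beta.face (B : Beta K bot top z₀) : ∀ᶠ p : ℂ × ℝ in 𝓝 ((1 : ℂ), (bot + top) / 2),
    p.1.re = 1 → p ∈ K := by
  have hs0 := sqrt3_pos
  have hlt := B.ends.lt
  obtain ⟨μ, hμ⟩ : ∃ μ : ℂ × ℝ → ℝ, μ = fun p => |p.1.im| / √3 := ⟨_, rfl⟩
  have hμc : Continuous μ := by
    rw [hμ]
    fun_prop
  have hμ0 : μ ((1 : ℂ), (bot + top) / 2) = 0 := by
    rw [hμ]
    simp
  obtain ⟨Z, hZ⟩ : ∃ Z : ℂ × ℝ → ℝ, Z = fun p => (p.2 - μ p * z₀) / (1 - μ p) := ⟨_, rfl⟩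
  have hZc : ContinuousAt Z ((1 : ℂ), (bot + top) / 2) := by
    rw [hZ]
    refine ContinuousAt.div (by fun_prop) (by fun_prop) ?_
    rw [hμ0]
    norm_num
  have hZ0 : Z ((1 : ℂ), (bot + top) / 2) = (bot + top) / 2 := by
    rw [hZ]
    simp [hμ0]
  have e1 : ∀ᶠ p : ℂ × ℝ in 𝓝 ((1 : ℂ), (bot + top) / 2), μ p < 1 :=
    hμc.continuousAt.eventually_lt continuousAt_const (by rw [hμ0]; norm_num)
  have e2 : ∀ᶠ p : ℂ × ℝ in 𝓝 ((1 : ℂ), (bot + top) / 2), bot < Z p :=
    continuousAt_const.eventually_lt hZc (by rw [hZ0]; linarith)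
  have e3 : ∀ᶠ p : ℂ × ℝ in 𝓝 ((1 : ℂ), (bot + top) / 2), Z p < top :=
    hZc.eventually_lt continuousAt_const (by rw [hZ0]; linarith)
  filter_upwards [e1, e2, e3] with p h1 h2 h3 hre
  obtain ⟨σ, hσ, hσb⟩ : ∃ σ : ℝ, (σ = 1 ∨ σ = -1) ∧ |p.1.im| = σ * p.1.im := by
    rcases abs_cases p.1.im with ⟨h1, _⟩ | ⟨h1, _⟩
    · exact ⟨1, Or.inl rfl, by rw [h1, one_mul]⟩
    · exact ⟨-1, Or.inr rfl, by rw [h1, neg_one_mul]⟩
  have hσ2 : σ * σ = 1 := by
    rcases hσ with rfl | rfl <;> norm_num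
  have hμn : 0 ≤ μ p := by
    rw [hμ]
    positivity
  have h5 := B.rot.conv (B.side hσ) (B.one h2.le h3.le) (a := μ p) (b := 1 - μ p) hμn
    (by linarith) (by ring)
  convert h5 using 1
  refine Prod.ext ?_ ?_
  · apply Complex.ext
    · simp [hre]
    · simp
      rw [hμ]
      simp only
      rw [hσb]
      field_simp
      linear_combination (-p.1.im) * hσ2
  · simp only [Prod.snd_add, Prod.smul_snd, smul_eq_mul]
    rw [hZ]
    simp only
    have : 1 - μ p ≠ 0 := by linarith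
    field_simp
    ring

theorem Beta.face_int (B : Beta K bot top z₀) : ∀ᶠ p : ℂ × ℝ in 𝓝 ((1 : ℂ), (bot + top) / 2),
    p.1.re < 1 → p ∈ interior K := by
  have hz0 : ((0 : ℂ), (bot + top) / 2) ∈ interior K :=
    B.ends.inner _ (by linarith [B.ends.lt]) (by linarith [B.ends.lt])
  -- the projection from the centre
  obtain ⟨f, hf⟩ : ∃ f : ℂ × ℝ → ℂ × ℝ, f = fun p =>
    (p.1.re)⁻¹ • (p - (1 - p.1.re) • ((0 : ℂ), (bot + top) / 2)) := ⟨_, rfl⟩
  have hfc : ContinuousAt f ((1 : ℂ), (bot + top) / 2) := by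
    rw [hf]
    have e1 : ContinuousAt (fun p : ℂ × ℝ => (p.1.re)⁻¹) ((1 : ℂ), (bot + top) / 2) :=
      ContinuousAt.inv₀ (f := fun p : ℂ × ℝ => p.1.re) (by fun_prop) (by simp)
    have e2 : ContinuousAt (fun p : ℂ × ℝ => p - (1 - p.1.re) • ((0 : ℂ), (bot + top) / 2))
      ((1 : ℂ), (bot + top) / 2) := by fun_prop
    exact e1.smul e2
  have hf0 : f ((1 : ℂ), (bot + top) / 2) = ((1 : ℂ), (bot + top) / 2) := by
    rw [hf]
    simp
  have e1 : ∀ᶠ p : ℂ × ℝ in 𝓝 ((1 : ℂ), (bot + top) / 2), (f p).1.re = 1 → f p ∈ K := by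
    have h2 : Tendsto f (𝓝 ((1 : ℂ), (bot + top) / 2)) (𝓝 ((1 : ℂ), (bot + top) / 2)) := by
      have h3 : Tendsto f (𝓝 ((1 : ℂ), (bot + top) / 2)) (𝓝 (f ((1 : ℂ), (bot + top) / 2))) := hfc
      rwa [hf0] at h3
    exact h2.eventually B.face
  have e2 : ∀ᶠ p : ℂ × ℝ in 𝓝 ((1 : ℂ), (bot + top) / 2), 0 < p.1.re :=
    continuousAt_const.eventually_lt (by fun_prop) (by simp)
  filter_upwards [e1, e2] with p h1 h2 h3
  have hre : (f p).1.re = 1 := by
    rw [hf]
    simp
    exact inv_mul_cancel₀ h2.ne'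
  have h4 := B.rot.conv.combo_interior_self_mem_interior hz0 (h1 hre) (a := 1 - p.1.re)
    (b := p.1.re) (by linarith) h2.le (by ring)
  convert h4 using 1
  rw [hf]
  simp only
  rw [smul_smul, mul_inv_cancel₀ h2.ne', one_smul]
  abel

theorem rot_int (h : RotBody K w3) {y : ℂ} {z : ℝ} (hy : (y, z) ∈ interior K) (k : Fin 3) :
    (rot3 k * y, z) ∈ interior K := by
  have hc : Continuous fun p : ℂ × ℝ => ((conj (rot3 k) * p.1, p.2) : ℂ × ℝ) := by fun_prop
  refine mem_interior.2 ⟨(fun p : ℂ × ℝ => ((conj (rot3 k) * p.1, p.2) : ℂ × ℝ)) ⁻¹' interior K,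
    ?_, isOpen_interior.preimage hc, ?_⟩
  · rintro ⟨y, z⟩ hy
    have hy' : (conj (rot3 k) * y, z) ∈ interior K := hy
    have h1 : (rot3 k * (conj (rot3 k) * y), z) ∈ K :=
      h.inv3 z _ (interior_subset (s := K) hy') k
    rwa [← mul_assoc, rot3_mul_conj, one_mul] at h1
  · simp only [mem_preimage]
    rwa [← mul_assoc, conj_mul_rot3, one_mul]

theorem Beta.face_int' (B : Beta K bot top z₀) (j : Fin 3) :
    ∀ᶠ p : ℂ × ℝ in 𝓝 (rot3 j, (bot + top) / 2), (conj (rot3 j) * p.1).re < 1 →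
      p ∈ interior K := by
  have hc : ContinuousAt (fun p : ℂ × ℝ => ((conj (rot3 j) * p.1, p.2) : ℂ × ℝ))
      (rot3 j, (bot + top) / 2) := by fun_prop
  have h1 : Tendsto (fun p : ℂ × ℝ => ((conj (rot3 j) * p.1, p.2) : ℂ × ℝ))
      (𝓝 (rot3 j, (bot + top) / 2)) (𝓝 ((1 : ℂ), (bot + top) / 2)) := by
    have h2 : Tendsto (fun p : ℂ × ℝ => ((conj (rot3 j) * p.1, p.2) : ℂ × ℝ))
      (𝓝 (rot3 j, (bot + top) / 2)) (𝓝 (conj (rot3 j) * rot3 j, (bot + top) / 2)) := hc
    rwa [conj_mul_rot3] at h2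
  filter_upwards [h1.eventually B.face_int] with p hp hlt
  have := rot_int B.rot (hp hlt) j
  rwa [← mul_assoc, rot3_mul_conj, one_mul] at this

/-- the sign of the steep direction -/
theorem steep_sign (j : Fin 3) : ∃ s : Fin 2, (conj (rot3 j) * ((sg s : ℂ) * conj w3)).re < 0 := by
  have hs := sqrt3_sq
  have hs0 := sqrt3_pos
  fin_cases j
  · refine ⟨0, ?_⟩
    simp [rot3, sg, w3_re]
    norm_num
  · refine ⟨0, ?_⟩
    simp [rot3, sg, w3_re, w3_im]
    nlinarith
  · refine ⟨1, ?_⟩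
    simp [rot3, sg, w3_re, w3_im]
    nlinarith

theorem Beta.cov (B : Beta K bot top z₀) : Cov K := by
  have hs := sqrt3_sq
  have hs0 := sqrt3_pos
  have h := B.rot
  have he := B.ends
  have hlt := he.lt
  let v : Fin 3 ⊕ (Fin 2 × Fin 2) → ℝ → ℂ × ℝ := fun i t =>
    Sum.elim (fun j => ((rot3 j, 0) : ℂ × ℝ))
      (fun s => ((t : ℂ) * ((sg s.1 : ℂ) * conj w3), sg s.2)) i
  have hvc : ∀ i, Continuous (v i) := by
    rintro (j | s)
    · exact continuous_const
    · simp only [v, Sum.elim_inr]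
      fun_prop
  obtain ⟨T, hT, hcov⟩ := cover_of_good h.conv h.comp v (by
    rintro ⟨x, z⟩ hq
    by_cases hM : x ∈ interior (Prod.fst '' K)
    · obtain ⟨j, hj⟩ := ill_inner h (z := z) hM
      refine GoodAt.of_ill (i := Sum.inr (0, j)) (hvc _).continuousAt ?_
      simpa [v] using hj
    · -- a side
      obtain ⟨k, hk⟩ : ∃ k, (rot3 k * x).re = 1 := by
        by_contra hcon
        push Not at hcon
        apply hM
        refine mem_interior.2 ⟨{y | ∀ k, (rot3 k * y).re < 1}, ?_, ?_, ?_⟩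
        · intro y hy
          refine ⟨(y, z₀), ?_, rfl⟩
          refine inT_mem (S := sec K z₀) (sec_convex h.conv z₀) (h.inv3 z₀) B.two
            (by norm_num) fun i => ?_
          have h5 := (hy (-i)).le
          have h6 : conj (rot3 i * (-2)) * y = -(2 * (rot3 (-i) * y)) := by
            rw [map_mul, rot3_conj, map_neg, Complex.conj_ofNat]
            ring
          rw [h6]
          simp only [Complex.neg_re, neg_neg]
          have h7 : (2 * (rot3 (-i) * y)).re = 2 * (rot3 (-i) * y).re := by simp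
          rw [h7]
          have h8 : ‖(-2 : ℂ)‖ = 2 := by simp
          rw [h8]
          linarith
        · simp only [Set.ofPred_forall]
          exact isOpen_iInter_of_finite fun i => isOpen_lt (by fun_prop) continuous_const
        · intro i
          exact lt_of_le_of_ne (B.re_le' hq i) (hcon i)
      obtain ⟨hz1, hz2⟩ := he.le _ hq
      simp only at hz1 hz2
      -- the vertex at the ends
      have hvertex : InT 1 x → x = rot3 (-k) := by
        intro hin
        obtain ⟨-, g1, g2⟩ := inT_one (hin.rot k)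
        rw [hk] at g1 g2
        have g3 : √3 * (rot3 k * x).im = 0 := by linarith
        have g4 : (rot3 k * x).im = 0 := (mul_eq_zero.1 g3).resolve_left hs0.ne'
        have g5 : rot3 k * x = 1 := Complex.ext hk g4
        have g6 := rot3_mul (-k) k
        rw [neg_add_cancel, rot3_zero] at g6
        linear_combination (rot3 (-k)) * g5 + x * g6
      have hendgood : ∀ (j : Fin 3) (e : ℝ) (s' : Fin 2), e + (top - bot) / 2 * sg s' =
          (bot + top) / 2 → GoodAt K v (rot3 j, e) := by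
        intro j e s' hes
        obtain ⟨s, hs⟩ := steep_sign j
        have hc : ContinuousAt (fun p : ℝ × (ℂ × ℝ) => p.2 + ((top - bot) / 2) •
            v (Sum.inr (s, s')) p.1) ((0 : ℝ), ((rot3 j, e) : ℂ × ℝ)) := by
          have := hvc (Sum.inr (s, s'))
          fun_prop
        have h0 : (fun p : ℝ × (ℂ × ℝ) => p.2 + ((top - bot) / 2) •
            v (Sum.inr (s, s')) p.1) ((0 : ℝ), ((rot3 j, e) : ℂ × ℝ)) =
            (rot3 j, (bot + top) / 2) := by
          simp only [v, Sum.elim_inr]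
          refine Prod.ext ?_ ?_
          · simp
          · simp only [Prod.snd_add, Prod.smul_snd, smul_eq_mul]
            exact hes
        have h1 := hc.eventually (by rw [h0]; exact B.face_int' j)
        refine h1.mono fun p hp hp0 hpK => ⟨Sum.inr (s, s'), (top - bot) / 2, by linarith, hp ?_⟩
        simp only [v, Sum.elim_inr, Prod.fst_add, Prod.smul_fst]
        have h2 : conj (rot3 j) * (p.2.1 + ((top - bot) / 2) • ((p.1 : ℂ) *
            ((sg s : ℂ) * conj w3))) = conj (rot3 j) * p.2.1 +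
            (((top - bot) / 2 * p.1 : ℝ) : ℂ) * (conj (rot3 j) * ((sg s : ℂ) * conj w3)) := by
          rw [Complex.real_smul]
          push_cast
          ring
        rw [h2, Complex.add_re, Complex.re_ofReal_mul]
        have h3 : (conj (rot3 j) * p.2.1).re ≤ 1 := by
          rw [rot3_conj]
          exact B.re_le' hpK _
        have h4 : 0 < (top - bot) / 2 * p.1 := by
          have : 0 < (top - bot) / 2 := by linarith
          positivity
        nlinarith
      rcases hz1.eq_or_lt with hz1 | hz1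
      · -- bottom
        subst hz1
        rw [hvertex (B.tri_bot _ hq)]
        exact hendgood _ _ 0 (by simp [sg]; ring)
      · rcases hz2.eq_or_lt with hz2 | hz2
        · subst hz2
          rw [hvertex (B.tri_top _ hq)]
          exact hendgood _ _ 1 (by simp [sg]; ring)
        · -- inner
          have hx' : (rot3 k * x, z) ∈ K := h.inv3 z x hq k
          obtain ⟨j, hj⟩ := B.inner hz1 hz2 hx' hk
          have h5 := hj.rot (h.inv3 z) (-k)
          rw [← mul_assoc, ← rot3_mul, neg_add_cancel, rot3_zero, one_mul, mul_neg,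
            ← rot3_mul] at h5
          have h6 := ill_of_PI h.conv (he.inner z hz1 hz2) h5
          rw [neg_neg] at h6
          refine GoodAt.of_ill (i := Sum.inl (-k + j)) (hvc _).continuousAt ?_
          simpa [v] using h6)
  refine ⟨T, hT.trans ?_, hcov⟩
  simp [Fintype.card_sum, Fintype.card_prod]

end

end Pool.Agent.W867.Cov3
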