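import Pool.Agent.W867.Cov3.General

/-!
The case `0 ≤ ω.re`: a body with a rotational symmetry of order `≥ 4`.
-/

set_option autoImplicit false

open Set Topology Filter
open scoped ComplexConjugate

namespace Pool.Agent.W867.Cov3

theorem PI.of_smul {S : Set ℂ} {x u : ℂ} {r : ℝ} (hr : 0 < r) (h : PI S x (r • u)) :
    PI S x u := by
  obtain ⟨l, hl, hi⟩ := h
  refine ⟨l * r, by positivity, ?_⟩
  rwa [smul_smul] at hi

theorem PI.of_int {S : Set ℂ} {x u : ℂ} (h : x ∈ interior S) : PI S x u := by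
  have hcont : ContinuousAt (fun l : ℝ => x - l • u) 0 := by fun_prop
  have h1 := hcont.eventually_mem (isOpen_interior.mem_nhds (by simpa using h))
  obtain ⟨ε, hε, h2⟩ := Metric.eventually_nhds_iff.1 h1
  refine ⟨ε / 2, by linarith, h2 ?_⟩
  rw [Real.dist_eq, sub_zero, abs_of_pos (by linarith)]
  linarith

theorem rot4_norm (k : Fin 4) : ‖rot4 k‖ = 1 := by
  fin_cases k <;> simp [rot4]

theorem rot4_eq (k : Fin 4) : rot4 k = Complex.I ^ (k : ℕ) := by
  have h2 : Complex.I ^ 2 = -1 := Complex.I_sq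
  have h3 : Complex.I ^ 3 = -Complex.I := by
    rw [pow_succ, h2]
    ring
  fin_cases k
  · simp [rot4]
  · simp [rot4]
  · simp [rot4]
  · simp [rot4, h3]

theorem rot4_pow (k : Fin 4) : rot4 k ^ 4 = 1 := by
  rw [rot4_eq, ← pow_mul, mul_comm, pow_mul, Complex.I_pow_four, one_pow]

theorem rot4_mul (k k' : Fin 4) : rot4 (k + k') = rot4 k * rot4 k' := by
  rw [rot4_eq, rot4_eq, rot4_eq, ← pow_add, Fin.val_add]
  conv_rhs => rw [← Nat.div_add_mod ((k : ℕ) + (k' : ℕ)) 4]
  rw [pow_add, pow_mul, Complex.I_pow_four, one_pow, one_mul]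

theorem normSq_eq (x : ℂ) : x.re ^ 2 + x.im ^ 2 = ‖x‖ ^ 2 := by
  rw [Complex.sq_norm, Complex.normSq_apply]
  ring

/-- `x` is illuminated by `x * v` if `1` sees `1 - l v` -/
theorem PI.of_mul {S : Set ℂ} {x v : ℂ} {l : ℝ} (hl : 0 < l)
    (h : x * (1 - (l : ℂ) * v) ∈ interior S) : PI S x (x * v) := by
  refine ⟨l, hl, ?_⟩
  convert h using 1
  rw [Complex.real_smul]
  ring

/-- a point of a planar set invariant under `i` -/
theorem quarter {w : ℂ} : ∃ k : Fin 4, 0 ≤ (rot4 k * w).re ∧ 0 ≤ (rot4 k * w).im ∧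
    (rot4 k * w).re + (rot4 k * w).im = |w.re| + |w.im| := by
  rcases le_total 0 w.re with h1 | h1 <;> rcases le_total 0 w.im with h2 | h2
  · refine ⟨0, ?_, ?_, ?_⟩ <;> simp [rot4, h1, h2, abs_of_nonneg]
  · refine ⟨1, ?_, ?_, ?_⟩ <;> simp [rot4, h1, h2, abs_of_nonneg, abs_of_nonpos]
    ring
  · refine ⟨3, ?_, ?_, ?_⟩ <;> simp [rot4, h1, h2, abs_of_nonneg, abs_of_nonpos]
    ring
  · refine ⟨2, ?_, ?_, ?_⟩ <;> simp [rot4, h1, h2, abs_of_nonpos]

theorem rot4_mem {S : Set ℂ} (hI : ∀ y ∈ S, Complex.I * y ∈ S) (k : Fin 4) {y : ℂ} (hy : y ∈ S) :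
    rot4 k * y ∈ S := by
  fin_cases k
  · simpa [rot4] using hy
  · simpa [rot4] using hI _ hy
  · have h := hI _ (hI _ hy)
    rw [← mul_assoc, Complex.I_mul_I] at h
    simpa [rot4] using h
  · have h := hI _ (hI _ (hI _ hy))
    rw [← mul_assoc Complex.I Complex.I, Complex.I_mul_I] at h
    simpa [rot4] using h

theorem square_bad {S : Set ℂ} (hS : Convex ℝ S) (h0 : (0 : ℂ) ∈ interior S)
    (hI : ∀ y ∈ S, Complex.I * y ∈ S) {x c : ℂ} (hx : x ∈ S) (hx0 : x ≠ 0)
    (hc : ‖c‖ = 1) (hbad : ∀ k, ¬ PI S x (c * rot4 k)) :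
    (conj x * c) ^ 4 = -((‖x‖ : ℂ) ^ 4) ∧
      ∀ y ∈ S, |(conj x * y).re| + |(conj x * y).im| ≤ ‖x‖ ^ 2 := by
  obtain ⟨k, hk⟩ := sqr (conj x * c)
  have hassoc : ∀ k, conj x * c * rot4 k = conj x * (c * rot4 k) := fun k => by ring
  have hn : 0 < ‖x‖ := norm_pos_iff.2 hx0
  have hnc : (conj x * x) = ((‖x‖ ^ 2 : ℝ) : ℂ) := by
    rw [← Complex.normSq_eq_conj_mul_self, Complex.normSq_eq_norm_sq]
  have hI2 : conj Complex.I * x ∈ S := by
    have := rot4_mem hI 3 hx
    simpa [rot4] using this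
  have hstep : ∀ k, ¬ (|(conj x * c * rot4 k).im| < (conj x * c * rot4 k).re) := by
    intro k h
    rw [hassoc] at h
    refine hbad k (Cov3.PI_of_angle hS h0 (ω := Complex.I) (by simp) (by simp) hx (hI _ hx) hI2
      hx0 ?_)
    simpa using h
  set p := conj x * c * rot4 k with hp
  have heq : |p.im| = p.re := le_antisymm hk (not_lt.1 (hstep k))
  have hpn : ‖p‖ = ‖x‖ := by
    rw [hp, norm_mul, norm_mul, Complex.norm_conj, hc, rot4_norm, mul_one, mul_one]
  have hpre : 0 ≤ p.re := by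
    rw [← heq]
    exact abs_nonneg _
  have h2r : 2 * p.re ^ 2 = ‖x‖ ^ 2 := by
    have := normSq_eq p
    rw [hpn, ← sq_abs p.im, heq] at this
    linarith
  have hpre0 : 0 < p.re := by
    rcases hpre.lt_or_eq with h | h
    · exact h
    · exfalso
      rw [← h] at h2r
      have : 0 < ‖x‖ ^ 2 := by positivity
      nlinarith
  have hpim : p.im = p.re ∨ p.im = -p.re := by
    rcases abs_cases p.im with ⟨h, _⟩ | ⟨h, _⟩
    · left
      linarith
    · right
      linarith
  have hp4 : p ^ 4 = (conj x * c) ^ 4 := by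
    rw [hp, mul_pow _ (rot4 k), rot4_pow, mul_one]
  have h2rc : (2 : ℂ) * (p.re : ℂ) ^ 2 = (‖x‖ : ℂ) ^ 2 := by exact_mod_cast h2r
  have hp' : p = p.re + p.im * Complex.I := (Complex.re_add_im p).symm
  have hI2' : Complex.I ^ 2 = -1 := Complex.I_sq
  refine ⟨?_, ?_⟩
  · rw [← hp4]
    have h3 : p ^ 2 = 2 * (p.re : ℂ) ^ 2 * Complex.I ∨ p ^ 2 = -(2 * (p.re : ℂ) ^ 2 * Complex.I) := by
      rcases hpim with h | h
      · left
        conv_lhs => rw [hp', h]
        linear_combination ((p.re : ℂ)) ^ 2 * hI2'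
      · right
        conv_lhs => rw [hp', h]
        push_cast
        linear_combination ((p.re : ℂ)) ^ 2 * hI2'
    have h4 : p ^ 4 = (p ^ 2) ^ 2 := by ring
    rw [h4]
    rcases h3 with h | h
    · rw [h, h2rc]
      linear_combination (‖x‖ : ℂ) ^ 4 * hI2'
    · rw [h, h2rc]
      linear_combination (‖x‖ : ℂ) ^ 4 * hI2'
  · intro y hy
    by_contra hcon
    push Not at hcon
    -- the direction `x (1 - i)`
    have hdir : ¬ PI S x (x * (1 - Complex.I)) := by
      -- it is a positive multiple of `c * rot4 k'`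
      intro hPI
      have hk' : ∃ k' : Fin 4, rot4 k' = 1 ∧ p.im = -p.re ∨ rot4 k' = -Complex.I ∧ p.im = p.re := by
        rcases hpim with h | h
        · exact ⟨3, Or.inr ⟨by simp [rot4], h⟩⟩
        · exact ⟨0, Or.inl ⟨by simp [rot4], h⟩⟩
      obtain ⟨k', hk'⟩ := hk'
      -- `c * (rot4 k * rot4 k')` is of the form `c * rot4 k''`
      obtain ⟨k'', hk''⟩ : ∃ k'' : Fin 4, rot4 k'' = rot4 k * rot4 k' := ⟨k + k', rot4_mul k k'⟩
      refine hbad k'' ?_
      have h5 : x * (1 - Complex.I) = (‖x‖ ^ 2 / p.re) • (c * rot4 k'') := by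
        have h6 : conj x * (c * rot4 k'') = p.re * (1 - Complex.I) := by
          rw [hk'', ← mul_assoc, ← mul_assoc, ← hp]
          rcases hk' with ⟨h7, h8⟩ | ⟨h7, h8⟩
          · rw [h7, mul_one]
            conv_lhs => rw [hp', h8]
            push_cast
            ring
          · rw [h7]
            conv_lhs => rw [hp', h8]
            linear_combination (-(p.re : ℂ)) * hI2'
        have hxc : conj x ≠ 0 := by
          rw [Ne, map_eq_zero]
          exact hx0
        apply mul_left_cancel₀ hxc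
        rw [Complex.real_smul, ← mul_assoc, hnc]
        have hprc : (p.re : ℂ) ≠ 0 := by exact_mod_cast hpre0.ne'
        push_cast
        rw [mul_left_comm, h6]
        field_simp
      rw [h5] at hPI
      exact hPI.of_smul (by positivity)
    obtain ⟨j, hj1, hj2, hj3⟩ := quarter (w := conj x * y)
    set q := rot4 j * (conj x * y) with hq
    have hqS : rot4 j * y ∈ S := rot4_mem hI j hy
    have hsum : ‖x‖ ^ 2 < q.re + q.im := by
      rw [hj3]
      exact hcon
    have hq' : x * q = ((‖x‖ ^ 2 : ℝ) : ℂ) * (rot4 j * y) := by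
      rw [hq, ← hnc]
      ring
    have hN : 0 < ‖x‖ ^ 2 := by positivity
    set s := q.re + q.im with hs
    have hs0 : 0 < s := by linarith
    -- the point on the segment from `x` to `i x`
    have hpt : x * (1 - ((q.im / s : ℝ) : ℂ) * (1 - Complex.I)) ∈ interior S := by
      refine radial hS h0 (ε := s / ‖x‖ ^ 2 - 1) ?_ ?_
      · rw [sub_pos, one_lt_div hN]
        exact hsum
      · convert hqS using 1
        rw [Complex.real_smul]
        have hNc : (((‖x‖ ^ 2 : ℝ)) : ℂ) ≠ 0 := by exact_mod_cast hN.ne'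
        have hsc : ((s : ℝ) : ℂ) ≠ 0 := by exact_mod_cast hs0.ne'
        apply mul_left_cancel₀ hNc
        rw [← hq']
        have hqq : q = q.re + q.im * Complex.I := (Complex.re_add_im q).symm
        have hre : (q.re : ℂ) = s - q.im := by
          rw [hs]
          push_cast
          ring
        conv_rhs => rw [hqq, hre]
        have hNc' : ((‖x‖ : ℝ) : ℂ) ≠ 0 := by exact_mod_cast hn.ne'
        push_cast
        field_simp
        ring
    rcases hj2.lt_or_eq with h | h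
    · exact hdir (PI.of_mul (div_pos h hs0) hpt)
    · rw [← h] at hpt
      simp only [zero_div, Complex.ofReal_zero, zero_mul, sub_zero, mul_one] at hpt
      exact hdir (PI.of_int hpt)

theorem square_unique {S : Set ℂ} (hS : Convex ℝ S) (h0 : (0 : ℂ) ∈ interior S)
    (hI : ∀ y ∈ S, Complex.I * y ∈ S) {x c x' c' : ℂ} (hx : x ∈ S) (hx0 : x ≠ 0)
    (hc : ‖c‖ = 1) (hbad : ∀ k, ¬ PI S x (c * rot4 k)) (hx' : x' ∈ S) (hx0' : x' ≠ 0)
    (hc' : ‖c'‖ = 1) (hbad' : ∀ k, ¬ PI S x' (c' * rot4 k)) : c ^ 4 = c' ^ 4 := by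
  obtain ⟨h1, h2⟩ := square_bad hS h0 hI hx hx0 hc hbad
  obtain ⟨h1', h2'⟩ := square_bad hS h0 hI hx' hx0' hc' hbad'
  have hn : 0 < ‖x‖ := norm_pos_iff.2 hx0
  have hn' : 0 < ‖x'‖ := norm_pos_iff.2 hx0'
  have key : ∀ a b : ℂ, 0 < ‖a‖ → |(conj a * b).re| + |(conj a * b).im| ≤ ‖a‖ ^ 2 → ‖b‖ ≤ ‖a‖ := by
    intro a b ha h
    have h3 := normSq_eq (conj a * b)
    rw [norm_mul, Complex.norm_conj] at h3
    have h4 : (‖a‖ * ‖b‖) ^ 2 ≤ (‖a‖ ^ 2) ^ 2 := by
      rw [← h3]
      have h5 : (|(conj a * b).re| + |(conj a * b).im|) ^ 2 ≤ (‖a‖ ^ 2) ^ 2 := by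
        gcongr
      have h6 : 0 ≤ |(conj a * b).re| * |(conj a * b).im| := by positivity
      nlinarith [sq_abs (conj a * b).re, sq_abs (conj a * b).im]
    have h7 : ‖a‖ * ‖b‖ ≤ ‖a‖ ^ 2 := by
      apply le_of_sq_le_sq h4 (by positivity)
    nlinarith
  have hle := key _ _ hn (h2 _ hx')
  have hle' := key _ _ hn' (h2' _ hx)
  have heq : ‖x'‖ = ‖x‖ := le_antisymm hle hle'
  -- `conj x * x'` is real or imaginary
  have h3 := h2 _ hx'
  have h4 := normSq_eq (conj x * x')
  rw [norm_mul, Complex.norm_conj, heq] at h4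
  have h5 : |(conj x * x').re| * |(conj x * x').im| = 0 := by
    have h6 : 0 ≤ |(conj x * x').re| * |(conj x * x').im| := by positivity
    have h5' : (|(conj x * x').re| + |(conj x * x').im|) ^ 2 ≤ (‖x‖ ^ 2) ^ 2 := by
      gcongr
    nlinarith [sq_abs (conj x * x').re, sq_abs (conj x * x').im]
  have h7 : (conj x * x') ^ 4 = ((‖x‖ : ℝ) : ℂ) ^ 8 := by
    set q := conj x * x' with hq
    have hqq : q = q.re + q.im * Complex.I := (Complex.re_add_im q).symm
    rcases mul_eq_zero.1 h5 with h8 | h8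
    · rw [abs_eq_zero] at h8
      rw [h8] at h4
      have h9 : ((q.im : ℝ) : ℂ) ^ 2 = (((‖x‖ : ℝ) : ℂ) * ((‖x‖ : ℝ) : ℂ)) ^ 2 := by
        have : q.im ^ 2 = (‖x‖ * ‖x‖) ^ 2 := by linarith
        exact_mod_cast this
      rw [hqq, h8]
      have h10 : ((((0 : ℝ) : ℂ)) + (q.im : ℂ) * Complex.I) ^ 4 = ((q.im : ℂ) ^ 2) ^ 2 *
          (Complex.I ^ 2) ^ 2 := by
        push_cast
        ring
      rw [h10, h9, Complex.I_sq]
      ring
    · rw [abs_eq_zero] at h8
      rw [h8] at h4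
      have h9 : ((q.re : ℝ) : ℂ) ^ 2 = (((‖x‖ : ℝ) : ℂ) * ((‖x‖ : ℝ) : ℂ)) ^ 2 := by
        have : q.re ^ 2 = (‖x‖ * ‖x‖) ^ 2 := by linarith
        exact_mod_cast this
      rw [hqq, h8]
      have h10 : ((q.re : ℂ) + (((0 : ℝ) : ℂ)) * Complex.I) ^ 4 = ((q.re : ℂ) ^ 2) ^ 2 := by
        push_cast
        ring
      rw [h10, h9]
      ring
  have hxx : conj x * x = ((‖x‖ : ℝ) : ℂ) ^ 2 := by
    rw [← Complex.normSq_eq_conj_mul_self, Complex.normSq_eq_norm_sq]
    push_cast
    ring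
  have hxx' : conj x' * x' = ((‖x‖ : ℝ) : ℂ) ^ 2 := by
    rw [← Complex.normSq_eq_conj_mul_self, Complex.normSq_eq_norm_sq, heq]
    push_cast
    ring
  have hxc : conj x ^ 4 ≠ 0 := pow_ne_zero _ (by rwa [Ne, map_eq_zero])
  have hxc' : conj x' ^ 4 ≠ 0 := pow_ne_zero _ (by rwa [Ne, map_eq_zero])
  have hx4 : x' ^ 4 = x ^ 4 := by
    apply mul_left_cancel₀ hxc
    rw [← mul_pow, ← mul_pow, h7, hxx]
    ring
  have hx04 : x ^ 4 ≠ 0 := pow_ne_zero _ hx0
  have hcx4 : conj x' ^ 4 = conj x ^ 4 := by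
    rw [← map_pow, ← map_pow, hx4]
  rw [heq] at h1'
  have h8 : conj x ^ 4 * c ^ 4 = conj x ^ 4 * c' ^ 4 := by
    rw [← mul_pow, h1, ← h1', mul_pow, hcx4]
  exact mul_left_cancel₀ hxc h8

/-- three unit numbers with distinct fourth powers -/
noncomputable def c3 : Fin 3 → ℂ := ![1, ⟨3 / 5, 4 / 5⟩, ⟨5 / 13, 12 / 13⟩]

theorem c3_norm (i : Fin 3) : ‖c3 i‖ = 1 := by
  have h : ‖c3 i‖ ^ 2 = 1 := by
    rw [Complex.sq_norm, Complex.normSq_apply]
    fin_cases i <;> norm_num [c3]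
  nlinarith [norm_nonneg (c3 i)]

theorem c3_pow (i : Fin 3) : (c3 i ^ 4).re = (![1, -527 / 625, -239 / 28561] : Fin 3 → ℝ) i := by
  have h : ∀ z : ℂ, (z ^ 4).re = (z.re ^ 2 - z.im ^ 2) ^ 2 - 4 * z.re ^ 2 * z.im ^ 2 := by
    intro z
    have : z ^ 4 = z * z * (z * z) := by ring
    rw [this]
    simp only [Complex.mul_re, Complex.mul_im]
    ring
  rw [h]
  fin_cases i <;> norm_num [c3]

theorem c3_inj {i j : Fin 3} (h : c3 i ^ 4 = c3 j ^ 4) : i = j := by
  have h1 := c3_pow i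
  rw [h, c3_pow] at h1
  fin_cases i <;> fin_cases j <;> first | rfl | (exfalso; norm_num at h1)

theorem choice3 {P Q : Fin 3 → Prop} (hP : ∀ i j, P i → P j → i = j)
    (hQ : ∀ i j, Q i → Q j → i = j) : ∃ i j, i ≠ j ∧ ¬ P i ∧ ¬ Q j := by
  by_contra hcon
  push Not at hcon
  have h01 := hcon 0 1 (by decide)
  have h02 := hcon 0 2 (by decide)
  have h10 := hcon 1 0 (by decide)
  have h12 := hcon 1 2 (by decide)
  have h20 := hcon 2 0 (by decide)
  have h21 := hcon 2 1 (by decide)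
  have p01 : P 0 → P 1 → False := fun a b => by simpa using hP 0 1 a b
  have p02 : P 0 → P 2 → False := fun a b => by simpa using hP 0 2 a b
  have p12 : P 1 → P 2 → False := fun a b => by simpa using hP 1 2 a b
  have q01 : Q 0 → Q 1 → False := fun a b => by simpa using hQ 0 1 a b
  have q02 : Q 0 → Q 2 → False := fun a b => by simpa using hQ 0 2 a b
  have q12 : Q 1 → Q 2 → False := fun a b => by simpa using hQ 1 2 a b
  tauto

theorem RotBody.four {K : Set (ℂ × ℝ)} {ω : ℂ} (h : RotBody K ω) (hre : 0 ≤ ω.re) :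
    ∃ T : Finset (ℂ × ℝ), T.card ≤ 8 ∧ K ⊆ ⋃ t ∈ T, (fun x => t + x) '' interior K := by
  obtain ⟨bot, top, hlt, hb, ht, hle, hin⟩ := h.ends
  have he : Ends K bot top := ⟨hlt, hb, ht, hle, hin⟩
  by_cases hthin : ∀ x, (x, bot) ∈ K → x = 0
  · exact four_thin_bot h hre he hthin
  by_cases hthin' : ∀ x, (x, top) ∈ K → x = 0
  · exact four_thin_top h hre he hthin'
  push Not at hthin hthin'
  obtain ⟨xb, hxb, hxb0⟩ := hthin
  obtain ⟨xt, hxt, hxt0⟩ := hthin'
  have him := h.im_ne hre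
  have hri := h.re_im
  have hfb := h.fat him hxb hxb0
  have hft := h.fat him hxt hxt0
  have hb0 : 0 < |ω.im| := abs_pos.2 him
  have hsq : |ω.im| ^ 2 = 1 - ω.re ^ 2 := by
    rw [sq_abs]
    linarith
  have hzero : ∀ z x, (x, z) ∈ K → (0 : ℂ) ∈ interior (sec K z) := by
    intro z x hx
    obtain ⟨h1, h2⟩ := hle _ hx
    rcases h1.eq_or_lt with h1 | h1
    · simp only at h1
      rw [← h1]
      exact hfb
    · rcases h2.eq_or_lt with h2 | h2
      · simp only at h2
        rw [h2]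
        exact hft
      · exact sec_of_int (he.inner z h1 h2)
  rcases hre.lt_or_eq with hpos | hzer
  · -- `0 < ω.re`
    have hPI : ∀ z x, (x, z) ∈ K → ∃ i, PI (sec K z) x (rot4 i) := by
      intro z x hx
      by_cases hx0 : x = 0
      · subst hx0
        exact ⟨0, PI_zero (hzero z 0 hx) _⟩
      · obtain ⟨k, hk⟩ := sqr (conj x)
        refine ⟨k, h.PI_of_angle him hx hx0 ?_⟩
        set p := conj x * rot4 k with hp
        have hp0 : p ≠ 0 := by
          rw [hp, ← norm_ne_zero_iff, norm_mul, rot4_norm, mul_one, Complex.norm_conj]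
          exact norm_ne_zero_iff.2 hx0
        have hre0 : 0 < p.re := by
          rcases (show 0 ≤ p.re from le_trans (abs_nonneg _) hk).lt_or_eq with h1 | h1
          · exact h1
          · exfalso
            apply hp0
            have h2 : |p.im| = 0 := by
              rw [← h1] at hk
              exact le_antisymm hk (abs_nonneg _)
            exact Complex.ext h1.symm (abs_eq_zero.1 h2)
        have h7 : ω.re < 1 := by nlinarith
        have h5 : (1 - ω.re) < |ω.im| := by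
          nlinarith
        have h8 : 0 ≤ |p.im| := abs_nonneg _
        nlinarith
    obtain ⟨T, hT, hcov⟩ := cover_general (ιA := Fin 4) (ιB := Fin 4) (ιV := Empty) h.conv h.comp
      he rot4 rot4 (fun i => i.elim) (fun x hx => Or.inl (hPI _ _ hx))
      (fun x hx => Or.inl (hPI _ _ hx)) (fun z x _ _ hx => Or.inl (hPI _ _ hx))
    exact ⟨T, by simpa using hT, hcov⟩
  · -- `ω = ± i`
    have hI : ∀ z, ∀ y ∈ sec K z, Complex.I * y ∈ sec K z := by
      intro z y hy
      have h1 : ω.im ^ 2 = 1 := by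
        rw [← hzer] at hri
        linarith
      have h2 : ω.im = 1 ∨ ω.im = -1 := by
        rcases mul_eq_zero.1 (show (ω.im - 1) * (ω.im + 1) = 0 by linarith) with h3 | h3
        · left; linarith
        · right; linarith
      rcases h2 with h2 | h2
      · have h3 : ω = Complex.I := Complex.ext (by simp [← hzer]) (by simp [h2])
        rw [← h3]
        exact h.inv _ _ hy
      · have h3 : conj ω = Complex.I := Complex.ext (by simp [← hzer]) (by simp [h2])
        rw [← h3]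
        exact h.inv' _ _ hy
    -- bad classes
    have hclass : ∀ z, (0 : ℂ) ∈ interior (sec K z) → ∀ i j,
        (∃ x ∈ sec K z, ∀ k, ¬ PI (sec K z) x (c3 i * rot4 k)) →
        (∃ x ∈ sec K z, ∀ k, ¬ PI (sec K z) x (c3 j * rot4 k)) → i = j := by
      rintro z h0 i j ⟨x, hx, hbad⟩ ⟨y, hy, hbad'⟩
      have hx0 : x ≠ 0 := by
        rintro rfl
        exact hbad 0 (PI_zero h0 _)
      have hy0 : y ≠ 0 := by
        rintro rfl
        exact hbad' 0 (PI_zero h0 _)
      exact c3_inj (square_unique (sec_convex h.conv z) h0 (hI z) hx hx0 (c3_norm i) hbad hy hy0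
        (c3_norm j) hbad')
    obtain ⟨i, j, hij, hP, hQ⟩ := choice3 (hclass top hft) (hclass bot hfb)
    push Not at hP hQ
    obtain ⟨T, hT, hcov⟩ := cover_general (ιA := Fin 4) (ιB := Fin 4) (ιV := Empty) h.conv h.comp
      he (fun k => c3 i * rot4 k) (fun k => c3 j * rot4 k) (fun i => i.elim)
      (fun x hx => Or.inl (hP x hx)) (fun x hx => Or.inl (hQ x hx)) (by
        intro z x h1 h2 hx
        by_contra hcon
        push Not at hcon
        obtain ⟨h3, h4, -⟩ := hcon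
        have h0 := sec_of_int (he.inner z h1 h2)
        have hx0 : x ≠ 0 := by
          rintro rfl
          exact h3 0 (PI_zero h0 _)
        exact hij (c3_inj (square_unique (sec_convex h.conv z) h0 (hI z) hx hx0 (c3_norm i) h3 hx hx0
          (c3_norm j) h4)))
    exact ⟨T, by simpa using hT, hcov⟩

end Pool.Agent.W867.Cov3
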