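import Pool.Agent.W867.Cov3.Tri4

/-!
Bodies in `ℂ × ℝ` invariant under the rotation by 120 degrees: general position.
-/

set_option autoImplicit false

open Set Topology Filter
open scoped ComplexConjugate

namespace Pool.Agent.W867.Cov3

/-- covered by at most 8 translates of the interior -/
def Cov (K : Set (ℂ × ℝ)) : Prop :=
  ∃ T : Finset (ℂ × ℝ), T.card ≤ 8 ∧ K ⊆ ⋃ t ∈ T, (fun x => t + x) '' interior K

section

variable {K : Set (ℂ × ℝ)} {bot top : ℝ}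

theorem w3_im_ne : w3.im ≠ 0 := by
  have := sqrt3_pos
  rw [w3_im]
  positivity

theorem RotBody.inv3 (h : RotBody K w3) (z : ℝ) : Inv3 (sec K z) := by
  intro y hy k
  fin_cases k
  · simpa [rot3] using hy
  · exact h.inv _ _ hy
  · exact h.inv' _ _ hy

theorem ne_zero_of_not_int (he : Ends K bot top) {x : ℂ} (hx : x ∉ interior (Prod.fst '' K)) :
    x ≠ 0 := by
  rintro rfl
  exact hx (zero_mem_M he)

theorem mid_triple (h : RotBody K w3) {z1 z2 z3 : ℝ} (h12 : z1 < z2) (h23 : z2 < z3)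
    {x1 x2 x3 : ℂ} (hx1 : (x1, z1) ∈ K) (hx2 : (x2, z2) ∈ K) (hx3 : (x3, z3) ∈ K) (hx20 : x2 ≠ 0)
    (hT : ∀ y ∈ sec K z2, InT x2 y) (hm1 : x1 ∉ interior (Prod.fst '' K))
    (hm3 : x3 ∉ interior (Prod.fst '' K)) : InT x2 x1 ∧ InT x2 x3 := by
  -- the functions
  obtain ⟨f, hf⟩ : ∃ f : Fin 3 → ℂ → ℝ, f = fun k y => -(conj (rot3 k * x2) * y).re := ⟨_, rfl⟩
  have hfk : ∀ k y, -(conj (rot3 k * x2) * y).re = f k y := by
    intro k y
    rw [hf]
  have hout : ∀ x, x ∉ interior (Prod.fst '' K) → ∃ k, (∀ i, f i x ≤ f k x) ∧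
      ‖x2‖ ^ 2 / 2 ≤ f k x := by
    intro x hx
    obtain ⟨k, hk⟩ := Finite.exists_max fun i => f i x
    refine ⟨k, hk, ?_⟩
    by_contra hcon
    push Not at hcon
    apply hx
    refine mem_interior.2 ⟨{y | ∀ k, f k y < ‖x2‖ ^ 2 / 2}, ?_, ?_, ?_⟩
    · intro y hy
      refine ⟨(y, z2), ?_, rfl⟩
      refine inT_mem (S := sec K z2) (sec_convex h.conv z2) (h.inv3 z2) hx2 hx20 fun i => ?_
      rw [hfk]
      exact (hy i).le
    · simp only [Set.ofPred_forall]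
      refine isOpen_iInter_of_finite fun i => isOpen_lt ?_ continuous_const
      rw [hf]
      fun_prop
    · intro i
      exact (hk i).trans_lt hcon
  obtain ⟨k1, hk1, hk1'⟩ := hout x1 hm1
  obtain ⟨k3, hk3, hk3'⟩ := hout x3 hm3
  -- rotate `x3`
  have hx3' : (rot3 (k1 - k3) * x3, z3) ∈ K := h.inv3 z3 x3 hx3 _
  have hrot : f k1 (rot3 (k1 - k3) * x3) = f k3 x3 := by
    rw [← hfk, ← hfk]
    congr 2
    rw [map_mul, map_mul, sub_eq_add_neg, rot3_mul, ← rot3_conj k3]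
    linear_combination (conj x2 * conj (rot3 k3) * x3) * conj_mul_rot3 k1
  have hd : 0 < z3 - z1 := by linarith
  have hlam : (((z3 - z2) / (z3 - z1)) • x1 + ((z2 - z1) / (z3 - z1)) • (rot3 (k1 - k3) * x3),
      z2) ∈ K := by
    have h5 := h.conv hx1 hx3' (a := (z3 - z2) / (z3 - z1)) (b := (z2 - z1) / (z3 - z1))
      (div_nonneg (by linarith) hd.le) (div_nonneg (by linarith) hd.le)
      (by rw [← add_div, div_eq_one_iff_eq hd.ne']; ring)
    convert h5 using 1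
    refine Prod.ext rfl ?_
    simp only [Prod.snd_add, Prod.smul_snd, smul_eq_mul]
    rw [div_mul_eq_mul_div, div_mul_eq_mul_div, ← add_div, eq_div_iff hd.ne']
    ring
  have h6 := hT _ hlam k1
  rw [hfk] at h6
  have hlin : f k1 (((z3 - z2) / (z3 - z1)) • x1 + ((z2 - z1) / (z3 - z1)) •
      (rot3 (k1 - k3) * x3)) = (z3 - z2) / (z3 - z1) * f k1 x1 + (z2 - z1) / (z3 - z1) *
        f k1 (rot3 (k1 - k3) * x3) := by
    simp only [← hfk]
    rw [mul_add, Complex.add_re, mul_smul_comm, mul_smul_comm, Complex.smul_re, Complex.smul_re]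
    simp only [smul_eq_mul]
    ring
  rw [hlin, hrot] at h6
  have ha : 0 < (z3 - z2) / (z3 - z1) := div_pos (by linarith) hd
  have hb : 0 < (z2 - z1) / (z3 - z1) := div_pos (by linarith) hd
  have hab : (z3 - z2) / (z3 - z1) + (z2 - z1) / (z3 - z1) = 1 := by
    rw [← add_div, div_eq_one_iff_eq hd.ne']
    ring
  obtain ⟨a, hadef⟩ : ∃ a, a = (z3 - z2) / (z3 - z1) := ⟨_, rfl⟩
  obtain ⟨b, hbdef⟩ : ∃ b, b = (z2 - z1) / (z3 - z1) := ⟨_, rfl⟩
  rw [← hadef, ← hbdef] at h6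
  rw [← hadef, ← hbdef] at hab
  rw [← hadef] at ha
  rw [← hbdef] at hb
  have hsum : a * (‖x2‖ ^ 2 / 2) + b * (‖x2‖ ^ 2 / 2) = ‖x2‖ ^ 2 / 2 := by
    rw [← add_mul, hab, one_mul]
  have h7 := mul_le_mul_of_nonneg_left hk1' ha.le
  have h8 := mul_le_mul_of_nonneg_left hk3' hb.le
  have h9 : f k1 x1 ≤ ‖x2‖ ^ 2 / 2 := by
    refine le_of_mul_le_mul_left (a := a) ?_ ha
    linarith
  have h10 : f k3 x3 ≤ ‖x2‖ ^ 2 / 2 := by
    refine le_of_mul_le_mul_left (a := b) ?_ hb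
    linarith
  constructor
  · intro i
    rw [hfk]
    exact (hk1 i).trans h9
  · intro i
    rw [hfk]
    exact (hk3 i).trans h10

theorem class_eq {x y c d : ℂ} (hx0 : x ≠ 0) (hy0 : y ≠ 0) (h1 : InT x y) (h2 : InT y x)
    (hc : (conj x * c) ^ 6 = -((‖x‖ : ℂ) ^ 6)) (hd : (conj y * d) ^ 6 = -((‖y‖ : ℂ) ^ 6)) :
    c ^ 6 = d ^ 6 := by
  obtain ⟨h3, h4⟩ := inT_both hx0 hy0 h1 h2
  have h5 : conj x ^ 6 = conj y ^ 6 := by
    rw [← map_pow, ← map_pow, show (6 : ℕ) = 3 * 2 from rfl, pow_mul, pow_mul, h4]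
  have hxc : conj x ^ 6 ≠ 0 := pow_ne_zero _ (by rwa [Ne, map_eq_zero])
  apply mul_left_cancel₀ hxc
  rw [← mul_pow, hc, h3, ← hd, mul_pow, h5]

/-- the direction `c` is bad for an inner section -/
def MidBad (K : Set (ℂ × ℝ)) (bot top : ℝ) (c : ℂ) : Prop :=
  ∃ x z, bot < z ∧ z < top ∧ (x, z) ∈ K ∧ x ∉ interior (Prod.fst '' K) ∧
    (∀ y ∈ sec K z, InT x y) ∧ (conj x * c) ^ 6 = -((‖x‖ : ℂ) ^ 6)

theorem four_bad (h : RotBody K w3) (he : Ends K bot top) (c : Fin 4 → ℂ)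
    (hb : ∀ i, MidBad K bot top (c i)) : ∃ i j, i ≠ j ∧ c i ^ 6 = c j ^ 6 := by
  by_contra hcon
  push Not at hcon
  choose x z h1 h2 h3 h4 h5 h6 using hb
  have hx0 : ∀ i, x i ≠ 0 := fun i => ne_zero_of_not_int he (h4 i)
  have hinj : ∀ i j, z i = z j → i = j := by
    intro i j hij
    by_contra hne
    refine hcon i j hne (class_eq (hx0 i) (hx0 j) (h5 i _ ?_) (h5 j _ ?_) (h6 i) (h6 j))
    · change (x j, z i) ∈ K
      rw [hij]
      exact h3 j
    · change (x i, z j) ∈ K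
      rw [← hij]
      exact h3 i
  have hmono := Tuple.monotone_sort z
  have hstrict : ∀ a b : Fin 4, a < b → z (Tuple.sort z a) < z (Tuple.sort z b) := by
    intro a b hab
    refine lt_of_le_of_ne (hmono hab.le) ?_
    intro heq
    have := (Tuple.sort z).injective (hinj _ _ heq)
    exact hab.ne this
  have t1 := mid_triple h (hstrict 0 1 (by decide)) (hstrict 1 2 (by decide)) (h3 _) (h3 _) (h3 _)
    (hx0 _) (h5 _) (h4 _) (h4 _)
  have t2 := mid_triple h (hstrict 1 2 (by decide)) (hstrict 2 3 (by decide)) (h3 _) (h3 _) (h3 _)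
    (hx0 _) (h5 _) (h4 _) (h4 _)
  refine hcon (Tuple.sort z 1) (Tuple.sort z 2) ?_ (class_eq (hx0 _) (hx0 _) t1.2 t2.1 (h6 _)
    (h6 _))
  intro heq
  exact absurd ((Tuple.sort z).injective heq) (by decide)

theorem gen (h : RotBody K w3) (he : Ends K bot top) (C : ℝ → ℂ) (hC : ∀ t, ‖C t‖ = 1)
    (hinj : ∀ s t, 0 < s → s < 1 → 0 < t → t < 1 → C s ^ 6 = C t ^ 6 → s = t) (ct cb : ℂ)
    (htop : ∀ᶠ t in 𝓝[>] (0 : ℝ), C t ^ 6 ≠ ct → ∀ x ∈ sec K top,
      x ∉ interior (Prod.fst '' K) → ∃ k, PI (sec K top) x (rot3 k * C t))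
    (hbot : ∀ᶠ t in 𝓝[>] (0 : ℝ), C t ^ 6 ≠ cb → ∀ x ∈ sec K bot,
      x ∉ interior (Prod.fst '' K) → ∃ k, PI (sec K bot) x (-(rot3 k * C t))) : Cov K := by
  have hone : ∀ᶠ t in 𝓝[>] (0 : ℝ), t < 1 :=
    (continuous_id.continuousAt.eventually_lt continuousAt_const (by norm_num)).filter_mono
      nhdsWithin_le_nhds
  have hall := (htop.and hbot).and hone
  rw [eventually_nhdsWithin_iff, Metric.eventually_nhds_iff] at hall
  obtain ⟨δ, hδ, hall⟩ := hall
  have hall' : ∀ t, 0 < t → t < δ → (C t ^ 6 ≠ ct → ∀ x ∈ sec K top,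
      x ∉ interior (Prod.fst '' K) → ∃ k, PI (sec K top) x (rot3 k * C t)) ∧
      (C t ^ 6 ≠ cb → ∀ x ∈ sec K bot,
      x ∉ interior (Prod.fst '' K) → ∃ k, PI (sec K bot) x (-(rot3 k * C t))) ∧ t < 1 := by
    intro t ht0 ht1
    obtain ⟨⟨h1, h2⟩, h3⟩ := hall (y := t) (by rw [Real.dist_eq, sub_zero, abs_of_pos ht0]; exact ht1)
      ht0
    exact ⟨h1, h2, h3⟩
  obtain ⟨τ, hτ⟩ : ∃ τ : ℕ → ℝ, τ = fun n : ℕ => δ / ((n : ℝ) + 2) := ⟨_, rfl⟩
  have hτ0 : ∀ n, 0 < τ n := by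
    intro n
    rw [hτ]
    positivity
  have hτ1 : ∀ n, τ n < δ := by
    intro n
    rw [hτ]
    simp only
    rw [div_lt_iff₀ (by positivity)]
    have : (0 : ℝ) ≤ n := Nat.cast_nonneg n
    nlinarith
  have hτi : ∀ m n, τ m = τ n → m = n := by
    intro m n hmn
    rw [hτ] at hmn
    simp only at hmn
    rw [div_eq_div_iff (by positivity) (by positivity)] at hmn
    have h5 := mul_left_cancel₀ hδ.ne' hmn
    have h6 : (n : ℝ) = m := by linarith
    exact_mod_cast h6.symm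
  have hD : ∀ m n, C (τ m) ^ 6 = C (τ n) ^ 6 → m = n := fun m n hmn =>
    hτi _ _ (hinj _ _ (hτ0 m) (hall' _ (hτ0 m) (hτ1 m)).2.2 (hτ0 n)
      (hall' _ (hτ0 n) (hτ1 n)).2.2 hmn)
  have f1 : {n : ℕ | C (τ n) ^ 6 = ct}.Finite :=
    Set.Subsingleton.finite fun m hm n hn => hD m n (hm.trans hn.symm)
  have f2 : {n : ℕ | C (τ n) ^ 6 = cb}.Finite :=
    Set.Subsingleton.finite fun m hm n hn => hD m n (hm.trans hn.symm)
  have f3 : {n : ℕ | MidBad K bot top (C (τ n))}.Finite := by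
    by_contra hinf
    have hinf' : {n : ℕ | MidBad K bot top (C (τ n))}.Infinite := hinf
    let e := hinf'.natEmbedding
    obtain ⟨i, j, hij, hc⟩ := four_bad h he (fun i : Fin 4 => C (τ (e i)))
      (fun i => (e i).2)
    apply hij
    have h7 := hD _ _ hc
    have h8 : e i = e j := Subtype.ext h7
    have h9 := e.injective h8
    exact Fin.ext h9
  obtain ⟨n, hn⟩ := ((f1.union f2).union f3).infinite_compl.nonempty
  simp only [mem_compl_iff, mem_union, mem_ofPred_eq, not_or] at hn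
  obtain ⟨⟨hn1, hn2⟩, hn3⟩ := hn
  obtain ⟨g1, g2, -⟩ := hall' _ (hτ0 n) (hτ1 n)
  have g1 := g1 hn1
  have g2 := g2 hn2
  set c := C (τ n) with hc
  obtain ⟨T, hT, hcov⟩ := cover_general (ιA := Fin 3) (ιB := Fin 3) (ιV := Fin 2) h.conv h.comp he
    (fun k => rot3 k * c) (fun k => -(rot3 k * c)) sg (by
      intro x hx
      by_cases hM : x ∈ interior (Prod.fst '' K)
      · exact Or.inr (ill_end_top h he hM)
      · exact Or.inl (g1 x hx hM)) (by
      intro x hx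
      by_cases hM : x ∈ interior (Prod.fst '' K)
      · exact Or.inr (ill_end_bot h he hM)
      · exact Or.inl (g2 x hx hM)) (by
      intro z x h1 h2 hx
      by_cases hM : x ∈ interior (Prod.fst '' K)
      · exact Or.inr (Or.inr (ill_inner h hM))
      · by_contra hcon
        push Not at hcon
        obtain ⟨e1, e2, -⟩ := hcon
        apply hn3
        have hx0 := ne_zero_of_not_int he hM
        obtain ⟨e3, e4⟩ := hex_fail (sec_convex h.conv z) (sec_of_int (he.inner z h1 h2))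
          (h.inv3 z) hx hx0 (hC _) e1 e2
        exact ⟨x, z, h1, h2, hx, hM, e3, e4⟩)
  exact ⟨T, by simpa using hT, hcov⟩

end

end Pool.Agent.W867.Cov3
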