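import Pool.Agent.W867.Cov3.Hex

/-!
General combination lemma; the case of rotations with `0 ≤ ω.re`.
-/

set_option autoImplicit false

open Set Topology Filter
open scoped ComplexConjugate

namespace Pool.Agent.W867.Cov3

/-- bottom, top and axis of a body -/
structure Ends (K : Set (ℂ × ℝ)) (bot top : ℝ) : Prop where
  lt : bot < top
  bot_mem : ((0 : ℂ), bot) ∈ K
  top_mem : ((0 : ℂ), top) ∈ K
  le : ∀ p ∈ K, bot ≤ p.2 ∧ p.2 ≤ top
  inner : ∀ z, bot < z → z < top → ((0 : ℂ), z) ∈ interior K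

theorem cover_general {ιA ιB ιV : Type} [Fintype ιA] [Fintype ιB] [Fintype ιV]
    {K : Set (ℂ × ℝ)} (hK : Convex ℝ K) (hc : IsCompact K) {bot top : ℝ} (he : Ends K bot top)
    (uA : ιA → ℂ) (uB : ιB → ℂ) (vs : ιV → ℝ)
    (Htop : ∀ x, (x, top) ∈ K → (∃ i, PI (sec K top) x (uA i)) ∨
      ∃ j, Ill K ((0 : ℂ), vs j) (x, top))
    (Hbot : ∀ x, (x, bot) ∈ K → (∃ i, PI (sec K bot) x (uB i)) ∨
      ∃ j, Ill K ((0 : ℂ), vs j) (x, bot))
    (Hin : ∀ z x, bot < z → z < top → (x, z) ∈ K → (∃ i, PI (sec K z) x (uA i)) ∨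
      (∃ i, PI (sec K z) x (uB i)) ∨ ∃ j, Ill K ((0 : ℂ), vs j) (x, z)) :
    ∃ T : Finset (ℂ × ℝ), T.card ≤ Fintype.card ιA + Fintype.card ιB + Fintype.card ιV ∧
      K ⊆ ⋃ t ∈ T, (fun x => t + x) '' interior K := by
  classical
  let v : (ιA ⊕ ιB) ⊕ ιV → ℝ → ℂ × ℝ := fun i t =>
    Sum.elim (Sum.elim (fun a => ((-uA a, -1 * t) : ℂ × ℝ)) (fun b => (-uB b, -(-1) * t)))
      (fun j => ((0 : ℂ), vs j)) i
  have hmid : ((0 : ℂ), (bot + top) / 2) ∈ interior K :=
    he.inner _ (by linarith [he.lt]) (by linarith [he.lt])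
  have hvert : ∀ (j : ιV) (q : ℂ × ℝ), Ill K ((0 : ℂ), vs j) q → GoodAt K v q := by
    intro j q hq
    exact GoodAt.of_ill (i := Sum.inr j) (by simp only [v, Sum.elim_inr]; exact continuousAt_const)
      hq
  have hA : ∀ (i : ιA) (q : ℂ × ℝ), Ill K ((-uA i, 0) : ℂ × ℝ) q → GoodAt K v q := by
    intro i q hq
    refine GoodAt.of_ill (i := Sum.inl (Sum.inl i)) ?_ ?_
    · simp only [v, Sum.elim_inl]
      fun_prop
    · simpa [v] using hq
  have hB : ∀ (i : ιB) (q : ℂ × ℝ), Ill K ((-uB i, 0) : ℂ × ℝ) q → GoodAt K v q := by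
    intro i q hq
    refine GoodAt.of_ill (i := Sum.inl (Sum.inr i)) ?_ ?_
    · simp only [v, Sum.elim_inl, Sum.elim_inr]
      fun_prop
    · simpa [v] using hq
  obtain ⟨T, hT, hcov⟩ := cover_of_good hK hc v (by
    rintro ⟨x, z⟩ hq
    obtain ⟨h1, h2⟩ := he.le _ hq
    simp only at h1 h2
    rcases h1.eq_or_lt with h1 | h1
    · -- bottom
      subst h1
      rcases Hbot x hq with ⟨i, l, hl, hi⟩ | ⟨j, hj⟩
      · exact GoodAt.of_end (i := Sum.inl (Sum.inr i)) hK (σ := -1) (e := bot)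
          (fun p hp => by linarith [(he.le p hp).1]) hmid (by linarith [he.lt])
          (u := uB i) (fun t => by simp [v]) hl hi
      · exact hvert j _ hj
    · rcases h2.eq_or_lt with h2 | h2
      · -- top
        subst h2
        rcases Htop x hq with ⟨i, l, hl, hi⟩ | ⟨j, hj⟩
        · exact GoodAt.of_end (i := Sum.inl (Sum.inl i)) hK (σ := 1) (e := z)
            (fun p hp => by linarith [(he.le p hp).2]) hmid (by linarith [he.lt])
            (u := uA i) (fun t => by simp [v]) hl hi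
        · exact hvert j _ hj
      · rcases Hin z x h1 h2 hq with ⟨i, hi⟩ | ⟨i, hi⟩ | ⟨j, hj⟩
        · exact hA i _ (ill_of_PI hK (he.inner z h1 h2) hi)
        · exact hB i _ (ill_of_PI hK (he.inner z h1 h2) hi)
        · exact hvert j _ hj)
  refine ⟨T, ?_, hcov⟩
  simpa [Fintype.card_sum] using hT

/-- at the origin every direction is good -/
theorem PI_zero {S : Set ℂ} (h0 : (0 : ℂ) ∈ interior S) (u : ℂ) : PI S 0 u := by
  have hcont : ContinuousAt (fun l : ℝ => (0 : ℂ) - l • u) 0 := by fun_prop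
  have h1 := hcont.eventually_mem (isOpen_interior.mem_nhds (by simpa using h0))
  obtain ⟨ε, hε, h2⟩ := Metric.eventually_nhds_iff.1 h1
  refine ⟨ε / 2, by linarith, h2 ?_⟩
  rw [Real.dist_eq, sub_zero, abs_of_pos (by linarith)]
  linarith

section

variable {K : Set (ℂ × ℝ)} {ω : ℂ} {bot top : ℝ}

theorem RotBody.re_im (h : RotBody K ω) : ω.re ^ 2 + ω.im ^ 2 = 1 := by
  have := Complex.sq_norm ω
  rw [h.norm, Complex.normSq_apply] at this
  nlinarith

theorem RotBody.im_ne (h : RotBody K ω) (hre : 0 ≤ ω.re) : ω.im ≠ 0 := by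
  intro h0
  have h1 := h.re_im
  rw [h0] at h1
  have h2 : (ω.re - 1) * (ω.re + 1) = 0 := by nlinarith
  rcases mul_eq_zero.1 h2 with h3 | h3
  · apply h.ne
    apply Complex.ext
    · rw [Complex.one_re]
      linarith
    · rw [Complex.one_im]
      exact h0
  · linarith

theorem RotBody.fat (h : RotBody K ω) (him : ω.im ≠ 0) {x : ℂ} {z : ℝ} (hx : (x, z) ∈ K)
    (hx0 : x ≠ 0) : (0 : ℂ) ∈ interior (sec K z) :=
  fat_int (sec_convex h.conv z) h.norm him hx0 fun k => h.inv_pow k hx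

theorem RotBody.PI_of_angle (h : RotBody K ω) (him : ω.im ≠ 0) {x : ℂ} {z : ℝ} (hx : (x, z) ∈ K)
    (hx0 : x ≠ 0) {u : ℂ}
    (hu : |(conj x * u).im| * (1 - ω.re) < |ω.im| * (conj x * u).re) : PI (sec K z) x u :=
  Cov3.PI_of_angle (sec_convex h.conv z) (h.fat him hx hx0) h.norm him hx (h.inv _ _ hx)
    (h.inv' _ _ hx) hx0 hu

theorem zero_mem_M (he : Ends K bot top) : (0 : ℂ) ∈ interior (Prod.fst '' K) := by
  have hmid : ((0 : ℂ), (bot + top) / 2) ∈ interior K :=
    he.inner _ (by linarith [he.lt]) (by linarith [he.lt])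
  have h1 : IsOpen (Prod.fst '' interior K) := isOpenMap_fst _ isOpen_interior
  have h2 : Prod.fst '' interior K ⊆ Prod.fst '' K := image_mono interior_subset
  exact interior_mono h2 (by rw [h1.interior_eq]; exact ⟨_, hmid, rfl⟩)

/-- the vertical signs -/
theorem ill_end_top (h : RotBody K ω) (he : Ends K bot top) {x : ℂ}
    (hx : x ∈ interior (Prod.fst '' K)) : ∃ j : Fin 2, Ill K ((0 : ℂ), sg j) (x, top) := by
  refine ⟨1, ?_⟩
  have := ill_end h.conv h.int (σ := 1) (e := top) (by norm_num)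
    (fun p hp => by linarith [(he.le p hp).2]) hx
  simpa [sg] using this

theorem ill_end_bot (h : RotBody K ω) (he : Ends K bot top) {x : ℂ}
    (hx : x ∈ interior (Prod.fst '' K)) : ∃ j : Fin 2, Ill K ((0 : ℂ), sg j) (x, bot) := by
  refine ⟨0, ?_⟩
  have := ill_end h.conv h.int (σ := -1) (e := bot) (by norm_num)
    (fun p hp => by linarith [(he.le p hp).1]) hx
  simpa [sg] using this

theorem ill_inner (h : RotBody K ω) {x : ℂ} {z : ℝ}
    (hx : x ∈ interior (Prod.fst '' K)) : ∃ j : Fin 2, Ill K ((0 : ℂ), sg j) (x, z) := by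
  rcases ill_vertical h.conv h.int (z := z) hx with h1 | h1
  · exact ⟨1, by simpa [sg] using h1⟩
  · exact ⟨0, by simpa [sg] using h1⟩

/-- the hexagon for `0 ≤ ω.re` -/
theorem RotBody.PI_hex (h : RotBody K ω) (hre : 0 ≤ ω.re) {x : ℂ} {z : ℝ} (hx : (x, z) ∈ K)
    (hx0 : x ≠ 0) : ∃ i : Fin 2 × Fin 3, PI (sec K z) x ((sg i.1 : ℂ) * rot3 i.2) := by
  obtain ⟨s, k, hsk⟩ := hex (conj x)
  refine ⟨(s, k), h.PI_of_angle (h.im_ne hre) hx hx0 ?_⟩
  simp only
  set p := conj x * ((sg s : ℂ) * rot3 k) with hp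
  have hp0 : p ≠ 0 := by
    rw [hp, ← norm_ne_zero_iff, norm_mul, norm_sg_rot3, mul_one, Complex.norm_conj]
    exact norm_ne_zero_iff.2 hx0
  have h3 := sqrt3_sq
  have h0 := sqrt3_pos
  have hre0 : 0 < p.re := by
    rcases (show 0 ≤ p.re from le_trans (by positivity) hsk).lt_or_eq with h1 | h1
    · exact h1
    · exfalso
      apply hp0
      have h2 : |p.im| = 0 := by
        rw [← h1] at hsk
        have := abs_nonneg p.im
        nlinarith
      exact Complex.ext h1.symm (abs_eq_zero.1 h2)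
  have hb : 0 < |ω.im| := abs_pos.2 (h.im_ne hre)
  have hri := h.re_im
  have h5 : (1 - ω.re) ≤ |ω.im| := by
    have h6 : |ω.im| ^ 2 = 1 - ω.re ^ 2 := by
      rw [sq_abs]
      linarith
    have h7 : ω.re ≤ 1 := by nlinarith [sq_nonneg ω.im]
    nlinarith
  have h6 : |p.im| < p.re := by
    have h7 : 1 < √3 := by
      rw [show (1 : ℝ) = √1 from Real.sqrt_one.symm]
      exact Real.sqrt_lt_sqrt (by norm_num) (by norm_num)
    rcases (abs_nonneg p.im).lt_or_eq with h8 | h8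
    · nlinarith
    · rw [← h8]
      exact hre0
  have h7 : 0 ≤ |p.im| := abs_nonneg _
  nlinarith

theorem four_thin_bot (h : RotBody K ω) (hre : 0 ≤ ω.re) (he : Ends K bot top)
    (hthin : ∀ x, (x, bot) ∈ K → x = 0) :
    ∃ T : Finset (ℂ × ℝ), T.card ≤ 8 ∧ K ⊆ ⋃ t ∈ T, (fun x => t + x) '' interior K := by
  refine cover_general (ιA := Fin 2 × Fin 3) (ιB := Empty) (ιV := Fin 2) h.conv h.comp he
    (fun i => (sg i.1 : ℂ) * rot3 i.2) (fun i => i.elim) sg ?_ ?_ ?_
  · intro x hx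
    by_cases hx0 : x = 0
    · subst hx0
      exact Or.inr (ill_end_top h he (zero_mem_M he))
    · exact Or.inl (h.PI_hex hre hx hx0)
  · intro x hx
    rw [hthin x hx]
    exact Or.inr (ill_end_bot h he (zero_mem_M he))
  · intro z x h1 h2 hx
    by_cases hx0 : x = 0
    · subst hx0
      exact Or.inl ⟨(0, 0), PI_zero (sec_of_int (he.inner z h1 h2)) _⟩
    · exact Or.inl (h.PI_hex hre hx hx0)

theorem four_thin_top (h : RotBody K ω) (hre : 0 ≤ ω.re) (he : Ends K bot top)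
    (hthin : ∀ x, (x, top) ∈ K → x = 0) :
    ∃ T : Finset (ℂ × ℝ), T.card ≤ 8 ∧ K ⊆ ⋃ t ∈ T, (fun x => t + x) '' interior K := by
  refine cover_general (ιA := Empty) (ιB := Fin 2 × Fin 3) (ιV := Fin 2) h.conv h.comp he
    (fun i => i.elim) (fun i => (sg i.1 : ℂ) * rot3 i.2) sg ?_ ?_ ?_
  · intro x hx
    rw [hthin x hx]
    exact Or.inr (ill_end_top h he (zero_mem_M he))
  · intro x hx
    by_cases hx0 : x = 0
    · subst hx0
      exact Or.inr (ill_end_bot h he (zero_mem_M he))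
    · exact Or.inl (h.PI_hex hre hx hx0)
  · intro z x h1 h2 hx
    by_cases hx0 : x = 0
    · subst hx0
      exact Or.inr (Or.inl ⟨(0, 0), PI_zero (sec_of_int (he.inner z h1 h2)) _⟩)
    · exact Or.inr (Or.inl (h.PI_hex hre hx hx0))

end

end Pool.Agent.W867.Cov3
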