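import Pool.Agent.W867.Cov3.Rot

/-!
The hexagon of directions and the square of directions; fat ends.
-/

set_option autoImplicit false

open Set Topology Filter
open scoped ComplexConjugate

namespace Pool.Agent.W867.Cov3

/-- primitive third root of unity -/
noncomputable def w3 : ℂ := ⟨-1 / 2, √3 / 2⟩

theorem w3_re : w3.re = -1 / 2 := rfl
theorem w3_im : w3.im = √3 / 2 := rfl

theorem sqrt3_sq : √3 * √3 = 3 := Real.mul_self_sqrt (by norm_num)

theorem sqrt3_pos : 0 < √3 := Real.sqrt_pos.2 (by norm_num)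

theorem w3_norm : ‖w3‖ = 1 := by
  have h : ‖w3‖ ^ 2 = 1 := by
    rw [Complex.sq_norm, Complex.normSq_apply, w3_re, w3_im]
    nlinarith [sqrt3_sq]
  nlinarith [norm_nonneg w3]

theorem w3_sum : 1 + w3 + conj w3 = 0 := by
  apply Complex.ext
  · simp [w3_re]
    norm_num
  · simp

/-- the three rotations -/
noncomputable def rot3 : Fin 3 → ℂ := ![1, w3, conj w3]

theorem rot3_norm (k : Fin 3) : ‖rot3 k‖ = 1 := by
  fin_cases k
  · simp [rot3]
  · simp [rot3, w3_norm]
  · simp [rot3, w3_norm]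

/-- the signs -/
def sg : Fin 2 → ℝ := ![1, -1]

theorem mabs {t y r : ℝ} (_h0 : 0 < t) (h1 : t * y ≤ r) (h2 : -(t * y) ≤ r) : t * |y| ≤ r := by
  rcases abs_cases y with ⟨h, _⟩ | ⟨h, _⟩
  · rw [h]
    exact h1
  · rw [h]
    linarith

theorem hex (w : ℂ) : ∃ (s : Fin 2) (k : Fin 3),
    √3 * |(w * ((sg s : ℂ) * rot3 k)).im| ≤ (w * ((sg s : ℂ) * rot3 k)).re := by
  obtain ⟨a, b⟩ := w
  have h3 := sqrt3_sq
  have h0 := sqrt3_pos
  set t := √3 with ht
  by_cases h1 : t * |b| ≤ |a|
  · by_cases ha : 0 ≤ a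
    · refine ⟨0, 0, ?_⟩
      rw [abs_of_nonneg ha] at h1
      simpa [sg, rot3] using h1
    · refine ⟨1, 0, ?_⟩
      push Not at ha
      rw [abs_of_neg ha] at h1
      simpa [sg, rot3] using h1
  · push Not at h1
    rcases lt_trichotomy b 0 with hb | hb | hb
    · rw [abs_of_neg hb] at h1
      by_cases ha : 0 ≤ a
      · refine ⟨1, 2, ?_⟩
        rw [abs_of_nonneg ha] at h1
        refine mabs h0 ?_ ?_
        · simp [sg, rot3, w3_re, w3_im, ← ht]
          nlinarith
        · simp [sg, rot3, w3_re, w3_im, ← ht]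
          nlinarith
      · refine ⟨0, 1, ?_⟩
        push Not at ha
        rw [abs_of_neg ha] at h1
        refine mabs h0 ?_ ?_
        · simp [sg, rot3, w3_re, w3_im, ← ht]
          nlinarith
        · simp [sg, rot3, w3_re, w3_im, ← ht]
          nlinarith
    · subst hb
      rw [abs_zero, mul_zero] at h1
      exact absurd h1 (not_lt.2 (abs_nonneg _))
    · rw [abs_of_pos hb] at h1
      by_cases ha : 0 ≤ a
      · refine ⟨1, 1, ?_⟩
        rw [abs_of_nonneg ha] at h1
        refine mabs h0 ?_ ?_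
        · simp [sg, rot3, w3_re, w3_im, ← ht]
          nlinarith
        · simp [sg, rot3, w3_re, w3_im, ← ht]
          nlinarith
      · refine ⟨0, 2, ?_⟩
        push Not at ha
        rw [abs_of_neg ha] at h1
        refine mabs h0 ?_ ?_
        · simp [sg, rot3, w3_re, w3_im, ← ht]
          nlinarith
        · simp [sg, rot3, w3_re, w3_im, ← ht]
          nlinarith

theorem norm_sg_rot3 (s : Fin 2) (k : Fin 3) : ‖(sg s : ℂ) * rot3 k‖ = 1 := by
  rw [norm_mul, rot3_norm, mul_one]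
  fin_cases s <;> simp [sg]

/-- powers of `i` -/
noncomputable def rot4 : Fin 4 → ℂ := ![1, Complex.I, -1, -Complex.I]

theorem sqr (w : ℂ) : ∃ k : Fin 4, |(w * rot4 k).im| ≤ (w * rot4 k).re := by
  obtain ⟨a, b⟩ := w
  by_cases h1 : |b| ≤ |a|
  · by_cases ha : 0 ≤ a
    · refine ⟨0, ?_⟩
      rw [abs_of_nonneg ha] at h1
      simpa [rot4] using h1
    · refine ⟨2, ?_⟩
      push Not at ha
      rw [abs_of_neg ha] at h1
      simpa [rot4] using h1
  · push Not at h1
    by_cases hb : 0 ≤ b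
    · refine ⟨3, ?_⟩
      rw [abs_of_nonneg hb] at h1
      simpa [rot4] using h1.le
    · refine ⟨1, ?_⟩
      push Not at hb
      rw [abs_of_neg hb] at h1
      simpa [rot4] using h1.le

/-- coefficients of a complex number in the basis `1 - ω`, `1 - conj ω` -/
theorem coeffs {ω : ℂ} (him : ω.im ≠ 0) (hre : ω.re ≠ 1) (w : ℂ) :
    w = (((w.re / (1 - ω.re) - w.im / ω.im) / 2 : ℝ) : ℂ) * (1 - ω) +
      (((w.re / (1 - ω.re) + w.im / ω.im) / 2 : ℝ) : ℂ) * (1 - conj ω) := by
  have ha : 1 - ω.re ≠ 0 := sub_ne_zero.2 hre.symm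
  obtain ⟨P, hP⟩ : ∃ P : ℝ, P = w.re / (1 - ω.re) := ⟨_, rfl⟩
  obtain ⟨Q, hQ⟩ : ∃ Q : ℝ, Q = w.im / ω.im := ⟨_, rfl⟩
  have hP' : w.re = P * (1 - ω.re) := by
    rw [hP, div_mul_cancel₀ _ ha]
  have hQ' : w.im = Q * ω.im := by
    rw [hQ, div_mul_cancel₀ _ him]
  rw [← hP, ← hQ]
  apply Complex.ext
  · rw [hP']
    simp only [Complex.add_re, Complex.mul_re, Complex.ofReal_re, Complex.ofReal_im,
      Complex.sub_re, Complex.one_re, Complex.conj_re, zero_mul, sub_zero]
    ring
  · rw [hQ']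
    simp only [Complex.add_im, Complex.mul_im, Complex.ofReal_re, Complex.ofReal_im,
      Complex.sub_im, Complex.one_im, Complex.conj_im, zero_mul, add_zero]
    ring

/-- the centre of a nondegenerate triangle is an interior point -/
theorem tri_int {S : Set ℂ} (hS : Convex ℝ S) {ω x : ℂ} (him : ω.im ≠ 0) (hre : ω.re ≠ 1)
    (hx0 : x ≠ 0) (hx : x ∈ S) (hx1 : ω * x ∈ S) (hx2 : conj ω * x ∈ S) :
    (interior S).Nonempty := by
  refine ⟨(x + ω * x + conj ω * x) / 3, ?_⟩
  rw [mem_interior_iff_mem_nhds]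
  -- the coefficients of `(y - y₀) / x`
  let W : ℂ → ℂ := fun y => (y - (x + ω * x + conj ω * x) / 3) / x
  have hW : Continuous W := by fun_prop
  let A : ℂ → ℝ := fun y => ((W y).re / (1 - ω.re) - (W y).im / ω.im) / 2
  let B : ℂ → ℝ := fun y => ((W y).re / (1 - ω.re) + (W y).im / ω.im) / 2
  have hA : Continuous A := by fun_prop
  have hB : Continuous B := by fun_prop
  have hA0 : A ((x + ω * x + conj ω * x) / 3) = 0 := by simp [A, W]
  have hB0 : B ((x + ω * x + conj ω * x) / 3) = 0 := by simp [B, W]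
  have h1 : ∀ᶠ y in 𝓝 ((x + ω * x + conj ω * x) / 3), |A y| < 1 / 6 :=
    (hA.abs.continuousAt).eventually_lt continuousAt_const (by rw [hA0]; norm_num)
  have h2 : ∀ᶠ y in 𝓝 ((x + ω * x + conj ω * x) / 3), |B y| < 1 / 6 :=
    (hB.abs.continuousAt).eventually_lt continuousAt_const (by rw [hB0]; norm_num)
  filter_upwards [h1, h2] with y hy1 hy2
  have hy1' := abs_lt.1 hy1
  have hy2' := abs_lt.1 hy2
  have h3 := convex3 hS hx hx1 hx2 (a := 1 / 3 + A y + B y) (b := 1 / 3 - A y) (c := 1 / 3 - B y)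
    (by linarith) (by linarith) (by linarith) (by ring)
  convert h3 using 1
  have h4 := coeffs him hre (W y)
  have h5 : y = (x + ω * x + conj ω * x) / 3 + W y * x := by
    simp only [W]
    rw [div_mul_cancel₀ _ hx0]
    ring
  change W y = ((A y : ℝ) : ℂ) * (1 - ω) + ((B y : ℝ) : ℂ) * (1 - conj ω) at h4
  rw [h4] at h5
  simp only [Complex.real_smul]
  push_cast
  conv_lhs => rw [h5]
  ring

/-- a convex set with `x ≠ 0` and all its rotations contains `0` in its interior -/
theorem fat_int {S : Set ℂ} (hS : Convex ℝ S) {ω x : ℂ} (hω : ‖ω‖ = 1)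
    (him : ω.im ≠ 0) (hx0 : x ≠ 0) (h : ∀ k : ℕ, ω ^ k * x ∈ S) : (0 : ℂ) ∈ interior S := by
  have hne : ω ≠ 1 := by
    rintro rfl
    simp at him
  have hre : ω.re ≠ 1 := by
    intro h2
    have h3 : ω.re ^ 2 + ω.im ^ 2 = 1 := by
      have := Complex.sq_norm ω
      rw [hω, Complex.normSq_apply] at this
      nlinarith
    have h4 : ω.im ^ 2 = 0 := by
      rw [h2] at h3
      linarith
    exact him (pow_eq_zero_iff (two_ne_zero) |>.1 h4)
  have hω0 : ω ≠ 0 := by
    rintro rfl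
    simp at him
  have hne' : ω - 1 ≠ 0 := sub_ne_zero.2 hne
  by_contra hcon
  have hint : (interior S).Nonempty := by
    have h1 : ω ^ 0 * x ∈ S := h 0
    have h2 : ω ^ 1 * x ∈ S := h 1
    have h3 : ω ^ 2 * x ∈ S := h 2
    rw [pow_zero, one_mul] at h1
    rw [pow_one] at h2
    refine tri_int hS (ω := ω) (x := ω * x) him hre (mul_ne_zero hω0 hx0) h2 ?_ ?_
    · rw [← mul_assoc, ← pow_two]
      exact h3
    · rw [← mul_assoc, mul_comm (conj ω), mul_conj_unit hω, one_mul]
      exact h1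
  obtain ⟨f, hf⟩ := geometric_hahn_banach_open_point hS.interior isOpen_interior hcon
  obtain ⟨p, hp⟩ := hint
  have hfp := hf p hp
  rw [map_zero] at hfp
  have hf0 : ∀ y ∈ S, f y ≤ 0 := by
    intro y hy
    have h1 : y ∈ closure (interior S) := by
      rw [hS.closure_interior_eq_closure_of_nonempty_interior ⟨p, hp⟩]
      exact subset_closure hy
    have h2 : closure (interior S) ⊆ {y | f y ≤ 0} := by
      refine closure_minimal ?_ (isClosed_le f.continuous continuous_const)
      intro y hy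
      have := hf y hy
      rw [map_zero] at this
      exact this.le
    exact h2 h1
  -- the values at the rotated points are summable
  have hsum : Summable fun k : ℕ => -f (ω ^ k * x) := by
    refine summable_of_sum_range_le (c := ‖f‖ * (2 / ‖ω - 1‖ * ‖x‖)) ?_ ?_
    · intro k
      have := hf0 _ (h k)
      linarith
    · intro n
      rw [Finset.sum_neg_distrib, ← map_sum, ← Finset.sum_mul, geom_sum_eq hne]
      refine (neg_le_abs _).trans ?_
      rw [← Real.norm_eq_abs]
      refine (f.le_opNorm _).trans ?_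
      have h3 : ‖ω ^ n - 1‖ ≤ 2 := by
        refine (norm_sub_le _ _).trans ?_
        rw [norm_pow, hω]
        norm_num
      have h4 : ‖(ω ^ n - 1) / (ω - 1)‖ ≤ 2 / ‖ω - 1‖ := by
        rw [norm_div]
        gcongr
      rw [norm_mul]
      gcongr
  have hlim := hsum.tendsto_atTop_zero
  have hlim1 : Tendsto (fun k : ℕ => f (ω ^ k * x)) atTop (𝓝 0) := by
    simpa using hlim.neg
  have hlim2 : Tendsto (fun k : ℕ => f (ω ^ (k + 1) * x)) atTop (𝓝 0) :=
    hlim1.comp (tendsto_add_atTop_nat 1)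
  -- coordinates of `f`
  have hfz : ∀ z : ℂ, f z = z.re * f 1 + z.im * f Complex.I := by
    intro z
    have h1 : z = z.re • (1 : ℂ) + z.im • Complex.I := by
      apply Complex.ext <;> simp
    conv_lhs => rw [h1]
    rw [map_add, map_smul, map_smul, smul_eq_mul, smul_eq_mul]
  -- `q k = conj n * ω ^ k * x`
  set n : ℂ := ⟨f 1, f Complex.I⟩ with hn
  have hfn : ∀ z : ℂ, f z = (conj n * z).re := by
    intro z
    rw [hfz]
    simp [hn]
    ring
  have hn0 : n ≠ 0 := by
    intro h0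
    rw [hfn, h0] at hfp
    simp at hfp
  have hlim3 : Tendsto (fun k : ℕ => (conj n * (ω ^ k * x)).im) atTop (𝓝 0) := by
    have h1 : ∀ k : ℕ, (conj n * (ω ^ k * x)).im =
        (ω.re * f (ω ^ k * x) - f (ω ^ (k + 1) * x)) / ω.im := by
      intro k
      obtain ⟨q, hq⟩ : ∃ q, q = conj n * (ω ^ k * x) := ⟨_, rfl⟩
      have h2 : f (ω ^ (k + 1) * x) = (ω * q).re := by
        rw [hfn, pow_succ', hq]
        congr 1
        ring
      have h3 : f (ω ^ k * x) = q.re := by rw [hfn, hq]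
      rw [h2, h3, ← hq, Complex.mul_re]
      field_simp
      ring
    have h2 := ((hlim1.const_mul ω.re).sub hlim2).div_const ω.im
    simp only [mul_zero, sub_zero, zero_div] at h2
    exact h2.congr fun k => (h1 k).symm
  have hlim4 : Tendsto (fun k : ℕ => (f (ω ^ k * x)) ^ 2 + ((conj n * (ω ^ k * x)).im) ^ 2) atTop
      (𝓝 0) := by
    simpa using (hlim1.pow 2).add (hlim3.pow 2)
  have h5 : ∀ k : ℕ, (f (ω ^ k * x)) ^ 2 + ((conj n * (ω ^ k * x)).im) ^ 2 =
      (‖n‖ * ‖x‖) ^ 2 := by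
    intro k
    rw [hfn, ← mul_pow_sub_one (two_ne_zero) ((conj n * (ω ^ k * x)).re)]
    have h6 := Complex.sq_norm (conj n * (ω ^ k * x))
    rw [Complex.normSq_apply, norm_mul, norm_mul, norm_pow, hω, one_pow, one_mul,
      Complex.norm_conj] at h6
    rw [h6]
    norm_num
    ring
  have h7 : (‖n‖ * ‖x‖) ^ 2 = 0 := by
    refine tendsto_nhds_unique (tendsto_const_nhds.congr fun k => (h5 k).symm) hlim4
  have h8 : 0 < (‖n‖ * ‖x‖) ^ 2 := by
    have := norm_pos_iff.2 hn0
    have := norm_pos_iff.2 hx0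
    positivity
  linarith

end Pool.Agent.W867.Cov3
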