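import Mathlib

/-!
Normal form of a linear automorphism of a three-dimensional real space with bounded powers and
positive determinant.
-/

set_option autoImplicit false

open Polynomial Module

namespace Pool.Agent.W867.Cov3

theorem cubic (p : ℝ[X]) (hm : p.Monic) (hd : p.natDegree = 3) :
    ∃ l b c : ℝ, p = (X ^ 2 + C b * X + C c) * (X - C l) := by
  have hp1 : p ≠ 1 := by
    rintro rfl
    simp at hd
  have hirr : ¬ Irreducible p := by
    intro h
    have := h.natDegree_le_two
    omega
  rw [hm.irreducible_iff_natDegree', not_and_or] at hirr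
  rcases hirr with h | h
  · exact absurd hp1 h
  · push Not at h
    obtain ⟨f, g, hf, hg, hfg, hdeg⟩ := h
    rw [hd, Finset.mem_Ioc] at hdeg
    have hg1 : g.natDegree = 1 := by omega
    have hf2 : f.natDegree = 2 := by
      have := hf.natDegree_mul hg
      rw [hfg, hd, hg1] at this
      omega
    have hgX : g = X + C (g.coeff 0) := by
      conv_lhs => rw [g.as_sum_range, hg1]
      rw [Finset.sum_range_succ, Finset.sum_range_one]
      have : g.coeff 1 = 1 := by
        rw [← hg1]
        exact hg.coeff_natDegree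
      rw [this]
      simp only [monomial_zero_left, ← X_pow_eq_monomial, pow_one]
      ring
    have hfX : f = X ^ 2 + C (f.coeff 1) * X + C (f.coeff 0) := by
      conv_lhs => rw [f.as_sum_range, hf2]
      rw [Finset.sum_range_succ, Finset.sum_range_succ, Finset.sum_range_one]
      have : f.coeff 2 = 1 := by
        rw [← hf2]
        exact hf.coeff_natDegree
      rw [this]
      simp only [← C_mul_X_pow_eq_monomial, pow_one, map_one, one_mul]
      ring
    refine ⟨-g.coeff 0, f.coeff 1, f.coeff 0, ?_⟩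
    rw [← hfg]
    conv_lhs => rw [hfX, hgX]
    rw [map_neg, sub_neg_eq_add]

theorem abs_le_one_of_bdd {r C : ℝ} (_hr : 0 ≤ r) (h : ∀ k : ℕ, r ^ k ≤ C) : r ≤ 1 := by
  by_contra hcon
  push Not at hcon
  obtain ⟨k, hk⟩ := pow_unbounded_of_one_lt C hcon
  exact absurd (h k) (not_le.2 hk)

/-- bounded powers -/
def PB {V : Type*} [NormedAddCommGroup V] [NormedSpace ℝ V] (T : V →ₗ[ℝ] V) : Prop :=
  ∃ C : ℝ, ∀ (k : ℕ) (v : V), ‖(T ^ k) v‖ ≤ C * ‖v‖

section

variable {V : Type*} [NormedAddCommGroup V] [NormedSpace ℝ V]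

theorem PB.eig {T : V →ₗ[ℝ] V} (hT : PB T) {v : V} (hv : v ≠ 0) {l : ℝ} (h : T v = l • v) :
    |l| ≤ 1 := by
  obtain ⟨C, hC⟩ := hT
  refine abs_le_one_of_bdd (abs_nonneg _) (C := C) fun k => ?_
  have h1 : (T ^ k) v = l ^ k • v := by
    induction k with
    | zero => simp
    | succ k ih => rw [pow_succ', Module.End.mul_apply, ih, map_smul, h, smul_smul, pow_succ]
  have h2 := hC k v
  rw [h1, norm_smul, norm_pow, Real.norm_eq_abs] at h2
  exact le_of_mul_le_mul_right h2 (norm_pos_iff.2 hv)

theorem PB.nil {T : V →ₗ[ℝ] V} (hT : PB T) {v : V}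
    (h2 : T (T (T (T v) - v)) = T (T v) - v) : T (T v) = v := by
  obtain ⟨C, hC⟩ := hT
  obtain ⟨n, hn⟩ : ∃ n, n = T (T v) - v := ⟨_, rfl⟩
  rw [← hn] at h2
  have hTv : T (T v) = v + n := by
    rw [hn]
    abel
  have h1 : ∀ k : ℕ, (T ^ (2 * k)) v = v + (k : ℝ) • n := by
    intro k
    induction k with
    | zero => simp
    | succ k ih =>
      rw [show 2 * (k + 1) = 2 + 2 * k by ring, pow_add, Module.End.mul_apply, ih, pow_two,
        Module.End.mul_apply]
      simp only [map_add, map_smul]
      rw [h2, hTv]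
      push_cast
      rw [add_smul, one_smul]
      abel
  by_contra hcon
  have hn0 : n ≠ 0 := by
    rw [hn]
    exact sub_ne_zero.2 hcon
  have hn1 := norm_pos_iff.2 hn0
  obtain ⟨k, hk⟩ := exists_nat_gt ((C * ‖v‖ + ‖v‖) / ‖n‖)
  rw [div_lt_iff₀ hn1] at hk
  have h3 := hC (2 * k) v
  rw [h1] at h3
  have h4 : ‖(k : ℝ) • n‖ ≤ ‖v + (k : ℝ) • n‖ + ‖v‖ := by
    have := norm_sub_le (v + (k : ℝ) • n) v
    rwa [add_sub_cancel_left] at this
  rw [norm_smul, Real.norm_natCast] at h4
  linarith

theorem rot_form [FiniteDimensional ℝ V] (hdim : finrank ℝ V = 3) (T S : V →ₗ[ℝ] V)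
    (hTS : ∀ v, T (S v) = v) (hST : ∀ v, S (T v) = v)
    (hdet : 0 < LinearMap.det T) (hT : PB T) (hS : PB S) :
    (∀ v, T (T v) = v) ∨ ∃ (L : (ℂ × ℝ) ≃ₗ[ℝ] V) (ν : ℂ), ‖ν‖ = 1 ∧ ν.im ≠ 0 ∧
      ∀ z t, T (L (z, t)) = L (ν * z, t) := by
  obtain ⟨l, b, c, hp⟩ := cubic T.charpoly T.charpoly_monic (by rw [LinearMap.charpoly_natDegree, hdim])
  -- real eigenvalues
  have habs : ∀ l : ℝ, ∀ v : V, v ≠ 0 → T v = l • v → |l| = 1 := by
    intro l v hv h
    have h1 := hT.eig hv h
    have hl0 : l ≠ 0 := by
      rintro rfl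
      rw [zero_smul] at h
      apply hv
      rw [← hST v, h, map_zero]
    have h2 : S v = l⁻¹ • v := by
      have h5 := hST v
      rw [h, map_smul] at h5
      rw [← h5, smul_smul, inv_mul_cancel₀ hl0, one_smul]
      rw [h5]
    have h3 := hS.eig hv h2
    rw [abs_inv] at h3
    have h4 : 1 ≤ |l| := by
      have h5 : 0 < |l| := abs_pos.2 hl0
      have h6 := mul_le_mul_of_nonneg_left h3 h5.le
      rwa [mul_inv_cancel₀ h5.ne', mul_one] at h6
    exact le_antisymm h1 h4
  have hroot : ∀ l : ℝ, T.charpoly.IsRoot l → ∃ v : V, v ≠ 0 ∧ T v = l • v := by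
    intro l hl
    have h1 : Module.End.HasEigenvalue T l :=
      (Module.End.hasEigenvalue_iff_isRoot_charpoly T l).2 hl
    obtain ⟨v, hv⟩ := h1.exists_hasEigenvector
    exact ⟨v, hv.2, hv.apply_eq_smul⟩
  have hlroot : T.charpoly.IsRoot l := by
    rw [hp, IsRoot.def]
    simp
  obtain ⟨e, he0, he⟩ := hroot l hlroot
  have hl1 := habs l e he0 he
  have hCH : ∀ v, T (T (T v - l • v)) + b • T (T v - l • v) + c • (T v - l • v) = 0 := by
    intro v
    have h1 := LinearMap.aeval_self_charpoly T
    rw [hp] at h1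
    have h2 := LinearMap.congr_fun h1 v
    simpa [pow_two, Module.End.mul_apply, Algebra.algebraMap_eq_smul_one] using h2
  by_cases hΔ : b ^ 2 - 4 * c < 0
  · -- complex roots
    by_cases hinj : ∀ v, T (T v) + b • T v + c • v = 0 → v = 0
    · left
      intro v
      have h1 : T v = l • v := by
        have := hinj _ (hCH v)
        exact sub_eq_zero.1 this
      rw [h1, map_smul, h1, smul_smul, ← abs_mul_abs_self, hl1, one_mul, one_smul]
    · right
      push Not at hinj
      obtain ⟨v, hv, hv0⟩ := hinj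
      obtain ⟨s, hs⟩ : ∃ s, s = Real.sqrt (4 * c - b ^ 2) / 2 := ⟨_, rfl⟩
      have hs0 : 0 < s := by
        rw [hs]
        have := Real.sqrt_pos.2 (show 0 < 4 * c - b ^ 2 by linarith)
        positivity
      have hs2 : s * s = c - b ^ 2 / 4 := by
        rw [hs]
        have := Real.mul_self_sqrt (show 0 ≤ 4 * c - b ^ 2 by linarith)
        nlinarith
      obtain ⟨w, hw⟩ : ∃ w : V, w = s⁻¹ • (T v + (b / 2) • v) := ⟨_, rfl⟩
      have hTv : T v = (-(b / 2)) • v + s • w := by
        rw [hw, smul_smul, mul_inv_cancel₀ hs0.ne', one_smul, neg_smul]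
        abel
      have hTw : T w = (-s) • v + (-(b / 2)) • w := by
        have h1 : s • T w = s • ((-s) • v + (-(b / 2)) • w) := by
          have h2 : s • w = T v + (b / 2) • v := by
            rw [hw, smul_smul, mul_inv_cancel₀ hs0.ne', one_smul]
          have h3 : s • T w = T (T v) + (b / 2) • T v := by
            rw [← map_smul, h2, map_add, map_smul]
          rw [h3, smul_add, smul_smul, smul_smul, mul_comm s (-(b / 2)), ← smul_smul _ s w, h2]
          have h4 : T (T v) = -(b • T v) - c • v := by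
            rw [← sub_eq_zero, ← hv]
            abel
          rw [h4, show s * -s = b ^ 2 / 4 - c by linarith]
          module
        exact smul_right_injective V hs0.ne' h1
      let L : (ℂ × ℝ) →ₗ[ℝ] V :=
        { toFun := fun p => p.1.re • v + p.1.im • w + p.2 • e
          map_add' := fun p q => by
            simp only [Prod.fst_add, Prod.snd_add, Complex.add_re, Complex.add_im, add_smul]
            abel
          map_smul' := fun r p => by
            simp only [Prod.smul_fst, Prod.smul_snd, Complex.smul_re, Complex.smul_im,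
              smul_eq_mul, mul_smul, smul_add, RingHom.id_apply] }
      have hL : ∀ z t, L (z, t) = z.re • v + z.im • w + t • e := fun _ _ => rfl
      obtain ⟨ν, hν⟩ : ∃ ν : ℂ, ν = ⟨-(b / 2), s⟩ := ⟨_, rfl⟩
      have hνre : ν.re = -(b / 2) := by rw [hν]
      have hνim : ν.im = s := by rw [hν]
      have hTL : ∀ z t, T (L (z, t)) = L (ν * z, l * t) := by
        intro z t
        rw [hL, hL]
        simp only [map_add, map_smul, hTv, hTw, he, Complex.mul_re, Complex.mul_im, hνre, hνim]
        module
      have hinjL : Function.Injective L := by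
        rw [injective_iff_map_eq_zero]
        rintro ⟨z, t⟩ hzt
        have h1 : L (ν * z, l * t) = 0 := by
          rw [← hTL, hzt, map_zero]
        have h2 : L ((ν - l) * z, 0) = 0 := by
          have h3 : (((ν - l) * z, (0 : ℝ)) : ℂ × ℝ) = (ν * z, l * t) - l • (z, t) := by
            refine Prod.ext ?_ ?_
            · simp only [Prod.fst_sub, Prod.smul_fst, Complex.real_smul]
              ring
            · simp only [Prod.snd_sub, Prod.smul_snd, smul_eq_mul]
              ring
          rw [h3, map_sub, map_smul, h1, hzt, smul_zero, sub_zero]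
        obtain ⟨z', hz'⟩ : ∃ z', z' = (ν - l) * z := ⟨_, rfl⟩
        rw [← hz'] at h2
        have hνl : ν - l ≠ 0 := by
          intro h
          have := congrArg Complex.im h
          rw [Complex.sub_im, Complex.ofReal_im, hνim, sub_zero, Complex.zero_im] at this
          exact hs0.ne' this
        have hz'0 : z' = 0 := by
          by_contra hne
          apply hv0
          have h4 : L (ν * z', 0) = 0 := by
            have := hTL z' 0
            rw [h2, map_zero, mul_zero] at this
            exact this.symm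
          -- `1 = α z' + β ν z'`
          obtain ⟨β, hβ⟩ : ∃ β : ℝ, β = (z'⁻¹).im / s := ⟨_, rfl⟩
          obtain ⟨α, hα⟩ : ∃ α : ℝ, α = (z'⁻¹).re + β * (b / 2) := ⟨_, rfl⟩
          have h5 : (α : ℂ) + β * ν = z'⁻¹ := by
            apply Complex.ext
            · rw [Complex.add_re, Complex.re_ofReal_mul, Complex.ofReal_re, hνre, hα]
              ring
            · rw [Complex.add_im, Complex.im_ofReal_mul, Complex.ofReal_im, hνim, hβ]
              field_simp
              ring
          have h6 : ((1 : ℂ), (0 : ℝ)) = α • (z', (0 : ℝ)) + β • (ν * z', (0 : ℝ)) := by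
            refine Prod.ext ?_ ?_
            · simp only [Prod.fst_add, Prod.smul_fst, Complex.real_smul]
              have : (α : ℂ) * z' + β * (ν * z') = ((α : ℂ) + β * ν) * z' := by ring
              rw [this, h5, inv_mul_cancel₀ hne]
            · simp
          have h7 : L (1, 0) = v := by
            rw [hL]
            simp
          rw [← h7, h6, map_add, map_smul, map_smul, h2, h4]
          simp
        have hz0 : z = 0 := by
          rw [hz'0] at hz'
          rcases mul_eq_zero.1 hz'.symm with h | h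
          · exact absurd h hνl
          · exact h
        rw [hz0, hL] at hzt
        simp only [Complex.zero_re, Complex.zero_im, zero_smul, add_zero, zero_add] at hzt
        rcases smul_eq_zero.1 hzt with h | h
        · rw [hz0, h]
          rfl
        · exact absurd h he0
      have hfin : finrank ℝ (ℂ × ℝ) = finrank ℝ V := by
        rw [hdim, Module.finrank_prod, Complex.finrank_real_complex, Module.finrank_self]
      let Le := L.linearEquivOfInjective hinjL hfin
      have hLe : ∀ p, Le p = L p := fun p => rfl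
      -- the sign of `l`
      have hl : l = 1 := by
        have h1 := LinearMap.det_eq_sign_charpoly_coeff (f := T)
        rw [hdim, hp] at h1
        have h2 : ((X ^ 2 + C b * X + C c) * (X - C l) : ℝ[X]).coeff 0 = -(c * l) := by
          rw [coeff_zero_eq_eval_zero]
          simp
        rw [h2] at h1
        have h3 : 0 < c * l := by
          have : (-1 : ℝ) ^ 3 * -(c * l) = c * l := by ring
          rw [this] at h1
          rw [← h1]
          exact hdet
        have hc : 0 < c := by nlinarith [sq_nonneg b]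
        have hl0 : 0 < l := (mul_pos_iff_of_pos_left hc).1 h3
        rwa [abs_of_pos hl0] at hl1
      rw [hl] at hTL
      -- `‖ν‖ = 1`
      have hLc : Continuous Le.symm := Le.symm.toLinearMap.continuous_of_finiteDimensional
      let Lc : V →L[ℝ] (ℂ × ℝ) := ⟨Le.symm.toLinearMap, hLc⟩
      have hgen : ∀ (R : V →ₗ[ℝ] V) (μ : ℂ), PB R → (∀ z, R (L (z, 0)) = L (μ * z, 0)) →
          ‖μ‖ ≤ 1 := by
        rintro R μ ⟨C, hC⟩ hR
        refine abs_le_one_of_bdd (norm_nonneg _) (C := ‖Lc‖ * (C * ‖L (1, 0)‖)) fun k => ?_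
        have h1 : (R ^ k) (L (1, 0)) = L (μ ^ k, 0) := by
          induction k with
          | zero => simp
          | succ k ih => rw [pow_succ', Module.End.mul_apply, ih, hR, pow_succ']
        have h2 := hC k (L (1, 0))
        rw [h1] at h2
        have h3 : Lc (L (μ ^ k, 0)) = (μ ^ k, 0) := Le.symm_apply_apply _
        calc ‖μ‖ ^ k = ‖μ ^ k‖ := (norm_pow _ _).symm
          _ ≤ ‖((μ ^ k, 0) : ℂ × ℝ)‖ := by
            rw [Prod.norm_def]
            exact le_max_left _ _
          _ = ‖Lc (L (μ ^ k, 0))‖ := by rw [h3]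
          _ ≤ ‖Lc‖ * ‖L (μ ^ k, 0)‖ := Lc.le_opNorm _
          _ ≤ ‖Lc‖ * (C * ‖L (1, 0)‖) := by gcongr
      have hn1 : ‖ν‖ ≤ 1 := hgen T ν hT fun z => by
        rw [hTL, mul_zero]
      have hν0 : ν ≠ 0 := by
        intro h
        rw [h, Complex.zero_im] at hνim
        exact hs0.ne hνim
      have hn2 : ‖ν⁻¹‖ ≤ 1 := hgen S ν⁻¹ hS fun z => by
        have h1 := hTL (ν⁻¹ * z) 0
        rw [mul_zero, ← mul_assoc, mul_inv_cancel₀ hν0, one_mul] at h1
        rw [← h1, hST]
      refine ⟨Le, ν, ?_, by rw [hνim]; exact hs0.ne', fun z t => ?_⟩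
      · rw [norm_inv] at hn2
        have h5 : 0 < ‖ν‖ := norm_pos_iff.2 hν0
        have h6 := mul_le_mul_of_nonneg_left hn2 h5.le
        rw [mul_inv_cancel₀ h5.ne', mul_one] at h6
        exact le_antisymm hn1 h6
      · rw [hLe, hLe, hTL, one_mul]
  · -- real roots
    left
    push Not at hΔ
    obtain ⟨d, hd⟩ : ∃ d, d = Real.sqrt (b ^ 2 - 4 * c) := ⟨_, rfl⟩
    have hd2 : d * d = b ^ 2 - 4 * c := by
      rw [hd]
      exact Real.mul_self_sqrt hΔ
    obtain ⟨l2, hl2⟩ : ∃ l2, l2 = (-b + d) / 2 := ⟨_, rfl⟩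
    obtain ⟨l3, hl3⟩ : ∃ l3, l3 = (-b - d) / 2 := ⟨_, rfl⟩
    have hb : b = -(l2 + l3) := by
      rw [hl2, hl3]
      ring
    have hc : c = l2 * l3 := by
      rw [hl2, hl3]
      linear_combination (1 / 4) * hd2
    have hroot' : ∀ r, r ^ 2 + b * r + c = 0 → |r| = 1 := by
      intro r hr
      obtain ⟨u, hu0, hu⟩ := hroot r (by
        rw [hp, IsRoot.def]
        simp [hr])
      exact habs r u hu0 hu
    have h2 : |l2| = 1 := hroot' l2 (by rw [hb, hc]; ring)
    have h3 : |l3| = 1 := hroot' l3 (by rw [hb, hc]; ring)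
    have hsq : ∀ r : ℝ, |r| = 1 → r * r = 1 := by
      intro r hr
      rw [← abs_mul_abs_self, hr, one_mul]
    -- `N = T² - 1`, `N³ = 0`
    have hN : ∀ v, T (T (T (T v) - v)) - (T (T v) - v) = 0 → T (T v) = v := by
      intro v h
      exact hT.nil (sub_eq_zero.1 h)
    have e1 := hsq l hl1
    have e2 := hsq l2 h2
    have e3 := hsq l3 h3
    have hfac : ∀ (r : ℝ), r * r = 1 → ∀ v, T (T v) - v = (T (T v + r • v)) - r • (T v + r • v) := by
      intro r hr v
      rw [map_add, map_smul, smul_add, smul_smul, hr, one_smul]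
      abel
    -- generic cube
    have hcube : ∀ v, T (T (T (T (T (T v) - v)) - (T (T v) - v))) -
        (T (T (T (T v) - v)) - (T (T v) - v)) = 0 := by
      intro v
      -- use `(X² - 1)³ = charpoly * (X + l) (X + l2) (X + l3)`
      have hpoly : ((X ^ 2 - 1) ^ 3 : ℝ[X]) = (X + C l) * (X + C l2) * (X + C l3) *
          T.charpoly := by
        have g : ∀ r : ℝ, r * r = 1 → (X ^ 2 - 1 : ℝ[X]) = (X + C r) * (X - C r) := by
          intro r hr
          have : C r * C r = (1 : ℝ[X]) := by rw [← C_mul, hr, C_1]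
          linear_combination this
        have hq : (X ^ 2 + C b * X + C c : ℝ[X]) = (X - C l2) * (X - C l3) := by
          rw [hb, hc]
          simp only [C_neg, C_add, C_mul]
          ring
        rw [hp, hq]
        calc ((X ^ 2 - 1) ^ 3 : ℝ[X]) = (X ^ 2 - 1) * (X ^ 2 - 1) * (X ^ 2 - 1) := by ring
          _ = ((X + C l) * (X - C l)) * ((X + C l2) * (X - C l2)) * ((X + C l3) * (X - C l3)) := by
            rw [← g l e1, ← g l2 e2, ← g l3 e3]
          _ = _ := by ring
      have h5 := congrArg (aeval T) hpoly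
      rw [map_mul, LinearMap.aeval_self_charpoly, mul_zero] at h5
      have h6 := LinearMap.congr_fun h5 v
      have h7 : (aeval T) ((X ^ 2 - 1) ^ 3 : ℝ[X]) = (T ^ 2 - 1) ^ 3 := by simp
      rw [h7] at h6
      obtain ⟨N, hNdef⟩ : ∃ N : V →ₗ[ℝ] V, N = T ^ 2 - 1 := ⟨_, rfl⟩
      have h9 : ∀ u, N u = T (T u) - u := by
        intro u
        rw [hNdef, pow_two]
        rfl
      rw [← hNdef] at h6
      have h8 : (N ^ 3) v = N (N (N v)) := by
        rw [pow_succ, pow_two]
        rfl
      rw [h8, h9, h9, h9] at h6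
      exact h6
    -- first `N² = 0`
    have hN2 : ∀ v, T (T (T (T v) - v)) - (T (T v) - v) = 0 := by
      intro v
      have h5 := hN _ (hcube v)
      exact sub_eq_zero.2 h5
    intro v
    exact hN v (hN2 v)

end

end Pool.Agent.W867.Cov3
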