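import Pool.Agent.W867.Cov3.Gen3

/-!
Bodies in `ℂ × ℝ` invariant under the rotation by 120 degrees: all cases except two equal
triangular ends.
-/

set_option autoImplicit false

open Set Topology Filter
open scoped ComplexConjugate

namespace Pool.Agent.W867.Cov3

theorem end_struct {S M : Set ℂ} (hS : Convex ℝ S) (h3 : Inv3 S)
    (hfat : ∀ x ∈ S, x ≠ 0 → (0 : ℂ) ∈ interior S) (h0M : (0 : ℂ) ∈ interior M) :
    (∀ c, ‖c‖ = 1 → ∀ x ∈ S, x ∉ interior M → ∃ k, PI S x (rot3 k * c)) ∨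
    ∃ x₀ c₀, x₀ ∈ S ∧ x₀ ∉ interior M ∧ x₀ ≠ 0 ∧ (0 : ℂ) ∈ interior S ∧
      ∀ c, ‖c‖ = 1 → c ^ 6 ≠ c₀ ^ 6 → (∃ k, PI S x₀ (rot3 k * c)) →
        ∀ x ∈ S, x ∉ interior M → ∃ k, PI S x (rot3 k * c) := by
  by_cases hall : ∀ c, ‖c‖ = 1 → ∀ x ∈ S, x ∉ interior M → ∃ k, PI S x (rot3 k * c)
  · exact Or.inl hall
  · right
    push Not at hall
    obtain ⟨c₀, hc₀, x₀, hx₀, hx₀M, hF⟩ := hall
    have hx₀0 : x₀ ≠ 0 := by
      rintro rfl
      exact hx₀M h0M
    have h0 := hfat _ hx₀ hx₀0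
    refine ⟨x₀, c₀, hx₀, hx₀M, hx₀0, h0, ?_⟩
    intro c hc hne ⟨k, hk⟩ x hx hxM
    by_contra hcon
    push Not at hcon
    have hx0 : x ≠ 0 := by
      rintro rfl
      exact hxM h0M
    rcases fail_uniq hS h0 h3 hx₀ hx₀0 hc₀ hF hx hx0 hc hcon with h | ⟨j, hj⟩
    · exact hne h.symm
    · have hcon' : Fail3 S x c := hcon
      have := hcon'.rot h3 (-j)
      rw [hj, ← mul_assoc, ← rot3_mul, neg_add_cancel, rot3_zero, one_mul] at this
      exact this k hk

theorem PI.open {S : Set ℂ} {x u : ℂ} (h : PI S x u) : ∀ᶠ v in 𝓝 u, PI S x v := by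
  obtain ⟨l, hl, hi⟩ := h
  have hc : ContinuousAt (fun v : ℂ => x - l • v) u := by fun_prop
  exact (hc.eventually_mem (isOpen_interior.mem_nhds hi)).mono fun v hv => ⟨l, hl, hv⟩

/-- rotation of a direction -/
noncomputable def rt (σ t : ℝ) : ℂ := Complex.exp ((σ * t : ℝ) * Complex.I)

theorem rt_norm (σ t : ℝ) : ‖rt σ t‖ = 1 := Complex.norm_exp_ofReal_mul_I _

theorem rt_re (σ t : ℝ) : (rt σ t).re = Real.cos (σ * t) := Complex.exp_ofReal_mul_I_re _

theorem rt_im (σ t : ℝ) : (rt σ t).im = Real.sin (σ * t) := Complex.exp_ofReal_mul_I_im _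

theorem rt_cont (σ : ℝ) : Continuous (rt σ) := by
  unfold rt
  fun_prop

theorem rt_zero (σ : ℝ) : rt σ 0 = 1 := by
  simp [rt]

theorem rt_inj {σ : ℝ} (hσ : σ = 1 ∨ σ = -1) {c : ℂ} (hc : c ≠ 0) (s t : ℝ) (hs : 0 < s)
    (hs1 : s < 1) (ht : 0 < t) (ht1 : t < 1) (h : (c * rt σ s) ^ 6 = (c * rt σ t) ^ 6) :
    s = t := by
  rw [mul_pow, mul_pow] at h
  have h1 := mul_left_cancel₀ (pow_ne_zero 6 hc) h
  unfold rt at h1
  rw [← Complex.exp_nat_mul, ← Complex.exp_nat_mul, Complex.exp_eq_exp_iff_exists_int] at h1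
  obtain ⟨n, hn⟩ := h1
  have h2 := congrArg Complex.im hn
  simp at h2
  have hpi := Real.pi_gt_three
  have hn0 : n = 0 := by
    have h3 : |(n : ℝ) * (2 * Real.pi)| < 6 := by
      have : (n : ℝ) * (2 * Real.pi) = 6 * (σ * s) - 6 * (σ * t) := by linarith
      rw [this, abs_lt]
      rcases hσ with rfl | rfl <;> constructor <;> linarith
    by_contra hne
    have h4 : (1 : ℝ) ≤ |(n : ℝ)| := by
      have := Int.one_le_abs hne
      exact_mod_cast this
    rw [abs_mul, abs_of_pos (show 0 < 2 * Real.pi by linarith)] at h3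
    nlinarith
  rw [hn0] at h2
  simp at h2
  rcases h2 with h2 | h2
  · exact h2
  · exfalso
    rcases hσ with rfl | rfl <;> norm_num at h2

/-- rotating into the sector -/
theorem rotp {σ : ℝ} (hσ : σ = 1 ∨ σ = -1) {p : ℂ} (h1 : 0 ≤ p.re + σ * √3 * p.im)
    (h2 : 0 < p.re - σ * √3 * p.im) :
    ∀ᶠ t in 𝓝[>] (0 : ℝ), √3 * |(p * rt σ t).im| < (p * rt σ t).re := by
  have hs := sqrt3_sq
  have hs0 := sqrt3_pos
  have hσ2 : σ * σ = 1 := by
    rcases hσ with rfl | rfl <;> norm_num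
  -- second expression by continuity
  have hcont : ContinuousAt (fun t : ℝ => (p * rt σ t).re - σ * √3 * (p * rt σ t).im) 0 := by
    have := rt_cont σ
    fun_prop
  have h3 : ∀ᶠ t in 𝓝[>] (0 : ℝ), 0 < (p * rt σ t).re - σ * √3 * (p * rt σ t).im := by
    refine (continuousAt_const.eventually_lt hcont ?_).filter_mono nhdsWithin_le_nhds
    rw [rt_zero, mul_one]
    exact h2
  -- first expression
  have hsin : ∀ᶠ t in 𝓝[>] (0 : ℝ), 0 < Real.sin t := by
    have h5 : ∀ᶠ t in 𝓝[>] (0 : ℝ), t < Real.pi :=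
      (continuous_id.continuousAt.eventually_lt continuousAt_const Real.pi_pos).filter_mono
        nhdsWithin_le_nhds
    filter_upwards [h5, self_mem_nhdsWithin] with t ht ht0
    exact Real.sin_pos_of_pos_of_lt_pi ht0 ht
  have hcos : ∀ᶠ t in 𝓝[>] (0 : ℝ), 0 < Real.cos t := by
    refine (continuousAt_const.eventually_lt Real.continuous_cos.continuousAt ?_).filter_mono
      nhdsWithin_le_nhds
    rw [Real.cos_zero]
    norm_num
  filter_upwards [h3, hsin, hcos] with t ht3 hts htc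
  have hre : (p * rt σ t).re = p.re * Real.cos t - σ * (p.im * Real.sin t) := by
    rw [Complex.mul_re, rt_re, rt_im]
    rcases hσ with rfl | rfl <;> simp
  have him : (p * rt σ t).im = σ * (p.re * Real.sin t) + p.im * Real.cos t := by
    rw [Complex.mul_im, rt_re, rt_im]
    rcases hσ with rfl | rfl <;> simp
  have hfirst : 0 < (p * rt σ t).re + σ * √3 * (p * rt σ t).im := by
    rw [hre, him]
    have e1 : p.re * Real.cos t - σ * (p.im * Real.sin t) + σ * √3 *
        (σ * (p.re * Real.sin t) + p.im * Real.cos t) =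
        Real.cos t * (p.re + σ * √3 * p.im) + Real.sin t * (√3 * p.re * (σ * σ) - σ * p.im) := by
      ring
    rw [e1, hσ2]
    have e2 : 0 < √3 * p.re * 1 - σ * p.im := by
      -- `p.re > 0`
      have e3 : 0 < p.re := by linarith
      have e4 : √3 * (√3 * p.re * 1 - σ * p.im) = 3 * p.re - σ * √3 * p.im := by
        linear_combination p.re * hs
      have e5 : 0 < √3 * (√3 * p.re * 1 - σ * p.im) := by
        rw [e4]
        linarith
      exact (mul_pos_iff_of_pos_left hs0).1 e5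
    have := mul_pos hts e2
    have := mul_nonneg htc.le h1
    linarith
  obtain ⟨R, hR⟩ : ∃ R, R = (p * rt σ t).re := ⟨_, rfl⟩
  obtain ⟨I, hI⟩ : ∃ I, I = (p * rt σ t).im := ⟨_, rfl⟩
  rw [← hR, ← hI] at ht3 hfirst ⊢
  have key : √3 * |I| = |√3 * I| := by
    rw [abs_mul, abs_of_pos hs0]
  rw [key, abs_lt]
  rcases hσ with rfl | rfl
  · constructor <;> linarith
  · constructor <;> linarith

end Pool.Agent.W867.Cov3
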