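import Pool.Agent.W867.Cov3.Main3

/-!
Bodies in `ℂ × ℝ` invariant under the rotation by 120 degrees: all cases except two equal
triangular ends.
-/

set_option autoImplicit false

open Set Topology Filter
open scoped ComplexConjugate

namespace Pool.Agent.W867.Cov3

section

variable {K : Set (ℂ × ℝ)} {bot top : ℝ}

theorem combine (h : RotBody K w3) (he : Ends K bot top) {σ : ℝ} (hσ : σ = 1 ∨ σ = -1) {c₀ : ℂ}
    (hc₀ : ‖c₀‖ = 1) {ct cb : ℂ} {Pt Pb : ℂ → Prop}
    (Ht : ∀ c, ‖c‖ = 1 → c ^ 6 ≠ ct → Pt c → ∀ x ∈ sec K top,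
      x ∉ interior (Prod.fst '' K) → ∃ k, PI (sec K top) x (rot3 k * c))
    (Hb : ∀ c, ‖c‖ = 1 → c ^ 6 ≠ cb → Pb c → ∀ x ∈ sec K bot,
      x ∉ interior (Prod.fst '' K) → ∃ k, PI (sec K bot) x (rot3 k * c))
    (ht : ∀ᶠ t in 𝓝[>] (0 : ℝ), Pt (c₀ * rt σ t))
    (hb : ∀ᶠ t in 𝓝[>] (0 : ℝ), Pb (-(c₀ * rt σ t))) : Cov K := by
  have hc₀0 : c₀ ≠ 0 := by
    rw [← norm_ne_zero_iff, hc₀]
    norm_num
  have hn : ∀ t, ‖c₀ * rt σ t‖ = 1 := fun t => by rw [norm_mul, hc₀, rt_norm, one_mul]
  refine gen h he (fun t => c₀ * rt σ t) hn (rt_inj hσ hc₀0) ct cb ?_ ?_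
  · filter_upwards [ht] with t ht h6
    exact Ht _ (hn t) h6 ht
  · filter_upwards [hb] with t hb h6 x hx hxM
    obtain ⟨k, hk⟩ := Hb (-(c₀ * rt σ t)) (by rw [norm_neg, hn]) (by
      rw [Even.neg_pow (by decide)]
      exact h6) hb x hx hxM
    exact ⟨k, by rwa [mul_neg] at hk⟩

theorem ev_sector {S : Set ℂ} (hS : Convex ℝ S) (h0 : (0 : ℂ) ∈ interior S) (h3 : Inv3 S)
    {x c : ℂ} (hx : x ∈ S) (hx0 : x ≠ 0) {σ : ℝ} (hσ : σ = 1 ∨ σ = -1)
    (h1 : 0 ≤ (conj x * c).re + σ * √3 * (conj x * c).im)
    (h2 : 0 < (conj x * c).re - σ * √3 * (conj x * c).im) :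
    ∀ᶠ t in 𝓝[>] (0 : ℝ), PI S x (c * rt σ t) := by
  filter_upwards [rotp hσ h1 h2] with t ht
  refine PI_sector hS h0 h3 hx hx0 ?_
  rwa [mul_assoc] at ht

theorem ev_open {S : Set ℂ} {x c : ℂ} (h : PI S x c) (σ : ℝ) :
    ∀ᶠ t in 𝓝[>] (0 : ℝ), PI S x (c * rt σ t) := by
  have hcont : ContinuousAt (fun t : ℝ => c * rt σ t) 0 := by
    have := rt_cont σ
    fun_prop
  have h1 : Tendsto (fun t : ℝ => c * rt σ t) (𝓝 0) (𝓝 (c * rt σ 0)) := hcont
  rw [rt_zero, mul_one] at h1
  exact (h1.mono_left nhdsWithin_le_nhds).eventually h.open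

theorem unit_vec {x : ℂ} (hx : x ≠ 0) : ‖x / (‖x‖ : ℂ)‖ = 1 ∧
    conj x * (x / (‖x‖ : ℂ)) = (‖x‖ : ℂ) := by
  have hn := norm_pos_iff.2 hx
  have hnc : ((‖x‖ : ℝ) : ℂ) ≠ 0 := by exact_mod_cast hn.ne'
  constructor
  · rw [norm_div, Complex.norm_real, norm_norm, div_self hn.ne']
  · rw [mul_div_assoc', ← Complex.normSq_eq_conj_mul_self, Complex.normSq_eq_norm_sq]
    push_cast
    field_simp

/-- the unit number at angle `30 σ` degrees -/
noncomputable def u30 (σ : ℝ) : ℂ := ⟨√3 / 2, σ / 2⟩

theorem u30_norm {σ : ℝ} (hσ : σ = 1 ∨ σ = -1) : ‖u30 σ‖ = 1 := by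
  have hs := sqrt3_sq
  have h : ‖u30 σ‖ ^ 2 = 1 := by
    rw [Complex.sq_norm, Complex.normSq_apply]
    simp only [u30]
    rcases hσ with rfl | rfl <;> nlinarith
  nlinarith [norm_nonneg (u30 σ)]

theorem u30_rot {σ : ℝ} (hσ : σ = 1 ∨ σ = -1) : ∃ k, -(rot3 k * u30 (-σ)) = u30 σ := by
  have hs := sqrt3_sq
  rcases hσ with rfl | rfl
  · refine ⟨2, ?_⟩
    rw [rot3_two]
    apply Complex.ext
    · simp only [u30, Complex.neg_re, Complex.mul_re, Complex.conj_re, Complex.conj_im, w3_re, w3_im]
      ring
    · simp only [u30, Complex.neg_im, Complex.mul_im, Complex.conj_re, Complex.conj_im, w3_re, w3_im]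
      nlinarith
  · refine ⟨1, ?_⟩
    rw [rot3_one]
    apply Complex.ext
    · simp only [u30, Complex.neg_re, Complex.mul_re, w3_re, w3_im]
      ring
    · simp only [u30, Complex.neg_im, Complex.mul_im, w3_re, w3_im]
      nlinarith

theorem u30_side (x : ℂ) : x - rot3 1 * x = (√3 : ℝ) • (x * u30 (-1)) ∧
    x - rot3 2 * x = (√3 : ℝ) • (x * u30 1) := by
  have hs := sqrt3_sq
  have e1 : (1 : ℂ) - rot3 1 = ((√3 : ℝ) : ℂ) * u30 (-1) := by
    rw [rot3_one]
    apply Complex.ext
    · simp only [u30, Complex.sub_re, Complex.one_re, w3_re, Complex.re_ofReal_mul]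
      nlinarith
    · simp only [u30, Complex.sub_im, Complex.one_im, w3_im, Complex.im_ofReal_mul]
      ring
  have e2 : (1 : ℂ) - rot3 2 = ((√3 : ℝ) : ℂ) * u30 1 := by
    rw [rot3_two]
    apply Complex.ext
    · simp only [u30, Complex.sub_re, Complex.one_re, Complex.conj_re, w3_re, Complex.re_ofReal_mul]
      nlinarith
    · simp only [u30, Complex.sub_im, Complex.one_im, Complex.conj_im, w3_im, Complex.im_ofReal_mul]
      ring
  constructor
  · rw [Complex.real_smul]
    linear_combination x * e1
  · rw [Complex.real_smul]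
    linear_combination x * e2

theorem three_gen (h : RotBody K w3) (he : Ends K bot top) : Cov K ∨ ∃ e : ℂ, e ≠ 0 ∧
    e ∉ interior (Prod.fst '' K) ∧ (e, top) ∈ K ∧ (e, bot) ∈ K ∧ (∀ y ∈ sec K top, InT e y) ∧
    ∀ y ∈ sec K bot, InT e y := by
  have hs := sqrt3_sq
  have hs0 := sqrt3_pos
  have hMz := zero_mem_M he
  have hMconv : Convex ℝ (Prod.fst '' K) := h.conv.linear_image (LinearMap.fst ℝ ℂ ℝ)
  have hcT := sec_convex h.conv top
  have hcB := sec_convex h.conv bot
  have hiT := h.inv3 top
  have hiB := h.inv3 bot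
  have hT := end_struct hcT hiT (fun x hx hx0 => h.fat w3_im_ne hx hx0) hMz
  have hB := end_struct hcB hiB (fun x hx hx0 => h.fat w3_im_ne hx hx0) hMz
  have htriv : ∀ {p : ℝ → ℂ}, ∀ᶠ t in 𝓝[>] (0 : ℝ), (fun _ : ℂ => True) (p t) :=
    fun {p} => Eventually.of_forall fun _ => trivial
  rcases hT with hT | ⟨xt, ct, hxt, hxtM, hxt0, h0t, hT⟩
  · rcases hB with hB | ⟨xb, cb, hxb, hxbM, hxb0, h0b, hB⟩
    · left
      exact combine h he (σ := 1) (Or.inl rfl) (c₀ := 1) (by simp) (ct := 0) (cb := 0)
        (Pt := fun _ => True) (Pb := fun _ => True) (fun c hc _ _ => hT c hc)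
        (fun c hc _ _ => hB c hc) (Eventually.of_forall fun _ => trivial)
        (Eventually.of_forall fun _ => trivial)
    · left
      obtain ⟨u1, u2⟩ := unit_vec hxb0
      have hn := norm_pos_iff.2 hxb0
      refine combine h he (σ := 1) (Or.inl rfl) (c₀ := -(xb / (‖xb‖ : ℂ)))
        (by rw [norm_neg, u1]) (ct := 0) (cb := cb ^ 6)
        (Pt := fun _ => True) (Pb := fun c => ∃ k, PI (sec K bot) xb (rot3 k * c))
        (fun c hc _ _ => hT c hc) hB (Eventually.of_forall fun _ => trivial) ?_
      have := ev_sector hcB h0b hiB hxb hxb0 (c := xb / (‖xb‖ : ℂ)) (σ := 1) (Or.inl rfl)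
        (by rw [u2, Complex.ofReal_re, Complex.ofReal_im]; simp)
        (by rw [u2, Complex.ofReal_re, Complex.ofReal_im]; simpa using hxb0)
      filter_upwards [this] with t ht
      refine ⟨0, ?_⟩
      rw [rot3_zero, one_mul, neg_mul, neg_neg]
      exact ht
  · rcases hB with hB | ⟨xb, cb, hxb, hxbM, hxb0, h0b, hB⟩
    · left
      obtain ⟨u1, u2⟩ := unit_vec hxt0
      have hn := norm_pos_iff.2 hxt0
      refine combine h he (σ := 1) (Or.inl rfl) (c₀ := xt / (‖xt‖ : ℂ))
        u1 (ct := ct ^ 6) (cb := 0)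
        (Pt := fun c => ∃ k, PI (sec K top) xt (rot3 k * c)) (Pb := fun _ => True)
        hT (fun c hc _ _ => hB c hc) ?_ (Eventually.of_forall fun _ => trivial)
      have := ev_sector hcT h0t hiT hxt hxt0 (c := xt / (‖xt‖ : ℂ)) (σ := 1) (Or.inl rfl)
        (by rw [u2, Complex.ofReal_re, Complex.ofReal_im]; simp)
        (by rw [u2, Complex.ofReal_re, Complex.ofReal_im]; simpa using hxt0)
      filter_upwards [this] with t ht
      refine ⟨0, ?_⟩
      rw [rot3_zero, one_mul]
      exact ht
    · -- both ends have a failing point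
      obtain ⟨k0, hk0⟩ := sector60 (conj xt * xb)
      -- replace `xb` by a rotated point
      obtain ⟨y, hy⟩ : ∃ y, y = rot3 k0 * xb := ⟨_, rfl⟩
      have hyS : y ∈ sec K bot := by
        rw [hy]
        exact hiB _ hxb _
      have hxby : xb = rot3 (-k0) * y := by
        rw [hy, ← mul_assoc, ← rot3_mul, neg_add_cancel, rot3_zero, one_mul]
      have hy0 : y ≠ 0 := by
        rw [hy]
        exact mul_ne_zero (rot3_ne _) hxb0
      have hinvM : Inv3 (Prod.fst '' K) := by
        rintro _ ⟨⟨a, z⟩, ha, rfl⟩ k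
        exact ⟨(rot3 k * a, z), h.inv3 z a ha k, rfl⟩
      have hyM : y ∉ interior (Prod.fst '' K) := by
        intro hcon
        apply hxbM
        rw [hxby]
        exact hinvM.int hcon _
      have hB' : ∀ c, ‖c‖ = 1 → c ^ 6 ≠ cb ^ 6 → (∃ k, PI (sec K bot) y (rot3 k * c)) →
          ∀ x ∈ sec K bot, x ∉ interior (Prod.fst '' K) → ∃ k, PI (sec K bot) x (rot3 k * c) := by
        intro c hc h6 ⟨k, hk⟩
        refine hB c hc h6 ⟨-k0 + k, ?_⟩
        have := hk.rot hiB (-k0)
        rw [← hxby, ← mul_assoc, ← rot3_mul] at this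
        exact this
      obtain ⟨q, hq⟩ : ∃ q, q = conj xt * y := ⟨_, rfl⟩
      have hq' : conj xt * xb * rot3 k0 = q := by
        rw [hq, hy]
        ring
      rw [hq'] at hk0
      have hq0 : q ≠ 0 := by
        rw [hq]
        exact mul_ne_zero (by rwa [Ne, map_eq_zero]) hy0
      obtain ⟨u1, u2⟩ := unit_vec hxt0
      have hn := norm_pos_iff.2 hxt0
      obtain ⟨v, hv⟩ : ∃ v, v = xt / (‖xt‖ : ℂ) := ⟨_, rfl⟩
      rw [← hv] at u1 u2
      have hnc : ((‖xt‖ : ℝ) : ℂ) ≠ 0 := by exact_mod_cast hn.ne'
      have hxtv : xt = (‖xt‖ : ℂ) * v := by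
        rw [hv]
        field_simp
      by_cases hb0 : q.im = 0
      · -- same direction
        have hqre : 0 < q.re := by
          rw [hb0, abs_zero] at hk0
          have h1 : 0 ≤ q.re := by
            by_contra hcon
            push Not at hcon
            nlinarith
          rcases h1.lt_or_eq with h2 | h2
          · exact h2
          · exact absurd (Complex.ext h2.symm hb0) hq0
        obtain ⟨r, hr⟩ : ∃ r, r = q.re / ‖xt‖ ^ 2 := ⟨_, rfl⟩
        have hr0 : 0 < r := by
          rw [hr]
          positivity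
        have hyr : y = r • xt := by
          have hxtc : conj xt ≠ 0 := by rwa [Ne, map_eq_zero]
          apply mul_left_cancel₀ hxtc
          have hqc : q = (q.re : ℂ) := Complex.ext (by simp) (by simp [hb0])
          rw [← hq, hqc, Complex.real_smul, mul_left_comm, ← Complex.normSq_eq_conj_mul_self,
            Complex.normSq_eq_norm_sq, hr]
          push_cast
          field_simp
        have hr1 : r = 1 := by
          rcases lt_trichotomy r 1 with h1 | h1 | h1
          · exfalso
            apply hyM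
            refine radial hMconv hMz (ε := 1 / r - 1) ?_ ?_
            · rw [sub_pos, one_lt_div hr0]
              exact h1
            · refine ⟨(xt, top), hxt, ?_⟩
              rw [hyr, smul_smul, add_sub_cancel, one_div_mul_cancel hr0.ne', one_smul]
          · exact h1
          · exfalso
            apply hxtM
            refine radial hMconv hMz (ε := r - 1) (by linarith) ?_
            refine ⟨(y, bot), hyS, ?_⟩
            rw [hyr, add_sub_cancel]
        rw [hr1, one_smul] at hyr
        rw [hyr] at hyS hyM hB'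
        obtain ⟨s1, s2⟩ := u30_side xt
        have hcn : ‖v * u30 1‖ = 1 := by
          rw [norm_mul, u1, u30_norm (Or.inl rfl), one_mul]
        obtain ⟨k1, hk1⟩ := u30_rot (σ := -1) (Or.inr rfl)
        rw [neg_neg] at hk1
        have hpos : 0 < (√3 * ‖xt‖)⁻¹ := by positivity
        have e1 : v * u30 1 = ((√3 * ‖xt‖)⁻¹ : ℝ) • (xt - rot3 2 * xt) := by
          rw [s2, smul_smul, mul_inv, mul_right_comm, inv_mul_cancel₀ hs0.ne', one_mul,
            Complex.real_smul]
          push_cast
          rw [hv]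
          ring
        have e2 : v * u30 (-1) = ((√3 * ‖xt‖)⁻¹ : ℝ) • (xt - rot3 1 * xt) := by
          rw [s1, smul_smul, mul_inv, mul_right_comm, inv_mul_cancel₀ hs0.ne', one_mul,
            Complex.real_smul]
          push_cast
          rw [hv]
          ring
        have e3 : ∀ t σ, rot3 k1 * (-(v * u30 1 * rt σ t)) = v * u30 (-1) * rt σ t := by
          intro t σ
          rw [← hk1]
          ring
        rcases PI_side hcT h0t hiT hxt hxt0 2 (by decide) hpos e1 with hP | hP
        · left
          refine combine h he (σ := 1) (Or.inl rfl) hcn hT hB' ?_ ?_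
          · filter_upwards [ev_open hP 1] with t ht
            refine ⟨0, ?_⟩
            rwa [rot3_zero, one_mul]
          · have := ev_sector hcB h0b hiB hyS hxt0 (c := v * u30 (-1)) (σ := 1) (Or.inl rfl)
              (by
                rw [← mul_assoc, u2, Complex.re_ofReal_mul, Complex.im_ofReal_mul]
                simp only [u30]
                nlinarith) (by
                rw [← mul_assoc, u2, Complex.re_ofReal_mul, Complex.im_ofReal_mul]
                simp only [u30]
                have : 0 < ‖xt‖ * √3 := by positivity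
                nlinarith)
            filter_upwards [this] with t ht
            refine ⟨k1, ?_⟩
            rwa [e3]
        · rcases PI_side hcB h0b hiB hyS hxt0 1 (by decide) hpos e2 with hQ | hQ
          · left
            refine combine h he (σ := -1) (Or.inr rfl) hcn hT hB' ?_ ?_
            · have := ev_sector hcT h0t hiT hxt hxt0 (c := v * u30 1) (σ := -1) (Or.inr rfl)
                (by
                  rw [← mul_assoc, u2, Complex.re_ofReal_mul, Complex.im_ofReal_mul]
                  simp only [u30]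
                  nlinarith) (by
                  rw [← mul_assoc, u2, Complex.re_ofReal_mul, Complex.im_ofReal_mul]
                  simp only [u30]
                  have : 0 < ‖xt‖ * √3 := by positivity
                  nlinarith)
              filter_upwards [this] with t ht
              refine ⟨0, ?_⟩
              rwa [rot3_zero, one_mul]
            · filter_upwards [ev_open hQ (-1)] with t ht
              refine ⟨k1, ?_⟩
              rwa [e3]
          · right
            exact ⟨xt, hxt0, hxtM, hxt, hyS, hP, hQ⟩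
      · -- different directions
        left
        obtain ⟨σ, hσ, hσb⟩ : ∃ σ : ℝ, (σ = 1 ∨ σ = -1) ∧ |q.im| = σ * q.im := by
          rcases abs_cases q.im with ⟨h1, _⟩ | ⟨h1, _⟩
          · exact ⟨1, Or.inl rfl, by rw [h1, one_mul]⟩
          · exact ⟨-1, Or.inr rfl, by rw [h1, neg_one_mul]⟩
        have hσb0 : 0 < σ * q.im := by
          rw [← hσb]
          exact abs_pos.2 hb0
        rw [hσb] at hk0
        have hσ2 : σ * σ = 1 := by
          rcases hσ with rfl | rfl <;> norm_num
        have hσ' : -σ = 1 ∨ -σ = -1 := by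
          rcases hσ with rfl | rfl
          · right; rfl
          · left; norm_num
        have hcn : ‖v * u30 (-σ)‖ = 1 := by
          rw [norm_mul, u1, u30_norm hσ', one_mul]
        obtain ⟨k1, hk1⟩ := u30_rot hσ
        refine combine h he hσ hcn hT hB' ?_ ?_
        · have := ev_sector hcT h0t hiT hxt hxt0 (c := v * u30 (-σ)) hσ
            (by
              rw [← mul_assoc, u2, Complex.re_ofReal_mul, Complex.im_ofReal_mul]
              simp only [u30]
              have : ‖xt‖ * (√3 / 2) + σ * √3 * (‖xt‖ * (-σ / 2)) =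
                ‖xt‖ * √3 / 2 * (1 - σ * σ) := by ring
              rw [this, hσ2]
              simp) (by
              rw [← mul_assoc, u2, Complex.re_ofReal_mul, Complex.im_ofReal_mul]
              simp only [u30]
              have : ‖xt‖ * (√3 / 2) - σ * √3 * (‖xt‖ * (-σ / 2)) =
                ‖xt‖ * √3 / 2 * (1 + σ * σ) := by ring
              rw [this, hσ2]
              positivity)
          filter_upwards [this] with t ht
          refine ⟨0, ?_⟩
          rwa [rot3_zero, one_mul]
        · -- `conj y * v = conj q / ‖xt‖`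
          have e4 : conj y * (v * u30 σ) = ((‖xt‖⁻¹ : ℝ) : ℂ) * (conj q * u30 σ) := by
            rw [hv, hq, map_mul, Complex.conj_conj]
            push_cast
            field_simp
          have := ev_sector hcB h0b hiB hyS hy0 (c := v * u30 σ) hσ
            (by
              rw [e4, Complex.re_ofReal_mul, Complex.im_ofReal_mul]
              simp only [u30, Complex.mul_re, Complex.mul_im, Complex.conj_re, Complex.conj_im]
              have : ‖xt‖⁻¹ * (q.re * (√3 / 2) - -q.im * (σ / 2)) + σ * √3 *
                  (‖xt‖⁻¹ * (q.re * (σ / 2) + -q.im * (√3 / 2))) =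
                  ‖xt‖⁻¹ * ((1 + σ * σ) / 2 * (√3 * q.re) + σ * q.im * (1 - √3 * √3) / 2) := by
                ring
              rw [this, hσ2, hs]
              refine mul_nonneg (by positivity) ?_
              linarith) (by
              rw [e4, Complex.re_ofReal_mul, Complex.im_ofReal_mul]
              simp only [u30, Complex.mul_re, Complex.mul_im, Complex.conj_re, Complex.conj_im]
              have : ‖xt‖⁻¹ * (q.re * (√3 / 2) - -q.im * (σ / 2)) - σ * √3 *
                  (‖xt‖⁻¹ * (q.re * (σ / 2) + -q.im * (√3 / 2))) =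
                  ‖xt‖⁻¹ * ((1 - σ * σ) / 2 * (√3 * q.re) + σ * q.im * (1 + √3 * √3) / 2) := by
                ring
              rw [this, hσ2, hs]
              refine mul_pos (by positivity) ?_
              linarith)
          filter_upwards [this] with t ht
          refine ⟨k1, ?_⟩
          have e5 : rot3 k1 * (-(v * u30 (-σ) * rt σ t)) = v * u30 σ * rt σ t := by
            rw [← hk1]
            ring
          rwa [e5]

end

end Pool.Agent.W867.Cov3
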