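import Pool.Agent.W867.Cov3.Sym2

set_option autoImplicit false

/-! The covering theorem in matrix form, and its polar (separation) form. -/

open scoped InnerProductSpace
open Metric

namespace Pool.Agent.W867.Cov3.Polar

/-- three-dimensional Euclidean space -/
abbrev E3 : Type := EuclideanSpace ℝ (Fin 3)

/-- the linear self-map `x ↦ M x` of `ℝ³` -/
noncomputable def act (M : Matrix (Fin 3) (Fin 3) ℝ) (x : E3) : E3 :=
  WithLp.toLp 2 (M.mulVec (WithLp.ofLp x))

theorem act_add (M : Matrix (Fin 3) (Fin 3) ℝ) (x y : E3) : act M (x + y) = act M x + act M y := by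
  simp only [act]
  rw [WithLp.ofLp_add, Matrix.mulVec_add, WithLp.toLp_add]

theorem act_sub (M : Matrix (Fin 3) (Fin 3) ℝ) (x y : E3) : act M (x - y) = act M x - act M y := by
  have := act_add M (x - y) y
  rw [sub_add_cancel] at this
  rw [this, add_sub_cancel_right]

theorem act_mul (M N : Matrix (Fin 3) (Fin 3) ℝ) (x : E3) : act (M * N) x = act M (act N x) := by
  simp only [act, Matrix.mulVec_mulVec]

theorem inner_act (M : Matrix (Fin 3) (Fin 3) ℝ) (x y : E3) :
    ⟪x, act M y⟫_ℝ = ⟪act M.transpose x, y⟫_ℝ := by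
  simp only [act, EuclideanSpace.inner_eq_star_dotProduct, star_trivial]
  rw [dotProduct_comm, Matrix.dotProduct_mulVec, Matrix.mulVec_transpose, dotProduct_comm]

/-- the covering theorem for linear symmetries in matrix form -/
theorem cov_mat (K : Set E3) (hK : Convex ℝ K) (hc : IsCompact K) (hint : (interior K).Nonempty)
    (M : Matrix (Fin 3) (Fin 3) ℝ) (hg : act M '' K = K)
    (h : (0 < M.det ∧ ∃ x, act M (act M x) ≠ x) ∨
      ∃ x, act M (act M (act M (act M x))) ≠ x) : Cov8 K := by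
  let g : E3 →ᵃ[ℝ] E3 :=
    { toFun := act M
      linear := Matrix.toEuclideanLin M
      map_vadd' := fun p v => by
        simp only [vadd_eq_add, Matrix.toLpLin_apply]
        exact act_add M v p }
  have hgf : ∀ x, g x = act M x := fun x => rfl
  have hdet : LinearMap.det g.linear = M.det := by
    change LinearMap.det (Matrix.toLin (PiLp.basisFun 2 ℝ (Fin 3)) (PiLp.basisFun 2 ℝ (Fin 3)) M) =
      M.det
    rw [LinearMap.det_toLin]
  refine cov_affine' (by simp) hK hc hint g hg ?_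
  rw [hdet]
  exact h

/-- if the polar body of `K` with respect to `o` is covered by `N` translates of its interior then
`N` hyperplanes separate all the faces of `K` strictly from `o` -/
theorem sep_of_cov {E : Type*} [NormedAddCommGroup E] [InnerProductSpace ℝ E]
    [FiniteDimensional ℝ E] (N : ℕ) (K : Set E) (hKc : IsCompact K) (o : E)
    (ho : o ∈ interior K)
    (hcov : ∀ P : Set E, P = {v | ∀ y ∈ K, ⟪v, y - o⟫_ℝ ≤ 1} → Convex ℝ P → IsCompact P →
      (interior P).Nonempty →
      ∃ T : Finset E, T.card ≤ N ∧ P ⊆ ⋃ t ∈ T, (fun x => t + x) '' interior P) :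
    ∃ H : Finset (E × ℝ), H.card ≤ N ∧ (∀ h ∈ H, h.1 ≠ 0) ∧
      ∀ u x₀ : E, u ≠ 0 → x₀ ∈ K → (∀ y ∈ K, ⟪u, y⟫_ℝ ≤ ⟪u, x₀⟫_ℝ) →
        ∃ h ∈ H, ⟪h.1, o⟫_ℝ < h.2 ∧ ∀ x ∈ K, ⟪u, x⟫_ℝ = ⟪u, x₀⟫_ℝ → h.2 < ⟪h.1, x⟫_ℝ := by
  classical
  -- a ball around `o`
  obtain ⟨r, hr, hrK⟩ : ∃ r > 0, closedBall o r ⊆ K := by
    obtain ⟨r, hr, h⟩ := Metric.isOpen_iff.mp isOpen_interior o ho
    exact ⟨r / 2, by positivity, (closedBall_subset_ball (by linarith)).trans
      (h.trans interior_subset)⟩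
  obtain ⟨R, hR⟩ : ∃ R : ℝ, ∀ y ∈ K, ‖y - o‖ ≤ R := by
    obtain ⟨R, hR⟩ := hKc.isBounded.subset_closedBall o
    exact ⟨R, fun y hy => by simpa [dist_eq_norm] using hR hy⟩
  have hR0 : 0 ≤ R := (norm_nonneg _).trans (hR o (interior_subset ho))
  -- the polar body
  let P : Set E := {v | ∀ y ∈ K, ⟪v, y - o⟫_ℝ ≤ 1}
  have hPc : Convex ℝ P := by
    intro v hv w hw a b ha hb hab y hy
    rw [inner_add_left, real_inner_smul_left, real_inner_smul_left]
    nlinarith [hv y hy, hw y hy]
  have hPcl : IsClosed P := by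
    have : P = ⋂ y ∈ K, {v | ⟪v, y - o⟫_ℝ ≤ 1} := by
      ext v; simp [P]
    rw [this]
    refine isClosed_biInter fun y _ => isClosed_le ?_ continuous_const
    exact continuous_id.inner continuous_const
  have hPb : ∀ v ∈ P, ‖v‖ ≤ 1 / r := by
    intro v hv
    rcases eq_or_ne v 0 with rfl | hv0
    · simp; positivity
    have hn : 0 < ‖v‖ := norm_pos_iff.mpr hv0
    have hy : o + (r / ‖v‖) • v ∈ K := by
      apply hrK
      rw [mem_closedBall, dist_eq_norm, add_sub_cancel_left, norm_smul, Real.norm_eq_abs,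
        abs_of_pos (by positivity), div_mul_cancel₀ _ hn.ne']
    have h := hv _ hy
    rw [add_sub_cancel_left, real_inner_smul_right, real_inner_self_eq_norm_sq] at h
    rw [le_div_iff₀ hr]
    have e : r / ‖v‖ * ‖v‖ ^ 2 = ‖v‖ * r := by field_simp
    linarith
  have hPk : IsCompact P := by
    refine Metric.isCompact_of_isClosed_isBounded hPcl ?_
    refine (isBounded_iff_subset_closedBall 0).mpr ⟨1 / r, fun v hv => ?_⟩
    simpa using hPb v hv
  have hPi : (interior P).Nonempty := by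
    refine ⟨0, ?_⟩
    rw [mem_interior]
    refine ⟨ball 0 (1 / (R + 1)), ?_, isOpen_ball, by simp; positivity⟩
    intro v hv y hy
    rw [mem_ball_zero_iff] at hv
    calc ⟪v, y - o⟫_ℝ ≤ ‖v‖ * ‖y - o‖ := real_inner_le_norm _ _
      _ ≤ 1 / (R + 1) * R := by
          gcongr
          exact hR y hy
      _ ≤ 1 := by
          rw [div_mul_eq_mul_div, one_mul, div_le_one (by positivity)]
          linarith
  obtain ⟨T, hcard, hT⟩ := hcov P rfl hPc hPk hPi
  -- a Lebesgue number
  obtain ⟨δ, hδ, hleb⟩ : ∃ δ > 0, ∀ v ∈ P, ∃ t ∈ T, ball v δ ⊆ (fun x => t + x) '' interior P := by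
    have hop : ∀ t : T, IsOpen ((fun x => (t : E) + x) '' interior P) :=
      fun t => (Homeomorph.addLeft (t : E)).isOpenMap _ isOpen_interior
    have hcov : P ⊆ ⋃ t : T, (fun x => (t : E) + x) '' interior P := by
      intro v hv
      have h := hT hv
      simp only [Set.mem_iUnion] at h ⊢
      obtain ⟨t, ht, h⟩ := h
      exact ⟨⟨t, ht⟩, h⟩
    obtain ⟨δ, hδ, h⟩ := lebesgue_number_lemma_of_metric hPk hop hcov
    refine ⟨δ, hδ, fun v hv => ?_⟩
    obtain ⟨t, ht⟩ := h v hv
    exact ⟨t, t.2, ht⟩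
  set ε : ℝ := δ / 2 * r with hε
  have hε0 : 0 < ε := by positivity
  refine ⟨(T.filter (fun t => t ≠ 0)).image (fun t => (t, ⟪t, o⟫_ℝ + ε / 2)), ?_, ?_, ?_⟩
  · refine le_trans ?_ hcard
    exact Finset.card_image_le.trans (Finset.card_filter_le _ _)
  · intro h hh
    rw [Finset.mem_image] at hh
    obtain ⟨t, ht, rfl⟩ := hh
    exact (Finset.mem_filter.mp ht).2
  · intro u x₀ hu hx₀ hmax
    have hun : 0 < ‖u‖ := norm_pos_iff.mpr hu
    -- the support function is positive
    have hpos : 0 < ⟪u, x₀ - o⟫_ℝ := by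
      have hy : o + (r / ‖u‖) • u ∈ K := by
        apply hrK
        rw [mem_closedBall, dist_eq_norm, add_sub_cancel_left, norm_smul, Real.norm_eq_abs,
          abs_of_pos (by positivity), div_mul_cancel₀ _ hun.ne']
      have h := hmax _ hy
      rw [inner_add_right, real_inner_smul_right, real_inner_self_eq_norm_sq] at h
      rw [inner_sub_right]
      have : 0 < r / ‖u‖ * ‖u‖ ^ 2 := by positivity
      linarith
    set c : ℝ := ⟪u, x₀ - o⟫_ℝ with hc
    have hvP : c⁻¹ • u ∈ P := by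
      intro y hy
      rw [real_inner_smul_left, inv_mul_le_iff₀ hpos, mul_one, hc, inner_sub_right,
        inner_sub_right]
      linarith [hmax y hy]
    obtain ⟨t, htT, ht⟩ := hleb _ hvP
    -- the key inequality
    have key : ∀ x ∈ K, ⟪u, x⟫_ℝ = ⟪u, x₀⟫_ℝ → ε ≤ ⟪t, x - o⟫_ℝ := by
      intro x hx hxu
      have h1 : ⟪c⁻¹ • u, x - o⟫_ℝ = 1 := by
        rw [real_inner_smul_left, inner_sub_right, hxu, ← inner_sub_right, ← hc,
          inv_mul_cancel₀ hpos.ne']
      have h2 : r ≤ ‖x - o‖ := by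
        have h3 := real_inner_le_norm (c⁻¹ • u) (x - o)
        rw [h1] at h3
        have h4 := hPb _ hvP
        have h5 : 1 ≤ 1 / r * ‖x - o‖ := h3.trans (by gcongr)
        rw [one_div, ← div_eq_inv_mul, le_div_iff₀ hr] at h5
        linarith
      have hxn : 0 < ‖x - o‖ := hr.trans_le h2
      have hz : c⁻¹ • u + (δ / 2 / ‖x - o‖) • (x - o) ∈ ball (c⁻¹ • u) δ := by
        rw [mem_ball, dist_eq_norm, add_sub_cancel_left, norm_smul, Real.norm_eq_abs,
          abs_of_pos (by positivity), div_mul_cancel₀ _ hxn.ne']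
        linarith
      obtain ⟨p, hp, hpe⟩ := ht hz
      have hp' : ⟪p, x - o⟫_ℝ ≤ 1 := interior_subset hp x hx
      have hpe' : p = c⁻¹ • u + (δ / 2 / ‖x - o‖) • (x - o) - t := by
        rw [← hpe]; simp
      rw [hpe', inner_sub_left, inner_add_left, h1, real_inner_smul_left,
        real_inner_self_eq_norm_sq] at hp'
      have e : δ / 2 / ‖x - o‖ * ‖x - o‖ ^ 2 = δ / 2 * ‖x - o‖ := by field_simp
      rw [e] at hp'
      have : ε ≤ δ / 2 * ‖x - o‖ := by
        rw [hε]; gcongr
      linarith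
    have ht0 : t ≠ 0 := by
      rintro rfl
      have h := key x₀ hx₀ rfl
      rw [inner_zero_left] at h
      linarith
    refine ⟨(t, ⟪t, o⟫_ℝ + ε / 2), Finset.mem_image_of_mem _ (Finset.mem_filter.mpr ⟨htT, ht0⟩),
      by simp only; linarith, fun x hx hxu => ?_⟩
    have h := key x hx hxu
    rw [inner_sub_right] at h
    simp only
    linarith

/-- the separation theorem: `K` invariant under `x ↦ o + M (x - o)` -/
theorem sep_mat (K : Set E3) (hc : IsCompact K) (o : E3) (ho : o ∈ interior K)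
    (M : Matrix (Fin 3) (Fin 3) ℝ) (hg : (fun x => o + act M (x - o)) '' K = K)
    (h : (0 < M.det ∧ M ^ 2 ≠ 1) ∨ M ^ 4 ≠ 1) :
    ∃ H : Finset (E3 × ℝ), H.card ≤ 8 ∧ (∀ h ∈ H, h.1 ≠ 0) ∧
      ∀ u x₀ : E3, u ≠ 0 → x₀ ∈ K → (∀ y ∈ K, ⟪u, y⟫_ℝ ≤ ⟪u, x₀⟫_ℝ) →
        ∃ h ∈ H, ⟪h.1, o⟫_ℝ < h.2 ∧ ∀ x ∈ K, ⟪u, x⟫_ℝ = ⟪u, x₀⟫_ℝ → h.2 < ⟪h.1, x⟫_ℝ := by
  refine sep_of_cov 8 K hc o ho ?_
  intro P hP hPc hPk hPi
  -- `M` is invertible
  have hmaps : ∀ y ∈ K, o + act M (y - o) ∈ K := fun y hy => by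
    rw [← hg]
    exact ⟨y, hy, rfl⟩
  have hsurjK : ∀ y ∈ K, ∃ x ∈ K, o + act M (x - o) = y := fun y hy => by
    rw [← hg] at hy
    exact hy
  have hdet : M.det ≠ 0 := by
    intro h0
    obtain ⟨v, hv0, hv⟩ := Matrix.exists_vecMul_eq_zero_iff.2 h0
    obtain ⟨r, hr, hrK⟩ := Metric.isOpen_iff.mp isOpen_interior o ho
    set w : E3 := WithLp.toLp 2 v with hw
    have hw0 : w ≠ 0 := by
      intro h1
      apply hv0
      have := congrArg WithLp.ofLp h1
      simpa [hw] using this
    have hwn := norm_pos_iff.2 hw0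
    have h1 : o + ((r / 2) / ‖w‖) • w ∈ K := by
      apply interior_subset
      apply hrK
      rw [mem_ball, dist_eq_norm, add_sub_cancel_left, norm_smul, Real.norm_of_nonneg
        (by positivity), div_mul_cancel₀ _ hwn.ne']
      linarith
    obtain ⟨x, -, hx⟩ := hsurjK _ h1
    have h2 : act M (x - o) = ((r / 2) / ‖w‖) • w := by
      have := congrArg (fun z => z - o) hx
      simpa using this
    have h3 : ⟪w, act M (x - o)⟫_ℝ = 0 := by
      rw [inner_act]
      have : act M.transpose w = 0 := by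
        simp only [act, hw]
        rw [Matrix.mulVec_transpose]
        change WithLp.toLp 2 (Matrix.vecMul v M) = 0
        rw [hv]
        rfl
      rw [this, inner_zero_left]
    rw [h2, real_inner_smul_right, real_inner_self_eq_norm_sq] at h3
    have : 0 < r / 2 / ‖w‖ * ‖w‖ ^ 2 := by positivity
    linarith
  have hinv : M.transpose * M.transpose⁻¹ = 1 := by
    apply Matrix.mul_nonsing_inv
    rw [Matrix.det_transpose]
    exact isUnit_iff_ne_zero.2 hdet
  have hgP : act M.transpose '' P = P := by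
    rw [hP]
    apply Set.Subset.antisymm
    · rintro _ ⟨v, hv, rfl⟩ y hy
      rw [← inner_act]
      have := hv _ (hmaps y hy)
      rwa [add_sub_cancel_left] at this
    · intro v hv
      refine ⟨act M.transpose⁻¹ v, ?_, ?_⟩
      · intro y hy
        obtain ⟨x, hx, rfl⟩ := hsurjK y hy
        rw [add_sub_cancel_left, inner_act, ← act_mul, hinv]
        have : act 1 v = v := by simp [act]
        rw [this]
        exact hv x hx
      · rw [← act_mul, hinv]
        simp [act]
  have act_ne : ∀ A : Matrix (Fin 3) (Fin 3) ℝ, A ≠ 1 → ∃ x, act A x ≠ x := by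
    intro A hA
    by_contra hcon
    push Not at hcon
    apply hA
    ext i j
    have h1 := hcon (WithLp.toLp 2 (Pi.single j 1))
    have h2 := congrArg (fun z : E3 => WithLp.ofLp z i) h1
    simp only [act, Matrix.mulVec_single_one] at h2
    rw [Matrix.one_apply]
    simpa [Pi.single_apply, Matrix.col_apply] using h2
  refine cov_mat P hPc hPk hPi M.transpose hgP ?_
  rw [Matrix.det_transpose]
  rcases h with ⟨h1, h2⟩ | h4
  · left
    refine ⟨h1, ?_⟩
    obtain ⟨x, hx⟩ := act_ne (M.transpose ^ 2) (by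
      rw [← Matrix.transpose_pow]
      intro h3
      apply h2
      rw [← Matrix.transpose_transpose (M ^ 2), h3, Matrix.transpose_one])
    refine ⟨x, ?_⟩
    rwa [sq, act_mul] at hx
  · right
    obtain ⟨x, hx⟩ := act_ne (M.transpose ^ 4) (by
      rw [← Matrix.transpose_pow]
      intro h3
      apply h4
      rw [← Matrix.transpose_transpose (M ^ 4), h3, Matrix.transpose_one])
    refine ⟨x, ?_⟩
    have : M.transpose ^ 4 = M.transpose * (M.transpose * (M.transpose * M.transpose)) := by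
      rw [show (4 : ℕ) = 1 + 1 + 1 + 1 from rfl, pow_add, pow_add, pow_add, pow_one]
      simp only [Matrix.mul_assoc]
    rwa [this, act_mul, act_mul, act_mul] at hx

end Pool.Agent.W867.Cov3.Polar
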