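import Pool.Agent.W867.Cov3.Basic

/-!
Convex bodies in `ℂ × ℝ` with a rotational symmetry; planar lemmas.
-/

set_option autoImplicit false

open Set Topology Filter
open scoped ComplexConjugate

namespace Pool.Agent.W867.Cov3

theorem convex3 {E : Type*} [AddCommGroup E] [Module ℝ E] {S : Set E} (hS : Convex ℝ S)
    {x y z : E} (hx : x ∈ S) (hy : y ∈ S) (hz : z ∈ S) {a b c : ℝ} (ha : 0 ≤ a) (hb : 0 ≤ b)
    (hc : 0 ≤ c) (h : a + b + c = 1) : a • x + b • y + c • z ∈ S := by
  have := hS.sum_mem (t := Finset.univ) (w := ![a, b, c]) (z := ![x, y, z])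
    (by intro i _; fin_cases i <;> simpa) (by simp [Fin.sum_univ_three, h])
    (by intro i _; fin_cases i <;> simpa)
  simpa [Fin.sum_univ_three] using this

/-- radial lemma -/
theorem radial {E : Type*} [AddCommGroup E] [Module ℝ E] [TopologicalSpace E]
    [IsTopologicalAddGroup E] [ContinuousSMul ℝ E] {S : Set E} (hS : Convex ℝ S)
    (h0 : (0 : E) ∈ interior S) {y : E} {ε : ℝ} (hε : 0 < ε) (h : (1 + ε) • y ∈ S) :
    y ∈ interior S := by
  have h1 : y = (ε / (1 + ε)) • (0 : E) + (1 / (1 + ε)) • ((1 + ε) • y) := by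
    rw [smul_zero, zero_add, smul_smul, one_div_mul_cancel (by positivity), one_smul]
  rw [h1]
  exact hS.combo_interior_self_mem_interior h0 h (by positivity) (by positivity)
    (by field_simp; ring)

/-- conversely -/
theorem radial_ex {E : Type*} [AddCommGroup E] [Module ℝ E] [TopologicalSpace E]
    [IsTopologicalAddGroup E] [ContinuousSMul ℝ E] {S : Set E} {y : E} (h : y ∈ interior S) :
    ∃ ε : ℝ, 0 < ε ∧ (1 + ε) • y ∈ interior S := by
  have hcont : ContinuousAt (fun ε : ℝ => (1 + ε) • y) 0 := by fun_prop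
  have h1 := hcont.eventually_mem (isOpen_interior.mem_nhds (by simpa using h))
  obtain ⟨ε, hε, h2⟩ := Metric.eventually_nhds_iff.1 h1
  refine ⟨ε / 2, by linarith, h2 ?_⟩
  rw [Real.dist_eq, sub_zero, abs_of_pos (by linarith)]
  linarith

/-- averages of rotated points -/
theorem mem_of_rot {S : Set ℂ} (hS : Convex ℝ S) (hc : IsClosed S) {ω x y : ℂ} (hω : ‖ω‖ = 1)
    (hne : ω ≠ 1) (h : ∀ k : ℕ, ω ^ k * x + y ∈ S) : y ∈ S := by
  have hne' : ω - 1 ≠ 0 := sub_ne_zero.2 hne
  let s : ℕ → ℂ := fun n => ∑ k ∈ Finset.range (n + 1), ((1 : ℝ) / (n + 1)) • (ω ^ k * x + y)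
  have hs : ∀ n, s n ∈ S := by
    intro n
    refine hS.sum_mem (fun k _ => by positivity) ?_ (fun k _ => h k)
    rw [Finset.sum_const, Finset.card_range, nsmul_eq_mul]
    push_cast
    field_simp
  have hs2 : ∀ n, s n = y + ((1 : ℝ) / (n + 1)) • ((ω ^ (n + 1) - 1) / (ω - 1) * x) := by
    intro n
    simp only [s]
    rw [← Finset.smul_sum, Finset.sum_add_distrib, ← Finset.sum_mul, geom_sum_eq hne,
      Finset.sum_const, Finset.card_range, smul_add, nsmul_eq_mul, add_comm]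
    congr 1
    rw [Complex.real_smul]
    push_cast
    have : (n : ℂ) + 1 ≠ 0 := by exact_mod_cast (Nat.succ_ne_zero n)
    field_simp
  have hlim : Tendsto s atTop (𝓝 y) := by
    rw [show s = fun n : ℕ => y + ((1 : ℝ) / (n + 1)) • ((ω ^ (n + 1) - 1) / (ω - 1) * x) from
      funext hs2]
    have h1 : Tendsto (fun n : ℕ => ((1 : ℝ) / (n + 1)) • ((ω ^ (n + 1) - 1) / (ω - 1) * x))
        atTop (𝓝 0) := by
      refine squeeze_zero_norm (a := fun n : ℕ => ((1 : ℝ) / (n + 1)) * (2 / ‖ω - 1‖ * ‖x‖)) ?_ ?_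
      · intro n
        rw [norm_smul, norm_mul, Real.norm_of_nonneg (by positivity)]
        have h3 : ‖ω ^ (n + 1) - 1‖ ≤ 2 := by
          refine (norm_sub_le _ _).trans ?_
          rw [norm_pow, hω]
          norm_num
        have h4 : ‖(ω ^ (n + 1) - 1) / (ω - 1)‖ ≤ 2 / ‖ω - 1‖ := by
          rw [norm_div]
          gcongr
        gcongr
      · have h2 := (tendsto_one_div_add_atTop_nhds_zero_nat (𝕜 := ℝ)).mul_const
          (2 / ‖ω - 1‖ * ‖x‖)
        simpa using h2
    simpa using tendsto_const_nhds.add h1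
  exact hc.mem_of_tendsto hlim (Eventually.of_forall hs)

/-- a convex body in `ℂ × ℝ` invariant under the rotation `ω` -/
structure RotBody (K : Set (ℂ × ℝ)) (ω : ℂ) : Prop where
  conv : Convex ℝ K
  comp : IsCompact K
  int : (interior K).Nonempty
  norm : ‖ω‖ = 1
  ne : ω ≠ 1
  inv : ∀ x z, (x, z) ∈ K → (ω * x, z) ∈ K
  inv' : ∀ x z, (x, z) ∈ K → (conj ω * x, z) ∈ K

theorem RotBody.inv_pow {K : Set (ℂ × ℝ)} {ω : ℂ} (h : RotBody K ω) (k : ℕ) {x : ℂ} {z : ℝ}
    (hx : (x, z) ∈ K) : (ω ^ k * x, z) ∈ K := by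
  induction k with
  | zero => simpa using hx
  | succ k ih =>
    rw [pow_succ', mul_assoc]
    exact h.inv _ _ ih

theorem mul_conj_unit {ω : ℂ} (h : ‖ω‖ = 1) : ω * conj ω = 1 := by
  rw [Complex.mul_conj, Complex.normSq_eq_norm_sq, h]
  norm_num

theorem RotBody.axis {K : Set (ℂ × ℝ)} {ω : ℂ} (h : RotBody K ω) {x : ℂ} {z : ℝ}
    (hx : (x, z) ∈ K) : ((0 : ℂ), z) ∈ K := by
  refine mem_of_rot (S := sec K z) (sec_convex h.conv z) (sec_closed h.comp.isClosed z)
    (x := x) h.norm h.ne ?_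
  intro k
  rw [add_zero]
  exact h.inv_pow k hx

theorem RotBody.axis_int {K : Set (ℂ × ℝ)} {ω : ℂ} (h : RotBody K ω) {x : ℂ} {z : ℝ}
    (hx : (x, z) ∈ interior K) : ((0 : ℂ), z) ∈ interior K := by
  obtain ⟨r, hr, hball⟩ := Metric.mem_nhds_iff.1 (mem_interior_iff_mem_nhds.1 hx)
  rw [mem_interior_iff_mem_nhds, Metric.mem_nhds_iff]
  refine ⟨r, hr, ?_⟩
  rintro ⟨y, z'⟩ hy
  rw [Metric.mem_ball, Prod.dist_eq, max_lt_iff] at hy
  obtain ⟨hy1, hy2⟩ := hy
  simp only [dist_zero_right] at hy1 hy2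
  refine mem_of_rot (S := sec K z') (sec_convex h.conv z') (sec_closed h.comp.isClosed z')
    (x := x) h.norm h.ne ?_
  intro k
  have h1 : ω ^ k * conj (ω ^ k) = 1 := mul_conj_unit (by rw [norm_pow, h.norm, one_pow])
  have h2 : ω ^ k * x + y = ω ^ k * (x + conj (ω ^ k) * y) := by
    rw [mul_add, ← mul_assoc, h1, one_mul]
  rw [h2]
  refine h.inv_pow k (hball ?_)
  rw [Metric.mem_ball, Prod.dist_eq, max_lt_iff]
  refine ⟨?_, hy2⟩
  rw [dist_eq_norm, add_sub_cancel_left, norm_mul, Complex.norm_conj, norm_pow, h.norm, one_pow,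
    one_mul]
  exact hy1

/-- bottom and top -/
theorem RotBody.ends {K : Set (ℂ × ℝ)} {ω : ℂ} (h : RotBody K ω) :
    ∃ bot top : ℝ, bot < top ∧ ((0 : ℂ), bot) ∈ K ∧ ((0 : ℂ), top) ∈ K ∧
      (∀ p ∈ K, bot ≤ p.2 ∧ p.2 ≤ top) ∧
      ∀ z, bot < z → z < top → ((0 : ℂ), z) ∈ interior K := by
  have hne : K.Nonempty := h.int.mono interior_subset
  obtain ⟨pb, hpb, hb⟩ := h.comp.exists_isMinOn hne continuous_snd.continuousOn
  obtain ⟨pt, hpt, ht⟩ := h.comp.exists_isMaxOn hne continuous_snd.continuousOn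
  obtain ⟨⟨x₀, z₀⟩, h0⟩ := h.int
  have hz0 := h.axis_int h0
  have hb' : ∀ p ∈ K, pb.2 ≤ p.2 := fun p hp => hb hp
  have ht' : ∀ p ∈ K, p.2 ≤ pt.2 := fun p hp => ht hp
  have hbK : ((0 : ℂ), pb.2) ∈ K := h.axis (x := pb.1) hpb
  have htK : ((0 : ℂ), pt.2) ∈ K := h.axis (x := pt.1) hpt
  -- strict inequalities for the interior point
  obtain ⟨r, hr, hball⟩ := Metric.mem_nhds_iff.1 (mem_interior_iff_mem_nhds.1 hz0)
  have h1 : ((0 : ℂ), z₀ + r / 2) ∈ K := by
    apply hball
    rw [Metric.mem_ball, Prod.dist_eq, max_lt_iff]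
    refine ⟨by simpa using hr, ?_⟩
    rw [Real.dist_eq, add_sub_cancel_left, abs_of_pos (by linarith)]
    linarith
  have h2 : ((0 : ℂ), z₀ - r / 2) ∈ K := by
    apply hball
    rw [Metric.mem_ball, Prod.dist_eq, max_lt_iff]
    refine ⟨by simpa using hr, ?_⟩
    rw [Real.dist_eq, sub_sub_cancel_left, abs_neg, abs_of_pos (by linarith)]
    linarith
  have h3 := ht' _ h1
  have h4 := hb' _ h2
  simp only at h3 h4
  refine ⟨pb.2, pt.2, by linarith, hbK, htK, fun p hp => ⟨hb' p hp, ht' p hp⟩, ?_⟩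
  intro z hbz hzt
  rcases lt_trichotomy z z₀ with hz | hz | hz
  · -- between bottom and z₀
    have h5 := h.conv.combo_interior_self_mem_interior hz0 hbK
      (a := (z - pb.2) / (z₀ - pb.2)) (b := (z₀ - z) / (z₀ - pb.2))
      (div_pos (by linarith) (by linarith)) (div_nonneg (by linarith) (by linarith))
      (by have : z₀ - pb.2 ≠ 0 := by linarith
          field_simp; ring)
    convert h5 using 1
    refine Prod.ext (by simp) ?_
    simp only [Prod.snd_add, Prod.smul_snd, smul_eq_mul]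
    have : z₀ - pb.2 ≠ 0 := by linarith
    field_simp
    ring
  · rw [hz]
    exact hz0
  · have h5 := h.conv.combo_interior_self_mem_interior hz0 htK
      (a := (pt.2 - z) / (pt.2 - z₀)) (b := (z - z₀) / (pt.2 - z₀))
      (div_pos (by linarith) (by linarith)) (div_nonneg (by linarith) (by linarith))
      (by have : pt.2 - z₀ ≠ 0 := by linarith
          field_simp; ring)
    convert h5 using 1
    refine Prod.ext (by simp) ?_
    simp only [Prod.snd_add, Prod.smul_snd, smul_eq_mul]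
    have : pt.2 - z₀ ≠ 0 := by linarith
    field_simp
    ring

/-- interior points of the section at an inner height -/
theorem int_of_sec {K : Set (ℂ × ℝ)} (hK : Convex ℝ K) {z : ℝ}
    (h0 : ((0 : ℂ), z) ∈ interior K) {y : ℂ} (hy : y ∈ interior (sec K z)) :
    (y, z) ∈ interior K := by
  obtain ⟨ε, hε, h1⟩ := radial_ex hy
  have h2 : ((1 + ε) • y, z) ∈ K := interior_subset (s := sec K z) h1
  have h3 := hK.combo_interior_self_mem_interior h0 h2 (a := ε / (1 + ε)) (b := 1 / (1 + ε))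
    (by positivity) (by positivity) (by field_simp; ring)
  convert h3 using 1
  refine Prod.ext ?_ ?_
  · simp only [Prod.fst_add, Prod.smul_fst, smul_zero, zero_add]
    rw [smul_smul, one_div_mul_cancel (by positivity), one_smul]
  · simp only [Prod.snd_add, Prod.smul_snd, smul_eq_mul]
    field_simp
    ring

theorem sec_of_int {K : Set (ℂ × ℝ)} {z : ℝ} {y : ℂ} (hy : (y, z) ∈ interior K) :
    y ∈ interior (sec K z) := by
  have : Continuous fun x : ℂ => (x, z) := by fun_prop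
  exact mem_interior.2 ⟨(fun x : ℂ => (x, z)) ⁻¹' interior K,
    fun x hx => interior_subset (s := K) hx, isOpen_interior.preimage this, hy⟩

/-- planar illumination -/
def PI (S : Set ℂ) (x u : ℂ) : Prop := ∃ l : ℝ, 0 < l ∧ x - l • u ∈ interior S

theorem ill_of_PI {K : Set (ℂ × ℝ)} (hK : Convex ℝ K) {z : ℝ}
    (h0 : ((0 : ℂ), z) ∈ interior K) {x u : ℂ} (h : PI (sec K z) x u) :
    Ill K ((-u, 0) : ℂ × ℝ) (x, z) := by
  obtain ⟨l, hl, hi⟩ := h
  refine ⟨l, hl, ?_⟩
  have := int_of_sec hK h0 hi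
  convert this using 1
  simp [sub_eq_add_neg]

/-- the cone lemma -/
theorem PI_of_combo {S : Set ℂ} (hS : Convex ℝ S) (h0 : (0 : ℂ) ∈ interior S) {ω x : ℂ}
    (hω : ‖ω‖ = 1) (hne : ω ≠ 1) (hx : x ∈ S) (hx1 : ω * x ∈ S) (hx2 : conj ω * x ∈ S)
    {A B : ℝ} (hA : 0 < A) (hB : 0 < B) :
    PI S x (A • (x - ω * x) + B • (x - conj ω * x)) := by
  have ha1 : ω.re < 1 := by
    have h1 : ω.re ≤ ‖ω‖ := Complex.re_le_norm ω
    rw [hω] at h1
    rcases h1.lt_or_eq with h2 | h2
    · exact h2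
    · exfalso
      apply hne
      have h3 : ω.re ^ 2 + ω.im ^ 2 = 1 := by
        have := Complex.sq_norm ω
        rw [hω, Complex.normSq_apply] at this
        nlinarith
      have h4 : ω.im = 0 := by
        rw [h2] at h3
        have : ω.im ^ 2 = 0 := by linarith
        exact pow_eq_zero_iff (two_ne_zero) |>.1 this
      exact Complex.ext (by simpa using h2) (by simpa using h4)
  have ha2 : -1 ≤ ω.re := by
    have h1 : |ω.re| ≤ ‖ω‖ := Complex.abs_re_le_norm ω
    rw [hω] at h1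
    exact (abs_le.1 h1).1
  set a := ω.re with ha
  set l : ℝ := 1 / (2 * (A + B)) with hl
  have hl0 : 0 < l := by positivity
  have hlAB : l * A + l * B = 1 / 2 := by
    rw [hl]
    field_simp
  set δ : ℝ := min (min (l * A) (l * B)) (1 / 4) with hδ
  have hδ0 : 0 < δ := by
    rw [hδ]
    positivity
  have hδ1 : δ ≤ l * A := (min_le_left _ _).trans (min_le_left _ _)
  have hδ2 : δ ≤ l * B := (min_le_left _ _).trans (min_le_right _ _)
  have hδ3 : δ ≤ 1 / 4 := min_le_right _ _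
  set ε : ℝ := (2 - 2 * a) * δ with hε
  have hε0 : 0 < ε := mul_pos (by linarith) hδ0
  refine ⟨l, hl0, radial hS h0 hε0 ?_⟩
  have h3 := convex3 hS hx hx1 hx2 (a := (1 + ε) * (1 / 2) + 2 * a * δ)
    (b := (1 + ε) * (l * A) - δ) (c := (1 + ε) * (l * B) - δ)
    (by nlinarith) (by nlinarith) (by nlinarith) (by rw [hε]; nlinarith)
  convert h3 using 1
  have h4 : ω + conj ω = ((2 * a : ℝ) : ℂ) := by
    rw [Complex.add_conj]
  have h5 : conj ω = ((2 * a : ℝ) : ℂ) - ω := by
    rw [← h4]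
    ring
  have h6 : (l : ℂ) * A = 1 / 2 - l * B := by
    have : l * A = 1 / 2 - l * B := by linarith
    have h7 : ((l * A : ℝ) : ℂ) = ((1 / 2 - l * B : ℝ) : ℂ) := by rw [this]
    push_cast at h7
    exact h7
  simp only [Complex.real_smul]
  push_cast
  rw [h5]
  push_cast
  linear_combination (-(1 + (ε : ℂ)) * x) * h6

/-- a direction close enough to `x` is in the cone -/
theorem PI_of_angle {S : Set ℂ} (hS : Convex ℝ S) (h0 : (0 : ℂ) ∈ interior S) {ω x : ℂ}
    (hω : ‖ω‖ = 1) (him : ω.im ≠ 0) (hx : x ∈ S) (hx1 : ω * x ∈ S) (hx2 : conj ω * x ∈ S)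
    (hx0 : x ≠ 0) {u : ℂ}
    (hu : |(conj x * u).im| * (1 - ω.re) < |ω.im| * (conj x * u).re) : PI S x u := by
  have hne : ω ≠ 1 := by
    rintro rfl
    simp at him
  have ha1 : ω.re < 1 := by
    have h1 : ω.re ≤ ‖ω‖ := Complex.re_le_norm ω
    rw [hω] at h1
    rcases h1.lt_or_eq with h2 | h2
    · exact h2
    · exfalso
      have h3 : ω.re ^ 2 + ω.im ^ 2 = 1 := by
        have := Complex.sq_norm ω
        rw [hω, Complex.normSq_apply] at this
        nlinarith
      have h4 : ω.im ^ 2 = 0 := by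
        rw [h2] at h3
        linarith
      exact him (pow_eq_zero_iff (two_ne_zero) |>.1 h4)
  set w : ℂ := u / x with hw
  have hux : u = w * x := by
    rw [hw, div_mul_cancel₀ _ hx0]
  have hn : 0 < Complex.normSq x := Complex.normSq_pos.2 hx0
  have hp : conj x * u = (Complex.normSq x : ℂ) * w := by
    rw [hux, Complex.normSq_eq_conj_mul_self]
    ring
  rw [hp] at hu
  simp only [Complex.mul_re, Complex.mul_im, Complex.ofReal_re, Complex.ofReal_im, zero_mul,
    sub_zero, add_zero, abs_mul, abs_of_pos hn] at hu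
  have hu2 : |w.im| * (1 - ω.re) < |ω.im| * w.re := by
    have : Complex.normSq x * (|w.im| * (1 - ω.re)) < Complex.normSq x * (|ω.im| * w.re) := by
      nlinarith
    exact lt_of_mul_lt_mul_left this hn.le
  have hb : 0 < |ω.im| := abs_pos.2 him
  have ha : 0 < 1 - ω.re := by linarith
  -- |w.im / ω.im| < w.re / (1 - ω.re)
  have h1 : |w.im / ω.im| < w.re / (1 - ω.re) := by
    rw [abs_div, div_lt_div_iff₀ hb ha]
    linarith
  have h2 := abs_lt.1 h1
  obtain ⟨P, hP⟩ : ∃ P : ℝ, P = w.re / (1 - ω.re) := ⟨_, rfl⟩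
  obtain ⟨Q, hQ⟩ : ∃ Q : ℝ, Q = w.im / ω.im := ⟨_, rfl⟩
  have hP' : w.re = P * (1 - ω.re) := by
    rw [hP, div_mul_cancel₀ _ ha.ne']
  have hQ' : w.im = Q * ω.im := by
    rw [hQ, div_mul_cancel₀ _ him]
  rw [← hP, ← hQ] at h2
  have h3 : u = ((P - Q) / 2) • (x - ω * x) + ((P + Q) / 2) • (x - conj ω * x) := by
    have h4 : w = (((P - Q) / 2 : ℝ) : ℂ) * (1 - ω) + (((P + Q) / 2 : ℝ) : ℂ) * (1 - conj ω) := by
      apply Complex.ext
      · rw [hP']
        simp only [Complex.add_re, Complex.mul_re, Complex.ofReal_re, Complex.ofReal_im,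
          Complex.sub_re, Complex.one_re, Complex.conj_re, zero_mul, sub_zero]
        ring
      · rw [hQ']
        simp only [Complex.add_im, Complex.mul_im, Complex.ofReal_re, Complex.ofReal_im,
          Complex.sub_im, Complex.one_im, Complex.conj_im, zero_mul, add_zero]
        ring
    rw [Complex.real_smul, Complex.real_smul]
    calc u = w * x := hux
      _ = _ := by
        conv_lhs => rw [h4]
        ring
  rw [h3]
  exact PI_of_combo hS h0 hω hne hx hx1 hx2 (by linarith [h2.2]) (by linarith [h2.1])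

end Pool.Agent.W867.Cov3
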