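import Pool.Agent.W867.Cov3.All
import Pool.Agent.W867.Cov3.LinAlg

/-!
Intrinsic form: a convex body in a three-dimensional space with an orientation preserving affine
symmetry `g`, `g ∘ g ≠ id`.
-/

set_option autoImplicit false

open Set Topology Filter Module

namespace Pool.Agent.W867.Cov3

section

variable {V : Type*} [NormedAddCommGroup V] [NormedSpace ℝ V]

theorem exists_fixed [FiniteDimensional ℝ V] (g : V →ᵃ[ℝ] V) {K : Set V} (hK : Convex ℝ K)
    (hc : IsCompact K) (hne : K.Nonempty) (hg : ∀ x ∈ K, g x ∈ K) : ∃ c ∈ K, g c = c := by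
  obtain ⟨x₀, hx₀⟩ := hne
  have hiter : ∀ k : ℕ, g^[k] x₀ ∈ K := by
    intro k
    induction k with
    | zero => exact hx₀
    | succ k ih =>
      rw [Function.iterate_succ_apply']
      exact hg _ ih
  obtain ⟨s, hs⟩ : ∃ s : ℕ → V, s = fun n : ℕ =>
    ∑ k ∈ Finset.range (n + 1), ((1 : ℝ) / ((n : ℝ) + 1)) • g^[k] x₀ := ⟨_, rfl⟩
  have hsK : ∀ n, s n ∈ K := by
    intro n
    rw [hs]
    refine hK.sum_mem (fun k _ => by positivity) ?_ (fun k _ => hiter k)
    rw [Finset.sum_const, Finset.card_range, nsmul_eq_mul]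
    push_cast
    field_simp
  have hdec : ∀ x, g x = g.linear x + g 0 := fun x => by
    conv_lhs => rw [AffineMap.decomp g]
    rfl
  have hgs : ∀ n, g (s n) - s n = ((1 : ℝ) / ((n : ℝ) + 1)) • (g^[n + 1] x₀ - x₀) := by
    intro n
    have h1 : g (s n) = ∑ k ∈ Finset.range (n + 1), ((1 : ℝ) / ((n : ℝ) + 1)) • g^[k + 1] x₀ := by
      rw [hdec, hs]
      simp only
      rw [map_sum]
      have h2 : g 0 = ∑ k ∈ Finset.range (n + 1), ((1 : ℝ) / ((n : ℝ) + 1)) • g 0 := by
        rw [Finset.sum_const, Finset.card_range, ← Nat.cast_smul_eq_nsmul ℝ, smul_smul]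
        push_cast
        rw [mul_one_div_cancel (by positivity), one_smul]
      conv_lhs => rw [h2]
      rw [← Finset.sum_add_distrib]
      refine Finset.sum_congr rfl fun k _ => ?_
      rw [map_smul, ← smul_add, Function.iterate_succ_apply', hdec (g^[k] x₀)]
    rw [h1, hs]
    simp only
    rw [← Finset.sum_sub_distrib]
    simp only [← smul_sub]
    rw [← Finset.smul_sum, Finset.sum_range_sub (fun k => g^[k] x₀)]
    rfl
  obtain ⟨c, hcK, φ, hφ, hlim⟩ := hc.tendsto_subseq hsK
  refine ⟨c, hcK, ?_⟩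
  have hgc : Continuous g := g.continuous_of_finiteDimensional
  have hlim1 : Tendsto (fun n => g (s (φ n)) - s (φ n)) atTop (𝓝 (g c - c)) :=
    ((hgc.tendsto c).comp hlim).sub hlim
  obtain ⟨R, hR⟩ := hc.isBounded.exists_norm_le
  have hlim2 : Tendsto (fun n => g (s (φ n)) - s (φ n)) atTop (𝓝 0) := by
    have h3 : Tendsto (fun n => g (s n) - s n) atTop (𝓝 0) := by
      refine squeeze_zero_norm (a := fun n : ℕ => ((1 : ℝ) / ((n : ℝ) + 1)) * (R + R)) ?_ ?_
      · intro n
        rw [hgs, norm_smul, Real.norm_of_nonneg (by positivity)]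
        gcongr
        exact (norm_sub_le _ _).trans (add_le_add (hR _ (hiter _)) (hR _ hx₀))
      · simpa using (tendsto_one_div_add_atTop_nhds_zero_nat (𝕜 := ℝ)).mul_const (R + R)
    exact h3.comp hφ.tendsto_atTop
  exact sub_eq_zero.1 (tendsto_nhds_unique hlim1 hlim2)

theorem PB.of_invariant (T : V →ₗ[ℝ] V) {K : Set V} (hb : Bornology.IsBounded K)
    (hint : (interior K).Nonempty) (hT : ∀ v ∈ K, T v ∈ K) : PB T := by
  obtain ⟨p, hp⟩ := hint
  obtain ⟨r, hr, hball⟩ := Metric.mem_nhds_iff.1 (mem_interior_iff_mem_nhds.1 hp)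
  obtain ⟨R, hR⟩ := hb.exists_norm_le
  have hpow : ∀ k : ℕ, ∀ v ∈ K, (T ^ k) v ∈ K := by
    intro k
    induction k with
    | zero => exact fun v hv => hv
    | succ k ih =>
      intro v hv
      rw [pow_succ', Module.End.mul_apply]
      exact hT _ (ih v hv)
  have hR0 : 0 ≤ R := (norm_nonneg p).trans (hR p (interior_subset hp))
  refine ⟨(R + R) / (r / 2), fun k v => ?_⟩
  by_cases hv : v = 0
  · subst hv
    simp
  · have hv0 := norm_pos_iff.2 hv
    obtain ⟨u, hu⟩ : ∃ u, u = ((r / 2) / ‖v‖) • v := ⟨_, rfl⟩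
    have hun : ‖u‖ = r / 2 := by
      rw [hu, norm_smul, Real.norm_of_nonneg (by positivity), div_mul_cancel₀ _ hv0.ne']
    have h1 : p + u ∈ K := by
      apply hball
      rw [Metric.mem_ball, dist_eq_norm, add_sub_cancel_left, hun]
      linarith
    have h2 : ‖(T ^ k) u‖ ≤ R + R := by
      have h3 : (T ^ k) u = (T ^ k) (p + u) - (T ^ k) p := by
        rw [map_add]
        abel
      rw [h3]
      exact (norm_sub_le _ _).trans (add_le_add (hR _ (hpow k _ h1))
        (hR _ (hpow k _ (interior_subset hp))))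
    have h4 : (T ^ k) v = (‖v‖ / (r / 2)) • (T ^ k) u := by
      rw [hu, map_smul, smul_smul]
      have : ‖v‖ / (r / 2) * (r / 2 / ‖v‖) = 1 := by
        field_simp
      rw [this, one_smul]
    rw [h4, norm_smul, Real.norm_of_nonneg (by positivity)]
    calc ‖v‖ / (r / 2) * ‖(T ^ k) u‖ ≤ ‖v‖ / (r / 2) * (R + R) := by gcongr
      _ = (R + R) / (r / 2) * ‖v‖ := by ring

theorem cov_linear [FiniteDimensional ℝ V] (hdim : finrank ℝ V = 3) {K : Set V}
    (hK : Convex ℝ K) (hc : IsCompact K) (hint : (interior K).Nonempty) (T S : V →ₗ[ℝ] V)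
    (hTS : ∀ v, T (S v) = v) (hST : ∀ v, S (T v) = v) (hdet : 0 < LinearMap.det T)
    (hT : ∀ v ∈ K, T v ∈ K) (hS : ∀ v ∈ K, S v ∈ K) (h2 : ∃ v, T (T v) ≠ v) : Cov8 K := by
  rcases rot_form hdim T S hTS hST hdet (PB.of_invariant T hc.isBounded hint hT)
    (PB.of_invariant S hc.isBounded hint hS) with h | ⟨L, ν, hν, hνi, hL⟩
  · obtain ⟨v, hv⟩ := h2
    exact absurd (h v) hv
  · let Lc : V ≃L[ℝ] (ℂ × ℝ) := L.symm.toContinuousLinearEquiv
    have hLc : ∀ v, Lc v = L.symm v := fun v => rfl
    have hmem : ∀ p, p ∈ Lc '' K ↔ L p ∈ K := by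
      intro p
      constructor
      · rintro ⟨v, hv, rfl⟩
        rw [hLc, L.apply_symm_apply]
        exact hv
      · intro hp
        exact ⟨L p, hp, by rw [hLc, L.symm_apply_apply]⟩
    have hn1 : ν ≠ 1 := by
      rintro rfl
      simp at hνi
    have hrot : RotBody (Lc '' K) ν :=
      { conv := hK.linear_image (Lc : V →L[ℝ] (ℂ × ℝ)).toLinearMap
        comp := hc.image Lc.continuous
        int := by
          have h5 : interior (Lc '' K) = Lc '' interior K :=
            (Lc.toHomeomorph.image_interior K).symm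
          rw [h5]
          exact hint.image _
        norm := hν
        ne := hn1
        inv := fun x z hx => by
          rw [hmem] at hx ⊢
          rw [← hL]
          exact hT _ hx
        inv' := fun x z hx => by
          rw [hmem] at hx ⊢
          have h6 : T (L ((starRingEnd ℂ) ν * x, z)) = L (x, z) := by
            rw [hL, ← mul_assoc, mul_conj_unit hν, one_mul]
          rw [← hST (L ((starRingEnd ℂ) ν * x, z)), h6]
          exact hS _ hx }
    have hcov := hrot.cov (by
      intro h
      have h7 : (ν - 1) * (ν + 1) = 0 := by linear_combination h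
      rcases mul_eq_zero.1 h7 with h8 | h8
      · exact hn1 (sub_eq_zero.1 h8)
      · have h9 : ν = -1 := by linear_combination h8
        rw [h9] at hνi
        simp at hνi)
    exact Cov8.of_image Lc (cov8_iff.2 hcov)

/-- every convex body in a three-dimensional space with an orientation preserving affine symmetry
which is not an involution is covered by at most 8 translates of its interior -/
theorem cov_affine [FiniteDimensional ℝ V] (hdim : finrank ℝ V = 3) {K : Set V}
    (hK : Convex ℝ K) (hc : IsCompact K) (hint : (interior K).Nonempty) (g : V →ᵃ[ℝ] V)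
    (hg : g '' K = K) (hdet : 0 < LinearMap.det g.linear) (h2 : ∃ v, g (g v) ≠ v) : Cov8 K := by
  have hgK : ∀ x ∈ K, g x ∈ K := fun x hx => by
    rw [← hg]
    exact mem_image_of_mem g hx
  obtain ⟨c, hcK, hgc⟩ := exists_fixed g hK hc (hint.mono interior_subset) hgK
  have hdet' : LinearMap.det g.linear ≠ 0 := hdet.ne'
  let Te := LinearEquiv.ofIsUnitDet (f := g.linear) (v := finBasis ℝ V) (v' := finBasis ℝ V)
    (by rw [LinearMap.det_toMatrix]; exact isUnit_iff_ne_zero.2 hdet')
  have hTe : ∀ v, Te v = g.linear v := fun v => rfl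
  have hgv : ∀ v, g (c + v) = c + g.linear v := by
    intro v
    have := g.map_vadd c v
    simp only [vadd_eq_add] at this
    rw [add_comm, this, hgc, add_comm]
  have himg : (fun x => -c + x) '' K = {v | c + v ∈ K} := by
    ext v
    constructor
    · rintro ⟨x, hx, rfl⟩
      change c + (-c + x) ∈ K
      rwa [add_neg_cancel_left]
    · intro hv
      exact ⟨c + v, hv, neg_add_cancel_left _ _⟩
  refine Cov8.of_translate (-c) ?_
  rw [himg]
  have hcont : Continuous fun v : V => c + v := by fun_prop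
  refine cov_linear hdim (T := g.linear) (S := Te.symm.toLinearMap) ?_ ?_ ?_ ?_ ?_ hdet ?_ ?_ ?_
  · have := hK.translate (-c)
    rwa [show (fun z => -c + z) '' K = {v | c + v ∈ K} from himg] at this
  · rw [← himg]
    exact hc.image (by fun_prop)
  · rw [← himg]
    have h5 : interior ((fun x => -c + x) '' K) = (fun x => -c + x) '' interior K :=
      ((Homeomorph.addLeft (-c)).image_interior K).symm
    rw [h5]
    exact hint.image _
  · intro v
    change g.linear (Te.symm v) = v
    rw [← hTe, Te.apply_symm_apply]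
  · intro v
    change Te.symm (g.linear v) = v
    rw [← hTe, Te.symm_apply_apply]
  · intro v hv
    change c + g.linear v ∈ K
    rw [← hgv]
    exact hgK _ hv
  · intro v hv
    change c + Te.symm v ∈ K
    have hv' : c + v ∈ g '' K := by
      rw [hg]
      exact hv
    obtain ⟨y, hy, hyv⟩ := hv'
    have h6 : y = c + (y - c) := by abel
    rw [h6, hgv] at hyv
    have h7 : g.linear (y - c) = v := add_left_cancel hyv
    rw [← h7, ← hTe, Te.symm_apply_apply, ← h6]
    exact hy
  · obtain ⟨x, hx⟩ := h2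
    refine ⟨x - c, fun h => hx ?_⟩
    have h6 : x = c + (x - c) := by abel
    rw [h6, hgv, hgv, h]

end

end Pool.Agent.W867.Cov3
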