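import Pool.Agent.W867.Cov3.Beta

/-!
Bodies in `ℂ × ℝ` invariant under a rotation of order `≥ 3`: assembly.
-/

set_option autoImplicit false

open Set Topology Filter
open scoped ComplexConjugate

namespace Pool.Agent.W867.Cov3

theorem neg_cube {x : ℂ} (h : x ^ 3 = -((‖x‖ : ℂ) ^ 3)) : ∃ j, rot3 j * x = -(‖x‖ : ℂ) := by
  obtain ⟨r, hr⟩ : ∃ r : ℂ, r = (‖x‖ : ℂ) := ⟨_, rfl⟩
  rw [← hr] at h ⊢
  have hs := w3_sum
  have h2 := w3_sq
  have h3 := w3_mul_conj
  have h4 := conj_w3_sq
  have hprod : (x + r) * ((w3 * x + r) * (conj w3 * x + r)) = 0 := by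
    have e : (w3 * x + r) * (conj w3 * x + r) = x ^ 2 - x * r + r ^ 2 := by
      linear_combination (x ^ 2) * h3 + x * r * hs
    rw [e]
    linear_combination h
  rcases mul_eq_zero.1 hprod with h5 | h5
  · exact ⟨0, by rw [rot3_zero, one_mul]; linear_combination h5⟩
  · rcases mul_eq_zero.1 h5 with h6 | h6
    · exact ⟨1, by rw [rot3_one]; linear_combination h6⟩
    · exact ⟨2, by rw [rot3_two]; linear_combination h6⟩

section

variable {K : Set (ℂ × ℝ)} {bot top : ℝ}

theorem three_same (h : RotBody K w3) (he : Ends K bot top)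
    (h1M : (1 : ℂ) ∉ interior (Prod.fst '' K))
    (h1t : ((1 : ℂ), top) ∈ K) (h1b : ((1 : ℂ), bot) ∈ K)
    (hTt : ∀ y ∈ sec K top, InT 1 y) (hTb : ∀ y ∈ sec K bot, InT 1 y) : Cov K := by
  by_cases hα : ∃ x z, bot < z ∧ z < top ∧ (x, z) ∈ K ∧ x ∉ interior (Prod.fst '' K) ∧
      (∀ y ∈ sec K z, InT x y) ∧ x ^ 3 = -((‖x‖ : ℂ) ^ 3)
  swap
  · exact alpha h he h1t h1b hTt hTb hα
  obtain ⟨x, z₀, hb, ht, hx, hxM, hxT, hx3⟩ := hα
  have hx0 := ne_zero_of_not_int he hxM
  have hr0 := norm_pos_iff.2 hx0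
  have hMconv : Convex ℝ (Prod.fst '' K) := h.conv.linear_image (LinearMap.fst ℝ ℂ ℝ)
  have hMz := zero_mem_M he
  obtain ⟨j, hj⟩ := neg_cube hx3
  obtain ⟨r, hr⟩ : ∃ r, r = ‖x‖ := ⟨_, rfl⟩
  rw [← hr] at hj hr0
  have hmem : ((-(r : ℂ)), z₀) ∈ K := by
    have := h.inv3 z₀ x hx j
    rwa [hj] at this
  -- `Re y ≤ r / 2` on the section
  have hle : ∀ y ∈ sec K z₀, y.re ≤ r / 2 := by
    intro y hy
    have h5 := hxT y hy j
    rw [hj, ← hr] at h5
    have h6 : -(conj (-(r : ℂ)) * y).re = r * y.re := by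
      rw [map_neg, Complex.conj_ofReal, neg_mul, Complex.neg_re, neg_neg, Complex.re_ofReal_mul]
    rw [h6] at h5
    have h7 : r * y.re ≤ r * (r / 2) := by
      have : r * (r / 2) = r ^ 2 / 2 := by ring
      rw [this]
      exact h5
    exact le_of_mul_le_mul_left h7 hr0
  have hone : ((1 : ℂ), z₀) ∈ K := by
    have hd : 0 < top - bot := by linarith
    have h5 := h.conv h1b h1t (a := (top - z₀) / (top - bot))
      (b := (z₀ - bot) / (top - bot))
      (div_nonneg (by linarith) hd.le) (div_nonneg (by linarith) hd.le)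
      (by rw [← add_div, div_eq_one_iff_eq hd.ne']; ring)
    convert h5 using 1
    refine Prod.ext ?_ ?_
    · simp only [Prod.fst_add, Prod.smul_fst]
      rw [← add_smul, ← add_div, div_eq_one_iff_eq hd.ne' |>.2 (by ring), one_smul]
    · simp only [Prod.snd_add, Prod.smul_snd, smul_eq_mul]
      rw [div_mul_eq_mul_div, div_mul_eq_mul_div, ← add_div, eq_div_iff hd.ne']
      ring
  have hr2 : 2 ≤ r := by
    have := hle 1 hone
    rw [Complex.one_re] at this
    linarith
  have hr2' : r = 2 := by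
    rcases hr2.lt_or_eq with h5 | h5
    · exfalso
      apply h1M
      refine radial hMconv hMz (ε := r / 2 - 1) (by linarith) ?_
      have e1 := h.inv3 z₀ _ hmem 1
      have e2 := h.inv3 z₀ _ hmem 2
      have e3 : ((1 / 2 : ℝ) • (rot3 1 * (-(r : ℂ))) + (1 / 2 : ℝ) • (rot3 2 * (-(r : ℂ))), z₀) ∈ K :=
        (sec_convex h.conv z₀) e1 e2 (a := 1 / 2) (b := 1 / 2) (by norm_num)
        (by norm_num) (by norm_num)
      refine ⟨((1 + (r / 2 - 1)) • (1 : ℂ), z₀), ?_, rfl⟩
      have e4 : (1 + (r / 2 - 1)) • (1 : ℂ) =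
          (1 / 2 : ℝ) • (rot3 1 * (-(r : ℂ))) + (1 / 2 : ℝ) • (rot3 2 * (-(r : ℂ))) := by
        rw [rot3_one, rot3_two]
        simp only [Complex.real_smul]
        push_cast
        linear_combination ((r : ℂ) / 2) * w3_sum
      rw [e4]
      exact e3
    · exact h5.symm
  have hre : ∀ p ∈ K, p.1.re ≤ 1 := by
    obtain ⟨n, hn0, hN⟩ := normal_of_not_int hMconv hMz h1M
    have e1 : rot3 1 * (-(r : ℂ)) ∈ Prod.fst '' K :=
      ⟨(rot3 1 * (-(r : ℂ)), z₀), h.inv3 z₀ _ hmem 1, rfl⟩
    have e2 : rot3 2 * (-(r : ℂ)) ∈ Prod.fst '' K :=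
      ⟨(rot3 2 * (-(r : ℂ)), z₀), h.inv3 z₀ _ hmem 2, rfl⟩
    have g1 := hN _ e1
    have g2 := hN _ e2
    have g3 := hN 0 (interior_subset hMz)
    have hs0 := sqrt3_pos
    rw [hr2', rot3_one] at g1
    rw [hr2', rot3_two] at g2
    simp only [Complex.mul_re, Complex.mul_im, Complex.conj_re, Complex.conj_im, Complex.neg_re,
      Complex.neg_im, Complex.ofReal_re, Complex.ofReal_im, w3_re, w3_im, Complex.one_re,
      Complex.one_im, Complex.zero_re, Complex.zero_im] at g1 g2 g3
    have hi : n.im = 0 := by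
      have k1 : √3 * n.im ≤ 0 := by linarith
      have k2 : 0 ≤ √3 * n.im := by linarith
      exact (mul_eq_zero.1 (le_antisymm k1 k2)).resolve_left hs0.ne'
    have hr' : 0 < n.re := by
      rcases (show 0 ≤ n.re by linarith).lt_or_eq with h5 | h5
      · exact h5
      · exact absurd (Complex.ext h5.symm hi) hn0
    intro p hp
    have g4 := hN _ ⟨p, hp, rfl⟩
    simp only [Complex.mul_re, Complex.conj_re, Complex.conj_im, Complex.one_re, Complex.one_im,
      hi] at g4
    have g5 : n.re * p.1.re ≤ n.re * 1 := by linarith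
    exact le_of_mul_le_mul_left g5 hr'
  have B : Beta K bot top z₀ :=
    { rot := h
      ends := he
      one_top := h1t
      one_bot := h1b
      tri_top := hTt
      tri_bot := hTb
      lt0 := hb
      lt1 := ht
      two := by
        have := hmem
        rw [hr2'] at this
        exact_mod_cast this
      re_le := hre }
  exact B.cov

end

/-- covered by at most 8 translates of the interior, in any space -/
def Cov8 {E : Type*} [AddCommGroup E] [TopologicalSpace E] (K : Set E) : Prop :=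
  ∃ T : Finset E, T.card ≤ 8 ∧ K ⊆ ⋃ t ∈ T, (fun x => t + x) '' interior K

theorem cov8_iff {K : Set (ℂ × ℝ)} : Cov8 K ↔ Cov K := Iff.rfl

theorem Cov8.of_image {E F : Type*} [AddCommGroup E] [TopologicalSpace E] [Module ℝ E]
    [AddCommGroup F] [TopologicalSpace F] [Module ℝ F] (e : E ≃L[ℝ] F) {K : Set E}
    (h : Cov8 (e '' K)) : Cov8 K := by
  classical
  obtain ⟨T, hT, hcov⟩ := h
  refine ⟨T.image e.symm, Finset.card_image_le.trans hT, ?_⟩
  intro x hx
  obtain ⟨t, ht, y, hy, hxy⟩ := mem_iUnion₂.1 (hcov (mem_image_of_mem e hx))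
  have hint : interior (e '' K) = e '' interior K :=
    (e.toHomeomorph.image_interior K).symm
  rw [hint] at hy
  obtain ⟨y', hy', rfl⟩ := hy
  refine mem_iUnion₂.2 ⟨e.symm t, Finset.mem_image_of_mem _ ht, y', hy', ?_⟩
  simp only at hxy ⊢
  apply e.injective
  rw [map_add, e.apply_symm_apply, hxy]

theorem Cov8.of_translate {E : Type*} [AddCommGroup E] [TopologicalSpace E] [ContinuousAdd E]
    (v : E) {K : Set E} (h : Cov8 ((fun x => v + x) '' K)) : Cov8 K := by
  obtain ⟨T, hT, hcov⟩ := h
  refine ⟨T, hT, ?_⟩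
  intro x hx
  obtain ⟨t, ht, y, hy, hxy⟩ := mem_iUnion₂.1 (hcov (mem_image_of_mem _ hx))
  have hint : interior ((fun x => v + x) '' K) = (fun x => v + x) '' interior K :=
    ((Homeomorph.addLeft v).image_interior K).symm
  rw [hint] at hy
  obtain ⟨y', hy', rfl⟩ := hy
  refine mem_iUnion₂.2 ⟨t, ht, y', hy', ?_⟩
  simp only at hxy ⊢
  have : v + (t + y') = v + x := by
    rw [← hxy]
    abel
  exact add_left_cancel this

/-- multiplication by a nonzero complex number on the first coordinate -/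
noncomputable def mulE (c : ℂ) (hc : c ≠ 0) : (ℂ × ℝ) ≃L[ℝ] (ℂ × ℝ) where
  toFun p := (c * p.1, p.2)
  invFun p := (c⁻¹ * p.1, p.2)
  map_add' p q := by simp [mul_add]
  map_smul' r p := by simp [mul_left_comm]
  left_inv p := by simp [hc]
  right_inv p := by simp [hc]
  continuous_toFun := by fun_prop
  continuous_invFun := by fun_prop

theorem RotBody.three {K : Set (ℂ × ℝ)} (h : RotBody K w3) : Cov K := by
  obtain ⟨bot, top, hlt, hb, ht, hle, hin⟩ := h.ends
  have he : Ends K bot top := ⟨hlt, hb, ht, hle, hin⟩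
  rcases three_gen h he with h1 | ⟨e, he0, heM, het, heb, hTt, hTb⟩
  · exact h1
  · -- normalise
    have hei : e⁻¹ ≠ 0 := inv_ne_zero he0
    let L := mulE e⁻¹ hei
    have hL : ∀ x z, (x, z) ∈ L '' K ↔ (e * x, z) ∈ K := by
      intro x z
      constructor
      · rintro ⟨⟨y, z'⟩, hy, hyx⟩
        obtain ⟨h1, h2⟩ := Prod.ext_iff.1 hyx
        change e⁻¹ * y = x at h1
        change z' = z at h2
        rw [← h1, ← h2, ← mul_assoc, mul_inv_cancel₀ he0, one_mul]
        exact hy
      · intro hx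
        refine ⟨(e * x, z), hx, ?_⟩
        change (e⁻¹ * (e * x), z) = (x, z)
        rw [← mul_assoc, inv_mul_cancel₀ he0, one_mul]
    have hint : ∀ x z, (x, z) ∈ interior (L '' K) ↔ (e * x, z) ∈ interior K := by
      intro x z
      have : interior (L '' K) = L '' interior K := (L.toHomeomorph.image_interior K).symm
      rw [this]
      constructor
      · rintro ⟨⟨y, z'⟩, hy, hyx⟩
        obtain ⟨h1, h2⟩ := Prod.ext_iff.1 hyx
        change e⁻¹ * y = x at h1
        change z' = z at h2
        rw [← h1, ← h2, ← mul_assoc, mul_inv_cancel₀ he0, one_mul]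
        exact hy
      · intro hx
        refine ⟨(e * x, z), hx, ?_⟩
        change (e⁻¹ * (e * x), z) = (x, z)
        rw [← mul_assoc, inv_mul_cancel₀ he0, one_mul]
    have h' : RotBody (L '' K) w3 :=
      { conv := h.conv.linear_image (L : (ℂ × ℝ) →L[ℝ] (ℂ × ℝ)).toLinearMap
        comp := h.comp.image L.continuous
        int := by
          obtain ⟨⟨x, z⟩, hx⟩ := h.int
          refine ⟨(e⁻¹ * x, z), (hint _ _).2 ?_⟩
          rw [← mul_assoc, mul_inv_cancel₀ he0, one_mul]
          exact hx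
        norm := h.norm
        ne := h.ne
        inv := fun x z hx => by
          rw [hL] at hx ⊢
          rw [mul_left_comm]
          exact h.inv _ _ hx
        inv' := fun x z hx => by
          rw [hL] at hx ⊢
          rw [mul_left_comm]
          exact h.inv' _ _ hx }
    have he' : Ends (L '' K) bot top :=
      { lt := hlt
        bot_mem := by rw [hL, mul_zero]; exact hb
        top_mem := by rw [hL, mul_zero]; exact ht
        le := by
          rintro ⟨x, z⟩ hx
          exact hle (e * x, z) ((hL _ _).1 hx)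
        inner := fun z h1 h2 => by
          rw [hint, mul_zero]
          exact hin z h1 h2 }
    have hscale : ∀ y, InT e (e * y) → InT 1 y := by
      intro y hy k
      have h1 := hy k
      have h2 : conj (rot3 k * e) * (e * y) = ((‖e‖ ^ 2 : ℝ) : ℂ) * (conj (rot3 k * 1) * y) := by
        have h3 : ((‖e‖ ^ 2 : ℝ) : ℂ) = conj e * e := by
          rw [← Complex.normSq_eq_conj_mul_self, Complex.normSq_eq_norm_sq]
        rw [h3, map_mul, mul_one]
        ring
      rw [h2, Complex.re_ofReal_mul] at h1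
      rw [norm_one]
      have hn : 0 < ‖e‖ ^ 2 := by
        have := norm_pos_iff.2 he0
        positivity
      have h4 : ‖e‖ ^ 2 * (-(conj (rot3 k * 1) * y).re) ≤ ‖e‖ ^ 2 * (1 ^ 2 / 2) := by linarith
      exact le_of_mul_le_mul_left h4 hn
    have hcov : Cov (L '' K) := by
      refine three_same h' he' ?_ ?_ ?_ ?_ ?_
      · intro hcon
        apply heM
        have hc : Continuous fun y : ℂ => e⁻¹ * y := by fun_prop
        refine mem_interior.2 ⟨(fun y : ℂ => e⁻¹ * y) ⁻¹' interior (Prod.fst '' (L '' K)), ?_,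
          isOpen_interior.preimage hc, ?_⟩
        · intro y hy
          obtain ⟨⟨a, z⟩, ha, hay⟩ := interior_subset hy
          have hay : a = e⁻¹ * y := hay
          rw [hL] at ha
          refine ⟨(e * a, z), ha, ?_⟩
          change e * a = y
          rw [hay, ← mul_assoc, mul_inv_cancel₀ he0, one_mul]
        · simp only [mem_preimage]
          rw [inv_mul_cancel₀ he0]
          exact hcon
      · rw [hL, mul_one]
        exact het
      · rw [hL, mul_one]
        exact heb
      · intro y hy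
        exact hscale y (hTt _ ((hL _ _).1 hy))
      · intro y hy
        exact hscale y (hTb _ ((hL _ _).1 hy))
    exact cov8_iff.1 (Cov8.of_image L (cov8_iff.2 hcov))

end Pool.Agent.W867.Cov3
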