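import Pool.Agent.W867.Cov3.Four

/-!
Planar convex bodies invariant under the rotation by 120 degrees.
-/

set_option autoImplicit false

open Set Topology Filter
open scoped ComplexConjugate

namespace Pool.Agent.W867.Cov3

theorem w3_sq : w3 * w3 = conj w3 := by
  have h3 := sqrt3_sq
  apply Complex.ext
  · simp only [Complex.mul_re, Complex.conj_re, w3_re, w3_im]
    nlinarith
  · simp only [Complex.mul_im, Complex.conj_im, w3_re, w3_im]
    ring

theorem w3_mul_conj : w3 * conj w3 = 1 := mul_conj_unit w3_norm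

theorem conj_w3_sq : conj w3 * conj w3 = w3 := by
  rw [← map_mul, w3_sq, Complex.conj_conj]

theorem rot3_mul (k k' : Fin 3) : rot3 (k + k') = rot3 k * rot3 k' := by
  fin_cases k <;> fin_cases k' <;>
    simp [rot3, w3_sq, w3_mul_conj, conj_w3_sq, mul_comm (conj w3) w3]

theorem rot3_zero : rot3 0 = 1 := rfl
theorem rot3_one : rot3 1 = w3 := rfl
theorem rot3_two : rot3 2 = conj w3 := rfl

theorem rot3_conj (k : Fin 3) : conj (rot3 k) = rot3 (-k) := by
  fin_cases k
  · simp [rot3]
  · simp only [Fin.mk_one, rot3_one]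
    rfl
  · have h : (-(⟨2, by norm_num⟩ : Fin 3)) = 1 := by decide
    simp only [Fin.reduceFinMk] at h ⊢
    rw [h, rot3_two, rot3_one, Complex.conj_conj]

theorem rot3_mul_conj (k : Fin 3) : rot3 k * conj (rot3 k) = 1 := mul_conj_unit (rot3_norm k)

theorem conj_mul_rot3 (k : Fin 3) : conj (rot3 k) * rot3 k = 1 := by
  rw [mul_comm, rot3_mul_conj]

theorem rot3_pow (k : Fin 3) : rot3 k ^ 3 = 1 := by
  have h : w3 ^ 3 = 1 := by
    rw [pow_succ, pow_two, w3_sq, mul_comm, w3_mul_conj]
  fin_cases k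
  · simp [rot3]
  · simp [rot3, h]
  · simp [rot3, ← map_pow, h]

theorem rot3_ne (k : Fin 3) : rot3 k ≠ 0 := by
  intro h
  have := rot3_norm k
  rw [h, norm_zero] at this
  exact zero_ne_one this

/-- invariance under the rotation by 120 degrees -/
def Inv3 (S : Set ℂ) : Prop := ∀ y ∈ S, ∀ k, rot3 k * y ∈ S

theorem Inv3.int {S : Set ℂ} (h : Inv3 S) {y : ℂ} (hy : y ∈ interior S) (k : Fin 3) :
    rot3 k * y ∈ interior S := by
  have hc : Continuous fun y : ℂ => conj (rot3 k) * y := by fun_prop
  refine mem_interior.2 ⟨(fun y : ℂ => conj (rot3 k) * y) ⁻¹' interior S, ?_,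
    isOpen_interior.preimage hc, ?_⟩
  · intro y hy
    have h1 := h _ (interior_subset hy) k
    simp only at h1
    rwa [← mul_assoc, rot3_mul_conj, one_mul] at h1
  · simp only [mem_preimage]
    rwa [← mul_assoc, conj_mul_rot3, one_mul]

theorem PI.rot {S : Set ℂ} (h : Inv3 S) {x u : ℂ} (hPI : PI S x u) (k : Fin 3) :
    PI S (rot3 k * x) (rot3 k * u) := by
  obtain ⟨l, hl, hi⟩ := hPI
  refine ⟨l, hl, ?_⟩
  have := h.int hi k
  convert this using 1
  simp only [Complex.real_smul]
  ring

/-- `x` is not illuminated by the three rotations of `c` -/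
def Fail3 (S : Set ℂ) (x c : ℂ) : Prop := ∀ k, ¬ PI S x (rot3 k * c)

theorem Fail3.rot {S : Set ℂ} (h : Inv3 S) {x c : ℂ} (hF : Fail3 S x c) (j : Fin 3) :
    Fail3 S (rot3 j * x) c := by
  intro k hPI
  have h1 := hPI.rot h (-j)
  rw [← mul_assoc, ← rot3_mul, neg_add_cancel, rot3_zero, one_mul, ← mul_assoc, ← rot3_mul] at h1
  exact hF _ h1

/-- supporting normal -/
def Nrm (S : Set ℂ) (x n : ℂ) : Prop := ∀ y ∈ S, (conj n * y).re ≤ (conj n * x).re

theorem Nrm.rot {S : Set ℂ} (h : Inv3 S) {x n : ℂ} (hN : Nrm S x n) (j : Fin 3) :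
    Nrm S (rot3 j * x) (rot3 j * n) := by
  intro y hy
  have h1 := hN _ (h y hy (-j))
  have h2 : conj n * (rot3 (-j) * y) = conj (rot3 j * n) * y := by
    rw [map_mul, rot3_conj]
    ring
  have h3 : conj n * x = conj (rot3 j * n) * (rot3 j * x) := by
    rw [map_mul]
    linear_combination (-(conj n * x)) * conj_mul_rot3 j
  rw [h2, h3] at h1
  exact h1

theorem Nrm.add {S : Set ℂ} {x n m p : ℂ} {a b d : ℝ} (hN : Nrm S x n) (hM : Nrm S x m)
    (ha : 0 ≤ a) (hb : 0 ≤ b) (hd : 0 < d) (h : (d : ℂ) * p = a * n + b * m) : Nrm S x p := by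
  intro y hy
  have h1 := hN y hy
  have h2 := hM y hy
  have h3 : ∀ y : ℂ, d * (conj p * y).re = a * (conj n * y).re + b * (conj m * y).re := by
    intro y
    have h4 : (d : ℂ) * conj p = a * conj n + b * conj m := by
      have := congrArg conj h
      simpa using this
    have h5 : (d : ℂ) * (conj p * y) = a * (conj n * y) + b * (conj m * y) := by
      linear_combination y * h4
    have h6 := congrArg Complex.re h5
    simpa using h6
  have h4 : d * (conj p * y).re ≤ d * (conj p * x).re := by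
    rw [h3, h3]
    have := mul_le_mul_of_nonneg_left h1 ha
    have := mul_le_mul_of_nonneg_left h2 hb
    linarith
  exact le_of_mul_le_mul_left h4 hd

/-- two independent common normals -/
theorem eq_of_normals {S : Set ℂ} {x y n m : ℂ} (hx : x ∈ S) (hy : y ∈ S) (h1 : Nrm S x n)
    (h2 : Nrm S y n) (h3 : Nrm S x m) (h4 : Nrm S y m) (hnm : (conj n * m).im ≠ 0) : x = y := by
  have e1 : (conj n * x).re = (conj n * y).re := le_antisymm (h2 x hx) (h1 y hy)
  have e2 : (conj m * x).re = (conj m * y).re := le_antisymm (h4 x hx) (h3 y hy)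
  simp only [Complex.mul_re, Complex.mul_im, Complex.conj_re, Complex.conj_im] at e1 e2 hnm
  have e3 : (n.re * m.im - n.im * m.re) * (x.re - y.re) = 0 := by linear_combination m.im * e1 - n.im * e2
  have e4 : (n.re * m.im - n.im * m.re) * (x.im - y.im) = 0 := by linear_combination (-m.re) * e1 + n.re * e2
  have hD : n.re * m.im - n.im * m.re ≠ 0 := by
    intro h
    apply hnm
    linarith
  apply Complex.ext
  · rcases mul_eq_zero.1 e3 with h | h
    · exact absurd h hD
    · linarith
  · rcases mul_eq_zero.1 e4 with h | h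
    · exact absurd h hD
    · linarith

/-- every functional on `ℂ` -/
theorem clm_re (f : ℂ →L[ℝ] ℝ) : ∀ z : ℂ, f z = (conj (⟨f 1, f Complex.I⟩ : ℂ) * z).re := by
  intro z
  have h1 : z = z.re • (1 : ℂ) + z.im • Complex.I := by
    apply Complex.ext <;> simp
  conv_lhs => rw [h1]
  rw [map_add, map_smul, map_smul, smul_eq_mul, smul_eq_mul]
  simp
  ring

/-- a point on the ray of non illumination has a normal -/
theorem normal_of_not_PI {S : Set ℂ} (hS : Convex ℝ S) (h0 : (0 : ℂ) ∈ interior S) {x u : ℂ}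
    (hx : x ∈ S) (h : ¬ PI S x u) : ∃ n : ℂ, n ≠ 0 ∧ Nrm S x n ∧ (conj n * u).re ≤ 0 := by
  have hdisj : Disjoint (interior S) ((fun l : ℝ => x - l • u) '' Ioi 0) := by
    rw [Set.disjoint_left]
    rintro y hy ⟨l, hl, rfl⟩
    exact h ⟨l, hl, hy⟩
  have hconv : Convex ℝ ((fun l : ℝ => x - l • u) '' Ioi 0) := by
    have h1 : (fun l : ℝ => x - l • u) = ⇑(AffineMap.lineMap x (x - u) : ℝ →ᵃ[ℝ] ℂ) := by
      funext l
      rw [AffineMap.lineMap_apply]
      simp only [vsub_eq_sub, vadd_eq_add]
      rw [sub_sub_cancel_left, smul_neg]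
      ring
    rw [h1]
    exact (convex_Ioi (0 : ℝ)).affine_image _
  obtain ⟨f, c, hf1, hf2⟩ := geometric_hahn_banach_open hS.interior isOpen_interior hconv hdisj
  have hc0 : 0 < c := by
    have := hf1 0 h0
    rwa [map_zero] at this
  have hray : ∀ l : ℝ, 0 < l → c ≤ f x - l * f u := by
    intro l hl
    have := hf2 _ ⟨l, hl, rfl⟩
    rwa [map_sub, map_smul, smul_eq_mul] at this
  have hcx : c ≤ f x := by
    have h1 : Tendsto (fun l : ℝ => f x - l * f u) (𝓝[>] 0) (𝓝 (f x)) := by
      have h2 : ContinuousAt (fun l : ℝ => f x - l * f u) 0 := by fun_prop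
      have h3 : Tendsto (fun l : ℝ => f x - l * f u) (𝓝 0) (𝓝 (f x - 0 * f u)) := h2
      rw [zero_mul, sub_zero] at h3
      exact h3.mono_left nhdsWithin_le_nhds
    exact ge_of_tendsto h1 (eventually_nhdsWithin_of_forall fun l hl => hray l hl)
  have hSc : ∀ y ∈ S, f y ≤ c := by
    intro y hy
    have h1 : y ∈ closure (interior S) := by
      rw [hS.closure_interior_eq_closure_of_nonempty_interior ⟨0, h0⟩]
      exact subset_closure hy
    have h2 : closure (interior S) ⊆ {y | f y ≤ c} :=
      closure_minimal (fun y hy => (hf1 y hy).le) (isClosed_le f.continuous continuous_const)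
    exact h2 h1
  have hfx : f x = c := le_antisymm (hSc x hx) hcx
  refine ⟨⟨f 1, f Complex.I⟩, ?_, ?_, ?_⟩
  · intro hn
    have := clm_re f x
    rw [hn, hfx] at this
    simp at this
    linarith
  · intro y hy
    rw [← clm_re, ← clm_re, hfx]
    exact hSc y hy
  · rw [← clm_re]
    by_contra hcon
    push Not at hcon
    have := hray 1 one_pos
    rw [hfx] at this
    linarith

/-- a point outside the interior has a normal -/
theorem normal_of_not_int {S : Set ℂ} (hS : Convex ℝ S) (h0 : (0 : ℂ) ∈ interior S) {x : ℂ}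
    (hx : x ∉ interior S) : ∃ n : ℂ, n ≠ 0 ∧ Nrm S x n := by
  obtain ⟨f, hf⟩ := geometric_hahn_banach_open_point hS.interior isOpen_interior hx
  have hc0 : 0 < f x := by
    have := hf 0 h0
    rwa [map_zero] at this
  refine ⟨⟨f 1, f Complex.I⟩, ?_, ?_⟩
  · intro hn
    have := clm_re f x
    rw [hn] at this
    simp at this
    linarith
  · intro y hy
    rw [← clm_re, ← clm_re]
    have h1 : y ∈ closure (interior S) := by
      rw [hS.closure_interior_eq_closure_of_nonempty_interior ⟨0, h0⟩]
      exact subset_closure hy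
    have h2 : closure (interior S) ⊆ {y | f y ≤ f x} :=
      closure_minimal (fun y hy => (hf y hy).le) (isClosed_le f.continuous continuous_const)
    exact h2 h1

end Pool.Agent.W867.Cov3
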