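import Pool.Agent.W867.Cov3.Tri

/-!
Planar convex bodies invariant under the rotation by 120 degrees: failing directions.
-/

set_option autoImplicit false

open Set Topology Filter
open scoped ComplexConjugate

namespace Pool.Agent.W867.Cov3

theorem hex2 (w : ℂ) : (∃ k, √3 * |(w * rot3 k).im| < (w * rot3 k).re) ∨
    ∃ k, √3 * |(w * (-rot3 k)).im| ≤ (w * (-rot3 k)).re := by
  have h3 := sqrt3_sq
  have h0 := sqrt3_pos
  obtain ⟨s, k, hsk⟩ := hex w
  fin_cases s
  · simp only [Fin.zero_eta, sg, Matrix.cons_val_zero, Complex.ofReal_one, one_mul] at hsk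
    rcases hsk.lt_or_eq with h | h
    · exact Or.inl ⟨k, h⟩
    · right
      obtain ⟨q, hq⟩ : ∃ q, q = w * rot3 k := ⟨_, rfl⟩
      rw [← hq] at h
      rcases le_total 0 q.im with hi | hi
      · rw [abs_of_nonneg hi] at h
        refine ⟨k + 1, ?_⟩
        have h5 : w * (-rot3 (k + 1)) = -(q * w3) := by
          rw [rot3_mul, rot3_one, hq]
          ring
        rw [h5]
        have h8 : √3 ^ 3 * q.im = 3 * (√3 * q.im) := by
          rw [pow_succ, pow_two, h3]
          ring
        have h9 : 0 ≤ √3 * q.im := mul_nonneg h0.le hi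
        refine mabs h0 ?_ ?_
        · simp only [Complex.neg_re, Complex.neg_im, Complex.mul_re, Complex.mul_im, w3_re, w3_im,
            ← h]
          ring_nf
          rw [h8]
          linarith
        · simp only [Complex.neg_re, Complex.neg_im, Complex.mul_re, Complex.mul_im, w3_re, w3_im,
            ← h]
          ring_nf
          rw [h8]
          linarith
      · rw [abs_of_nonpos hi] at h
        refine ⟨k + 2, ?_⟩
        have h5 : w * (-rot3 (k + 2)) = -(q * conj w3) := by
          rw [rot3_mul, rot3_two, hq]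
          ring
        rw [h5]
        have h8 : √3 ^ 3 * q.im = 3 * (√3 * q.im) := by
          rw [pow_succ, pow_two, h3]
          ring
        have h9 : √3 * q.im ≤ 0 := mul_nonpos_of_nonneg_of_nonpos h0.le hi
        refine mabs h0 ?_ ?_
        · simp only [Complex.neg_re, Complex.neg_im, Complex.mul_re, Complex.mul_im,
            Complex.conj_re, Complex.conj_im, w3_re, w3_im, ← h]
          ring_nf
          rw [h8]
          linarith
        · simp only [Complex.neg_re, Complex.neg_im, Complex.mul_re, Complex.mul_im,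
            Complex.conj_re, Complex.conj_im, w3_re, w3_im, ← h]
          ring_nf
          rw [h8]
          linarith
  · simp only [Fin.mk_one, sg, Matrix.cons_val_one, Matrix.cons_val_fin_one, Complex.ofReal_neg,
      Complex.ofReal_one, neg_mul, one_mul] at hsk
    exact Or.inr ⟨k, hsk⟩

/-- directions within 30 degrees -/
theorem PI_sector {S : Set ℂ} (hS : Convex ℝ S) (h0 : (0 : ℂ) ∈ interior S) (h3 : Inv3 S)
    {x u : ℂ} (hx : x ∈ S) (hx0 : x ≠ 0)
    (hu : √3 * |(conj x * u).im| < (conj x * u).re) : PI S x u := by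
  have hs := sqrt3_sq
  have hs0 := sqrt3_pos
  refine Cov3.PI_of_angle hS h0 (ω := w3) w3_norm ?_ hx ?_ ?_ hx0 ?_
  · rw [w3_im]
    positivity
  · simpa [rot3] using h3 x hx 1
  · simpa [rot3] using h3 x hx 2
  · rw [w3_im, w3_re, abs_of_pos (show (0 : ℝ) < √3 / 2 by positivity)]
    have h5 := mul_lt_mul_of_pos_left hu hs0
    rw [← mul_assoc, hs] at h5
    linarith

/-- the normals are within 60 degrees -/
theorem Nrm.sector {S : Set ℂ} (h3 : Inv3 S) {x n : ℂ} (hx : x ∈ S) (hN : Nrm S x n) :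
    |(conj x * n).im| ≤ √3 * (conj x * n).re := by
  have hs := sqrt3_sq
  have hs0 := sqrt3_pos
  have h1 := hN _ (h3 x hx 1)
  have h2 := hN _ (h3 x hx 2)
  have e1 : conj n * (rot3 1 * x) = conj (conj x * n) * w3 := by
    rw [rot3_one, map_mul, Complex.conj_conj]
    ring
  have e2 : conj n * (rot3 2 * x) = conj (conj x * n) * conj w3 := by
    rw [rot3_two, map_mul, Complex.conj_conj]
    ring
  have e3 : conj n * x = conj (conj x * n) := by
    rw [map_mul, Complex.conj_conj]
    ring
  rw [e1, e3] at h1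
  rw [e2, e3] at h2
  obtain ⟨p, hp⟩ : ∃ p, p = conj x * n := ⟨_, rfl⟩
  rw [← hp] at h1 h2 ⊢
  simp only [Complex.mul_re, Complex.conj_re, Complex.conj_im, w3_re, w3_im] at h1 h2
  have h5 : √3 * p.im ≤ 3 * p.re := by linarith
  have h6 : -(√3 * p.im) ≤ 3 * p.re := by linarith
  rw [abs_le]
  constructor
  · refine le_of_mul_le_mul_left (a := √3) ?_ hs0
    rw [mul_neg, ← mul_assoc, hs]
    linarith
  · refine le_of_mul_le_mul_left (a := √3) ?_ hs0
    rw [← mul_assoc, hs]
    linarith

theorem real_normals {a b n1 n2 m1 m2 : ℝ} (hab : √3 * |b| ≤ a) (hq : ¬ (a = 0 ∧ b = 0))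
    (hn : |n2| ≤ √3 * n1) (hn0 : ¬ (n1 = 0 ∧ n2 = 0)) (hm : |m2| ≤ √3 * m1)
    (hm0 : ¬ (m1 = 0 ∧ m2 = 0))
    (h1 : n1 * (a - √3 * b) + n2 * (√3 * a + b) ≤ 0)
    (h2 : m1 * (a + √3 * b) + m2 * (b - √3 * a) ≤ 0) :
    0 ≤ m1 * (a - √3 * b) + m2 * (√3 * a + b) ∧
      0 ≤ n1 * (√3 * b + a) - n2 * (√3 * a - b) ∧ 0 < n1 * m2 - n2 * m1 := by
  have hs := sqrt3_sq
  have hs0 := sqrt3_pos
  obtain ⟨hb1, hb2⟩ := abs_le.1 (show |b| ≤ a / √3 by rw [le_div_iff₀ hs0]; linarith)
  rw [le_div_iff₀ hs0] at hb2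
  rw [neg_le, le_div_iff₀ hs0] at hb1
  obtain ⟨hn1, hn2⟩ := abs_le.1 hn
  obtain ⟨hm1, hm2⟩ := abs_le.1 hm
  have ha0 : 0 < a := by
    rcases (show 0 ≤ a by linarith).lt_or_eq with h | h
    · exact h
    · exfalso
      apply hq
      refine ⟨h.symm, ?_⟩
      rw [← h] at hb1 hb2
      nlinarith
  have hn10 : 0 < n1 := by
    rcases (show 0 ≤ n1 by nlinarith).lt_or_eq with h | h
    · exact h
    · exfalso
      apply hn0
      refine ⟨h.symm, ?_⟩
      rw [← h] at hn1 hn2
      linarith
  have hm10 : 0 < m1 := by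
    rcases (show 0 ≤ m1 by nlinarith).lt_or_eq with h | h
    · exact h
    · exfalso
      apply hm0
      refine ⟨h.symm, ?_⟩
      rw [← h] at hm1 hm2
      linarith
  have hp1 : 0 < √3 * a + b := by nlinarith
  have hp2 : 0 < √3 * a - b := by nlinarith
  have hn2' : n2 ≤ 0 := by
    by_contra hcon
    push Not at hcon
    have h5 : 0 < n2 * (√3 * a + b) := mul_pos hcon hp1
    have h6 : 0 ≤ n1 * (a - √3 * b) := mul_nonneg hn10.le (by linarith)
    linarith
  have hm2' : 0 ≤ m2 := by
    by_contra hcon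
    push Not at hcon
    have h5 : 0 < (-m2) * (√3 * a - b) := mul_pos (by linarith) hp2
    have h6 : 0 ≤ m1 * (a + √3 * b) := mul_nonneg hm10.le (by linarith)
    linarith
  refine ⟨?_, ?_, ?_⟩
  · have h5 : 0 ≤ m2 * (√3 * a + b) := mul_nonneg hm2' hp1.le
    have h6 : 0 ≤ m1 * (a - √3 * b) := mul_nonneg hm10.le (by linarith)
    linarith
  · have h5 : 0 ≤ (-n2) * (√3 * a - b) := mul_nonneg (by linarith) hp2.le
    have h6 : 0 ≤ n1 * (√3 * b + a) := mul_nonneg hn10.le (by linarith)
    linarith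
  · have h5 : 0 ≤ n1 * m2 := mul_nonneg hn10.le hm2'
    have h6 : 0 ≤ (-n2) * m1 := mul_nonneg (by linarith) hm10.le
    rcases (show 0 ≤ n1 * m2 - n2 * m1 by linarith).lt_or_eq with h | h
    · exact h
    · exfalso
      have h7 : n1 * m2 = 0 := by linarith
      have h8 : n2 * m1 = 0 := by linarith
      have h9 : m2 = 0 := by
        rcases mul_eq_zero.1 h7 with h | h
        · exact absurd h hn10.ne'
        · exact h
      have h10 : n2 = 0 := by
        rcases mul_eq_zero.1 h8 with h | h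
        · exact h
        · exact absurd h hm10.ne'
      rw [h10] at h1
      rw [h9] at h2
      have h11 : a - √3 * b ≤ 0 := by
        by_contra hcon
        push Not at hcon
        have := mul_pos hn10 hcon
        linarith
      have h12 : a + √3 * b ≤ 0 := by
        by_contra hcon
        push Not at hcon
        have := mul_pos hm10 hcon
        linarith
      linarith

/-- the two normals at a failing point -/
theorem normals_of_fail {S : Set ℂ} (hS : Convex ℝ S) (h0 : (0 : ℂ) ∈ interior S) (h3 : Inv3 S)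
    {x c : ℂ} (hx : x ∈ S) (hx0 : x ≠ 0) (hc : c ≠ 0) (hF : Fail3 S x c) :
    ∃ j, Nrm S (rot3 j * x) (-Complex.I * c) ∧ Nrm S (rot3 j * x) (((√3 : ℝ) - Complex.I) * c) := by
  have hs := sqrt3_sq
  have hs0 := sqrt3_pos
  have hxc : conj x ≠ 0 := by rwa [Ne, map_eq_zero]
  rcases hex2 (conj x * c) with ⟨k, hk⟩ | ⟨k, hk⟩
  · exfalso
    refine hF k (PI_sector hS h0 h3 hx hx0 ?_)
    have : conj x * c * rot3 k = conj x * (rot3 k * c) := by ring
    rwa [this] at hk
  · -- choose `j` with `rot3 j * rot3 k = w3`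
    obtain ⟨j, hj⟩ : ∃ j : Fin 3, j + k = 1 := ⟨1 - k, sub_add_cancel _ _⟩
    refine ⟨j, ?_⟩
    set x' := rot3 j * x with hx'
    have hx'S : x' ∈ S := h3 x hx j
    have hx'0 : x' ≠ 0 := mul_ne_zero (rot3_ne j) hx0
    have hx'c : conj x' ≠ 0 := by rwa [Ne, map_eq_zero]
    have hF' : Fail3 S x' c := hF.rot h3 j
    obtain ⟨q, hq⟩ : ∃ q, q = conj x * c * (-rot3 k) := ⟨_, rfl⟩
    rw [← hq] at hk
    have hjk : rot3 j * rot3 k = w3 := by rw [← rot3_mul, hj, rot3_one]
    -- `conj x' * c * (-w3) = q`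
    have hq2 : conj x' * c * (-w3) = q := by
      rw [hx', map_mul, ← hjk, hq]
      linear_combination (-(conj x * c * rot3 k)) * conj_mul_rot3 j
    have hq0 : ¬ (q.re = 0 ∧ q.im = 0) := by
      rintro ⟨e1, e2⟩
      have e3 : q = 0 := Complex.ext e1 e2
      rw [e3] at hq
      rcases mul_eq_zero.1 hq.symm with e4 | e4
      · rcases mul_eq_zero.1 e4 with e5 | e5
        · exact hxc e5
        · exact hc e5
      · exact rot3_ne k (neg_eq_zero.1 e4)
    -- `γ = conj x' * c = q * (-conj w3)`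
    have hγ : conj x' * c = q * (-conj w3) := by
      rw [← hq2]
      linear_combination (-(conj x' * c)) * w3_mul_conj
    obtain ⟨n, hn0, hnN, hnc⟩ := normal_of_not_PI hS h0 hx'S (hF' 0)
    obtain ⟨m, hm0, hmN, hmc⟩ := normal_of_not_PI hS h0 hx'S (hF' 2)
    rw [rot3_zero, one_mul] at hnc
    rw [rot3_two] at hmc
    have hnS := hnN.sector h3 hx'S
    have hmS := hmN.sector h3 hx'S
    obtain ⟨ν, hν⟩ : ∃ ν, ν = conj x' * n := ⟨_, rfl⟩
    obtain ⟨μ, hμ⟩ : ∃ μ, μ = conj x' * m := ⟨_, rfl⟩
    rw [← hν] at hnS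
    rw [← hμ] at hmS
    have hν0 : ¬ (ν.re = 0 ∧ ν.im = 0) := by
      rintro ⟨e1, e2⟩
      have e3 : ν = 0 := Complex.ext e1 e2
      rw [e3] at hν
      rcases mul_eq_zero.1 hν.symm with e4 | e4
      · exact hx'c e4
      · exact hn0 e4
    have hμ0 : ¬ (μ.re = 0 ∧ μ.im = 0) := by
      rintro ⟨e1, e2⟩
      have e3 : μ = 0 := Complex.ext e1 e2
      rw [e3] at hμ
      rcases mul_eq_zero.1 hμ.symm with e4 | e4
      · exact hx'c e4
      · exact hm0 e4
    have hN2 : 0 < Complex.normSq x' := Complex.normSq_pos.2 hx'0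
    have hNc : (Complex.normSq x' : ℂ) = x' * conj x' := (Complex.mul_conj x').symm
    -- `Re (conj n c) * |x'|² = Re (conj ν γ)`
    have e1 : (conj ν * (q * (-conj w3))).re = Complex.normSq x' * (conj n * c).re := by
      rw [← hγ, hν, map_mul, Complex.conj_conj]
      have : x' * conj n * (conj x' * c) = (Complex.normSq x' : ℂ) * (conj n * c) := by
        rw [hNc]
        ring
      rw [this, Complex.re_ofReal_mul]
    have e2 : (conj μ * (conj w3 * (q * (-conj w3)))).re =
        Complex.normSq x' * (conj m * (conj w3 * c)).re := by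
      rw [← hγ, hμ, map_mul, Complex.conj_conj]
      have : x' * conj m * (conj w3 * (conj x' * c)) =
          (Complex.normSq x' : ℂ) * (conj m * (conj w3 * c)) := by
        rw [hNc]
        ring
      rw [this, Complex.re_ofReal_mul]
    have h1 : (conj ν * (q * (-conj w3))).re ≤ 0 := by
      rw [e1]
      exact mul_nonpos_of_nonneg_of_nonpos hN2.le hnc
    have h2 : (conj μ * (conj w3 * (q * (-conj w3)))).re ≤ 0 := by
      rw [e2]
      exact mul_nonpos_of_nonneg_of_nonpos hN2.le hmc
    have e3 : conj w3 * (q * (-conj w3)) = -(q * w3) := by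
      linear_combination (-q) * conj_w3_sq
    rw [e3] at h2
    simp only [Complex.mul_re, Complex.mul_im, Complex.neg_re, Complex.neg_im, Complex.conj_re,
      Complex.conj_im, w3_re, w3_im] at h1 h2
    obtain ⟨g1, g2, g3⟩ := real_normals (a := q.re) (b := q.im) (n1 := ν.re) (n2 := ν.im)
      (m1 := μ.re) (m2 := μ.im) hk hq0 hnS hν0 hmS hμ0 (by nlinarith) (by nlinarith)
    -- the identities
    have key1 : ((ν.re * μ.im - ν.im * μ.re : ℝ) : ℂ) * (-Complex.I * (conj x' * c)) =
        (((μ.re * (q.re - √3 * q.im) + μ.im * (√3 * q.re + q.im)) / 2 : ℝ) : ℂ) * ν +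
        ((-(ν.re * (q.re - √3 * q.im) + ν.im * (√3 * q.re + q.im)) / 2 : ℝ) : ℂ) * μ := by
      rw [hγ]
      apply Complex.ext
      · simp only [Complex.mul_re, Complex.mul_im, Complex.neg_re, Complex.neg_im, Complex.conj_re,
          Complex.conj_im, w3_re, w3_im, Complex.ofReal_re, Complex.ofReal_im, Complex.I_re,
          Complex.I_im, Complex.add_re]
        ring
      · simp only [Complex.mul_re, Complex.mul_im, Complex.neg_re, Complex.neg_im, Complex.conj_re,
          Complex.conj_im, w3_re, w3_im, Complex.ofReal_re, Complex.ofReal_im, Complex.I_re,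
          Complex.I_im, Complex.add_im]
        ring
    have key2 : ((ν.re * μ.im - ν.im * μ.re : ℝ) : ℂ) *
        (((√3 : ℝ) - Complex.I) * (conj x' * c)) =
        (((-(μ.re * (√3 * q.im + q.re) - μ.im * (√3 * q.re - q.im)) : ℝ)) : ℂ) * ν +
        (((ν.re * (√3 * q.im + q.re) - ν.im * (√3 * q.re - q.im)) : ℝ) : ℂ) * μ := by
      rw [hγ]
      apply Complex.ext
      · simp only [Complex.mul_re, Complex.mul_im, Complex.neg_re, Complex.neg_im, Complex.conj_re,
          Complex.conj_im, w3_re, w3_im, Complex.ofReal_re, Complex.ofReal_im, Complex.I_re,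
          Complex.I_im, Complex.add_re, Complex.sub_re, Complex.sub_im]
        ring_nf
        rw [show √3 ^ 2 = 3 by rw [pow_two]; exact hs]
        ring
      · simp only [Complex.mul_re, Complex.mul_im, Complex.neg_re, Complex.neg_im, Complex.conj_re,
          Complex.conj_im, w3_re, w3_im, Complex.ofReal_re, Complex.ofReal_im, Complex.I_re,
          Complex.I_im, Complex.add_im, Complex.sub_re, Complex.sub_im]
        ring_nf
        rw [show √3 ^ 2 = 3 by rw [pow_two]; exact hs]
        ring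
    constructor
    · refine hnN.add hmN (a := (μ.re * (q.re - √3 * q.im) + μ.im * (√3 * q.re + q.im)) / 2)
        (b := -(ν.re * (q.re - √3 * q.im) + ν.im * (√3 * q.re + q.im)) / 2)
        (d := ν.re * μ.im - ν.im * μ.re) (by linarith) (by nlinarith) g3 ?_
      apply mul_left_cancel₀ hx'c
      rw [hν, hμ] at key1 ⊢
      linear_combination key1
    · refine hnN.add hmN (a := -(μ.re * (√3 * q.im + q.re) - μ.im * (√3 * q.re - q.im)))
        (b := ν.re * (√3 * q.im + q.re) - ν.im * (√3 * q.re - q.im))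
        (d := ν.re * μ.im - ν.im * μ.re) (by nlinarith) (by linarith) g3 ?_
      apply mul_left_cancel₀ hx'c
      rw [hν, hμ] at key2 ⊢
      linear_combination key2

end Pool.Agent.W867.Cov3
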