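import Pool.Agent.W867.Cov3.Tri2

/-!
Planar convex bodies invariant under the rotation by 120 degrees: uniqueness, triangles.
-/

set_option autoImplicit false

open Set Topology Filter
open scoped ComplexConjugate

namespace Pool.Agent.W867.Cov3

/-- some rotation is within 60 degrees -/
theorem sector60 (w : ℂ) : ∃ k, |(w * rot3 k).im| ≤ √3 * (w * rot3 k).re := by
  have h3 := sqrt3_sq
  have h0 := sqrt3_pos
  obtain ⟨s, k, hsk⟩ := hex w
  fin_cases s
  · simp only [Fin.zero_eta, sg, Matrix.cons_val_zero, Complex.ofReal_one, one_mul] at hsk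
    refine ⟨k, ?_⟩
    obtain ⟨q, hq⟩ : ∃ q, q = w * rot3 k := ⟨_, rfl⟩
    rw [← hq] at hsk ⊢
    have h5 := abs_nonneg q.im
    nlinarith
  · simp only [Fin.mk_one, sg, Matrix.cons_val_one, Matrix.cons_val_fin_one, Complex.ofReal_neg,
      Complex.ofReal_one, neg_mul, one_mul] at hsk
    obtain ⟨q, hq⟩ : ∃ q, q = w * -rot3 k := ⟨_, rfl⟩
    rw [← hq] at hsk
    rcases le_total 0 q.im with hi | hi
    · rw [abs_of_nonneg hi] at hsk
      refine ⟨k + 1, ?_⟩
      have h5 : w * (rot3 (k + 1)) = -(q * w3) := by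
        rw [rot3_mul, rot3_one, hq]
        ring
      rw [h5, abs_le]
      simp only [Complex.neg_re, Complex.neg_im, Complex.mul_re, Complex.mul_im, w3_re, w3_im]
      constructor <;> nlinarith
    · rw [abs_of_nonpos hi] at hsk
      refine ⟨k + 2, ?_⟩
      have h5 : w * (rot3 (k + 2)) = -(q * conj w3) := by
        rw [rot3_mul, rot3_two, hq]
        ring
      rw [h5, abs_le]
      simp only [Complex.neg_re, Complex.neg_im, Complex.mul_re, Complex.mul_im,
        Complex.conj_re, Complex.conj_im, w3_re, w3_im]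
      constructor <;> nlinarith

theorem unit_mul_conj {c : ℂ} (hc : ‖c‖ = 1) : conj c * c = 1 := by
  rw [mul_comm]
  exact mul_conj_unit hc

theorem normal_uniq {S : Set ℂ} {x y c d : ℂ} (hx : x ∈ S) (hy : y ∈ S) (hc : ‖c‖ = 1)
    (hd : ‖d‖ = 1) (h1 : Nrm S x (-Complex.I * c)) (h2 : Nrm S x (((√3 : ℝ) - Complex.I) * c))
    (h3 : Nrm S y (-Complex.I * d)) (h4 : Nrm S y (((√3 : ℝ) - Complex.I) * d))
    (hi : 0 < (conj c * d).im) (hr : (conj c * d).im < √3 * (conj c * d).re) : x = y := by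
  have hs := sqrt3_sq
  have hs0 := sqrt3_pos
  have hI := Complex.I_mul_I
  have hsc : (((√3 : ℝ)) : ℂ) * ((√3 : ℝ) : ℂ) = 3 := by exact_mod_cast hs
  obtain ⟨q, hq⟩ : ∃ q, q = conj c * d := ⟨_, rfl⟩
  rw [← hq] at hi hr
  have hdq : d = c * q := by
    rw [hq, ← mul_assoc, mul_conj_unit hc, one_mul]
  have hcq : c = d * conj q := by
    rw [hq, map_mul, Complex.conj_conj]
    linear_combination (-c) * unit_mul_conj hd
  have hqq : q = q.re + q.im * Complex.I := (Complex.re_add_im q).symm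
  have hqc : conj q = q.re - q.im * Complex.I := by
    apply Complex.ext <;> simp
  have e1 : Nrm S x (-Complex.I * d) := by
    refine h1.add h2 (a := √3 * q.re - q.im) (b := q.im) (d := √3) (by linarith) hi.le hs0 ?_
    rw [hdq]
    conv_lhs => rw [hqq]
    push_cast
    linear_combination (-(((√3 : ℝ)) : ℂ) * q.im * c) * hI
  have e2 : Nrm S y (((√3 : ℝ) - Complex.I) * c) := by
    refine h3.add h4 (a := 4 * q.im) (b := √3 * q.re - q.im) (d := √3) (by linarith) (by linarith)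
      hs0 ?_
    rw [hcq, hqc]
    push_cast
    linear_combination ((((√3 : ℝ)) : ℂ) * d * q.im) * hI + (-d * Complex.I * q.im) * hsc
  refine eq_of_normals hx hy e1 h3 h2 e2 ?_
  have e3 : conj (-Complex.I * d) * (((√3 : ℝ) - Complex.I) * c) =
      Complex.I * (((√3 : ℝ) - Complex.I) * conj q) := by
    have : conj q = conj d * c := by
      rw [hq, map_mul, Complex.conj_conj, mul_comm]
    rw [this]
    simp
    ring
  rw [e3, hqc]
  simp
  intro h
  nlinarith

theorem fail_uniq {S : Set ℂ} (hS : Convex ℝ S) (h0 : (0 : ℂ) ∈ interior S) (h3 : Inv3 S)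
    {x y c d : ℂ} (hx : x ∈ S) (hx0 : x ≠ 0) (hc : ‖c‖ = 1) (hF : Fail3 S x c)
    (hy : y ∈ S) (hy0 : y ≠ 0) (hd : ‖d‖ = 1) (hG : Fail3 S y d) :
    c ^ 6 = d ^ 6 ∨ ∃ j, y = rot3 j * x := by
  have hs := sqrt3_sq
  have hs0 := sqrt3_pos
  have hc0 : c ≠ 0 := by
    rw [← norm_ne_zero_iff, hc]
    norm_num
  have hd0 : d ≠ 0 := by
    rw [← norm_ne_zero_iff, hd]
    norm_num
  obtain ⟨i, hi1, hi2⟩ := normals_of_fail hS h0 h3 hx hx0 hc0 hF
  obtain ⟨j, hj1, hj2⟩ := normals_of_fail hS h0 h3 hy hy0 hd0 hG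
  obtain ⟨k, hk⟩ := sector60 (conj c * d)
  obtain ⟨q, hq⟩ : ∃ q, q = conj c * d * rot3 k := ⟨_, rfl⟩
  rw [← hq] at hk
  have hqn : ‖q‖ = 1 := by
    rw [hq, norm_mul, norm_mul, Complex.norm_conj, hc, hd, rot3_norm]
    norm_num
  have hqn2 : q.re ^ 2 + q.im ^ 2 = 1 := by
    rw [normSq_eq, hqn]
    norm_num
  have hk1 := hj1.rot h3 k
  have hk2 := hj2.rot h3 k
  rw [show rot3 k * (-Complex.I * d) = -Complex.I * (rot3 k * d) by ring] at hk1
  rw [show rot3 k * ((((√3 : ℝ)) - Complex.I) * d) = (((√3 : ℝ)) - Complex.I) * (rot3 k * d) by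
    ring] at hk2
  have hq' : q = conj c * (rot3 k * d) := by
    rw [hq]
    ring
  have hd' : ‖rot3 k * d‖ = 1 := by
    rw [norm_mul, rot3_norm, hd, one_mul]
  have hxS := h3 x hx i
  have hyS := h3 _ (h3 y hy j) k
  -- class equality from `q ^ 6 = 1`
  have hclass : q ^ 6 = 1 → c ^ 6 = d ^ 6 := by
    intro h
    rw [hq, mul_pow, mul_pow, show rot3 k ^ 6 = 1 by
      rw [show (6 : ℕ) = 3 * 2 from rfl, pow_mul, rot3_pow, one_pow], mul_one] at h
    have h6 : (c * conj c) ^ 6 = 1 := by rw [mul_conj_unit hc, one_pow]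
    rw [mul_pow] at h6
    calc c ^ 6 = c ^ 6 * (conj c ^ 6 * d ^ 6) := by rw [h, mul_one]
      _ = (c ^ 6 * conj c ^ 6) * d ^ 6 := by ring
      _ = d ^ 6 := by rw [h6, one_mul]
  have hend : rot3 i * x = rot3 k * (rot3 j * y) → ∃ j, y = rot3 j * x := by
    intro h
    refine ⟨-j + -k + i, ?_⟩
    rw [rot3_mul, mul_assoc, h, rot3_mul]
    have e1 := rot3_mul (-k) k
    have e2 := rot3_mul (-j) j
    rw [neg_add_cancel, rot3_zero] at e1 e2
    linear_combination (y * rot3 (-j) * rot3 j) * e1 + y * e2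
  rcases hk.lt_or_eq with hlt | heq
  · rcases lt_trichotomy q.im 0 with h | h | h
    · right
      apply hend
      symm
      have e1 : conj (rot3 k * d) * c = conj q := by
        rw [hq', map_mul, map_mul, map_mul, Complex.conj_conj]
        ring
      rw [abs_of_neg h] at hlt
      refine normal_uniq hyS hxS hd' hc hk1 hk2 hi1 hi2 ?_ ?_
      · rw [e1, Complex.conj_im]
        linarith
      · rw [e1, Complex.conj_im, Complex.conj_re]
        exact hlt
    · left
      apply hclass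
      have e1 : q.re ^ 2 = 1 := by
        rw [h] at hqn2
        linarith
      have e2 : q = (q.re : ℂ) := Complex.ext (by simp) (by simp [h])
      have e3 : q ^ 6 = (((q.re ^ 2 : ℝ)) : ℂ) ^ 3 := by
        conv_lhs => rw [e2]
        push_cast
        ring
      rw [e3, e1]
      norm_num
    · right
      apply hend
      rw [abs_of_pos h, hq'] at hlt
      rw [hq'] at h
      exact normal_uniq hxS hyS hc hd' hi1 hi2 hk1 hk2 h hlt
  · left
    apply hclass
    -- `q = r (1 ± √3 i)`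
    have e1 : q.im ^ 2 = 3 * q.re ^ 2 := by
      rw [← sq_abs, heq, mul_pow, show √3 ^ 2 = 3 by rw [pow_two]; exact hs]
    have e2 : q.re ^ 2 = 1 / 4 := by linarith
    have e4 : q ^ 3 = -8 * (q.re : ℂ) ^ 3 := by
      have hqq : q = q.re + q.im * Complex.I := (Complex.re_add_im q).symm
      have e1c : (q.im : ℂ) ^ 2 = 3 * (q.re : ℂ) ^ 2 := by exact_mod_cast e1
      have hI := Complex.I_sq
      conv_lhs => rw [hqq]
      linear_combination (3 * (q.re : ℂ) * q.im ^ 2 + q.im ^ 3 * Complex.I) * hI +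
        (-3 * (q.re : ℂ) - q.im * Complex.I) * e1c
    have e5 : q ^ 6 = (q ^ 3) ^ 2 := by ring
    have e2c : (q.re : ℂ) ^ 2 = 1 / 4 := by
      have : ((q.re ^ 2 : ℝ) : ℂ) = ((1 / 4 : ℝ) : ℂ) := by rw [e2]
      push_cast at this
      exact this
    rw [e5, e4]
    calc (-8 * (q.re : ℂ) ^ 3) ^ 2 = 64 * ((q.re : ℂ) ^ 2) ^ 3 := by ring
      _ = 1 := by
        rw [e2c]
        norm_num

/-- the triangle with vertices `x, ω x, ω² x` -/
def InT (x y : ℂ) : Prop := ∀ k : Fin 3, -(conj (rot3 k * x) * y).re ≤ ‖x‖ ^ 2 / 2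

theorem inT_of_one {S : Set ℂ} (h3 : Inv3 S) {x : ℂ} (j : Fin 3)
    (h : ∀ y ∈ S, -(conj (rot3 j * x) * y).re ≤ ‖x‖ ^ 2 / 2) : ∀ y ∈ S, InT x y := by
  intro y hy k
  have h1 := h _ (h3 y hy (j - k))
  have e : conj (rot3 j * x) * (rot3 (j - k) * y) = conj (rot3 k * x) * y := by
    rw [map_mul, map_mul, sub_eq_add_neg, rot3_mul, rot3_conj k]
    linear_combination (conj x * rot3 (-k) * y) * conj_mul_rot3 j
  rwa [e] at h1

/-- the midpoint lemma -/
theorem mid {S : Set ℂ} (hS : Convex ℝ S) (h0 : (0 : ℂ) ∈ interior S) (h3 : Inv3 S)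
    {x : ℂ} (hx : x ∈ S) (hx0 : x ≠ 0) (j : Fin 3) (hj : j ≠ 0)
    (hm : (1 / 2 : ℝ) • (x + rot3 j * x) ∉ interior S) : ∀ y ∈ S, InT x y := by
  have hs := sqrt3_sq
  have hs0 := sqrt3_pos
  obtain ⟨n, hn0, hN⟩ := normal_of_not_int hS h0 hm
  have h1 := hN _ hx
  have h2 := hN _ (h3 x hx j)
  have h4 := hN 0 (interior_subset h0)
  have hsum : 1 + rot3 j + rot3 (-j) = 0 := by
    have := w3_sum
    fin_cases j
    · exact absurd rfl hj
    · simp only [Fin.mk_one]
      rw [rot3_one, show (-1 : Fin 3) = 2 from rfl, rot3_two]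
      exact this
    · have h : (-(⟨2, by norm_num⟩ : Fin 3)) = 1 := by decide
      simp only [Fin.reduceFinMk] at h ⊢
      rw [h, rot3_one, rot3_two]
      linear_combination this
  -- `e = - conj ω x`
  obtain ⟨e, he⟩ : ∃ e, e = -(rot3 (-j) * x) := ⟨_, rfl⟩
  have hjj : rot3 j * rot3 (-j) = 1 := by
    rw [← rot3_mul, add_neg_cancel, rot3_zero]
  have hmj : (1 / 2 : ℝ) • (x + rot3 j * x) = (1 / 2 : ℝ) • e := by
    congr 1
    rw [he]
    linear_combination x * hsum
  have hxe : x = -rot3 j * e := by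
    rw [he]
    linear_combination (-x) * hjj
  have he0 : e ≠ 0 := by
    intro h
    rw [h, mul_zero] at hxe
    exact hx0 hxe
  have hen : ‖e‖ = ‖x‖ := by
    rw [he, norm_neg, norm_mul, rot3_norm, one_mul]
  rw [hmj] at h1 h2 h4
  have hx2 : rot3 j * x = e - x := by
    rw [he]
    linear_combination x * hsum
  -- `t = conj n * e`
  obtain ⟨t, ht⟩ : ∃ t, t = conj n * e := ⟨_, rfl⟩
  have ht0 : t ≠ 0 := by
    rw [ht]
    exact mul_ne_zero (by rwa [Ne, map_eq_zero]) he0
  have f1 : conj n * x = -(rot3 j * t) := by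
    rw [hxe, ht]
    ring
  have f2 : conj n * (rot3 j * x) = t + rot3 j * t := by
    rw [hx2, mul_sub, f1, ← ht]
    ring
  have f3 : conj n * ((1 / 2 : ℝ) • e) = (1 / 2 : ℝ) • t := by
    rw [ht, Complex.real_smul, Complex.real_smul]
    ring
  rw [f1, f3] at h1
  rw [f2, f3] at h2
  rw [f3] at h4
  have hreim : (rot3 j).re = -1 / 2 ∧ (rot3 j).im ≠ 0 := by
    fin_cases j
    · exact absurd rfl hj
    · exact ⟨rfl, by simp only [Fin.mk_one, rot3_one, w3_im]; positivity⟩
    · refine ⟨by simp only [Fin.reduceFinMk, rot3_two, Complex.conj_re, w3_re], ?_⟩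
      simp only [Fin.reduceFinMk, rot3_two, Complex.conj_im, w3_im]
      exact neg_ne_zero.2 (by positivity)
  obtain ⟨hre, him⟩ := hreim
  simp only [Complex.neg_re, Complex.mul_re, hre, Complex.real_smul, Complex.ofReal_re,
    Complex.ofReal_im, zero_mul, sub_zero, Complex.add_re, mul_zero, Complex.zero_re] at h1 h2 h4
  have hti : t.im = 0 := by
    have : (rot3 j).im * t.im = 0 := by linarith
    exact (mul_eq_zero.1 this).resolve_left him
  have htr : 0 < t.re := by
    rcases (show 0 ≤ t.re by linarith).lt_or_eq with h | h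
    · exact h
    · exact absurd (Complex.ext h.symm hti) ht0
  have htc : t = (t.re : ℂ) := Complex.ext (by simp) (by simp [hti])
  refine inT_of_one h3 (-j) fun y hy => ?_
  have h5 := hN y hy
  rw [hmj, f3, Complex.real_smul, Complex.re_ofReal_mul] at h5
  have h6 : conj (rot3 (-j) * x) = -conj e := by
    rw [he, map_neg, neg_neg]
  rw [h6, neg_mul, Complex.neg_re, neg_neg]
  -- `conj n * |e|² = t * conj e`
  have hee : conj e * e = ((‖x‖ ^ 2 : ℝ) : ℂ) := by
    rw [← Complex.normSq_eq_conj_mul_self, Complex.normSq_eq_norm_sq, hen]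
  have h7 : ((‖x‖ ^ 2 : ℝ) : ℂ) * (conj n * y) = (t.re : ℂ) * (conj e * y) := by
    rw [← htc, ht, ← hee]
    ring
  have h8 := congrArg Complex.re h7
  rw [Complex.re_ofReal_mul, Complex.re_ofReal_mul] at h8
  have hN2 : 0 < ‖x‖ ^ 2 := by
    have := norm_pos_iff.2 hx0
    positivity
  have h9 : t.re * (conj e * y).re ≤ t.re * (‖x‖ ^ 2 / 2) := by
    rw [← h8]
    nlinarith
  exact le_of_mul_le_mul_left h9 htr

end Pool.Agent.W867.Cov3
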