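import Pool.Agent.W867.Cov3.Tri3

/-!
Planar convex bodies invariant under the rotation by 120 degrees: the hexagon of directions.
-/

set_option autoImplicit false

open Set Topology Filter
open scoped ComplexConjugate

namespace Pool.Agent.W867.Cov3

/-- the direction towards a neighbouring vertex -/
theorem PI_side {S : Set ℂ} (hS : Convex ℝ S) (h0 : (0 : ℂ) ∈ interior S) (h3 : Inv3 S)
    {x u : ℂ} (hx : x ∈ S) (hx0 : x ≠ 0) (j : Fin 3) (hj : j ≠ 0) {r : ℝ} (hr : 0 < r)
    (hu : u = r • (x - rot3 j * x)) : PI S x u ∨ ∀ y ∈ S, InT x y := by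
  by_cases hm : (1 / 2 : ℝ) • (x + rot3 j * x) ∈ interior S
  · left
    refine ⟨1 / (2 * r), by positivity, ?_⟩
    convert hm using 1
    rw [hu, smul_smul, show 1 / (2 * r) * r = 1 / 2 by field_simp]
    simp only [Complex.real_smul]
    push_cast
    ring
  · exact Or.inr (mid hS h0 h3 hx hx0 j hj hm)

/-- all six directions of a hexagon fail -/
theorem hex_fail {S : Set ℂ} (hS : Convex ℝ S) (h0 : (0 : ℂ) ∈ interior S) (h3 : Inv3 S)
    {x c : ℂ} (hx : x ∈ S) (hx0 : x ≠ 0) (hc : ‖c‖ = 1) (hF : ∀ k, ¬ PI S x (rot3 k * c))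
    (hG : ∀ k, ¬ PI S x (-(rot3 k * c))) :
    (∀ y ∈ S, InT x y) ∧ (conj x * c) ^ 6 = -((‖x‖ : ℂ) ^ 6) := by
  have hs := sqrt3_sq
  have hs0 := sqrt3_pos
  obtain ⟨s, k, hsk⟩ := hex (conj x * c)
  have hall : ¬ PI S x (c * ((sg s : ℂ) * rot3 k)) := by
    fin_cases s
    · have := hF k
      simpa [sg, mul_comm] using this
    · have := hG k
      simpa [sg, mul_comm] using this
  obtain ⟨q, hq⟩ : ∃ q, q = conj x * c * ((sg s : ℂ) * rot3 k) := ⟨_, rfl⟩
  have hq' : q = conj x * (c * ((sg s : ℂ) * rot3 k)) := by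
    rw [hq]
    ring
  rw [← hq] at hsk
  obtain ⟨u, hu⟩ : ∃ u, u = c * ((sg s : ℂ) * rot3 k) := ⟨_, rfl⟩
  rw [← hu] at hall hq'
  have heq : √3 * |q.im| = q.re := by
    rcases hsk.lt_or_eq with h | h
    · exfalso
      rw [hq'] at h
      exact hall (PI_sector hS h0 h3 hx hx0 h)
    · exact h
  have hqn : ‖q‖ = ‖x‖ := by
    rw [hq, norm_mul, norm_mul, norm_sg_rot3, Complex.norm_conj, hc, mul_one, mul_one]
  have hqn2 : q.re ^ 2 + q.im ^ 2 = ‖x‖ ^ 2 := by
    rw [normSq_eq, hqn]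
  have hN2 : 0 < ‖x‖ ^ 2 := by
    have := norm_pos_iff.2 hx0
    positivity
  have e1 : q.re ^ 2 = 3 * q.im ^ 2 := by
    rw [← heq, mul_pow, sq_abs, show √3 ^ 2 = 3 by rw [pow_two]; exact hs]
  have him : q.im ≠ 0 := by
    intro h
    rw [h] at e1 hqn2
    nlinarith
  have h6 : (conj x * c) ^ 6 = q ^ 6 := by
    rw [hq, mul_pow (conj x * c), mul_pow (sg s : ℂ)]
    rw [show rot3 k ^ 6 = 1 by
      rw [show (6 : ℕ) = 3 * 2 from rfl, pow_mul, rot3_pow, one_pow]]
    have : (sg s : ℂ) ^ 6 = 1 := by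
      fin_cases s <;> simp [sg]
      norm_num
    rw [this]
    ring
  have hI := Complex.I_sq
  have hqq : q = q.re + q.im * Complex.I := (Complex.re_add_im q).symm
  constructor
  · -- `u = r (x - rot3 j x)`
    have hne : conj x ≠ 0 := by rwa [Ne, map_eq_zero]
    have hxx : conj x * x = ((‖x‖ ^ 2 : ℝ) : ℂ) := by
      rw [← Complex.normSq_eq_conj_mul_self, Complex.normSq_eq_norm_sq]
    rcases lt_or_gt_of_ne him with h | h
    · -- `arg q = -30`
      rw [abs_of_neg h] at heq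
      have := PI_side hS h0 h3 hx hx0 1 (by decide) (r := 2 * (-q.im) / √3 / ‖x‖ ^ 2) (u := u)
        (by
          have : 0 < -q.im := by linarith
          positivity) (by
          apply mul_left_cancel₀ hne
          rw [← hq', Complex.real_smul, rot3_one]
          have e3 : conj x * (((2 * (-q.im) / √3 / ‖x‖ ^ 2 : ℝ) : ℂ) * (x - w3 * x)) =
              ((2 * (-q.im) / √3 / ‖x‖ ^ 2 : ℝ) : ℂ) * (1 - w3) * (conj x * x) := by ring
          rw [e3, hxx]
          apply Complex.ext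
          · simp only [Complex.mul_re, Complex.mul_im, Complex.ofReal_re, Complex.ofReal_im,
              Complex.sub_re, Complex.sub_im, Complex.one_re, Complex.one_im, w3_re, w3_im]
            rw [← heq]
            field_simp
            ring_nf
            rw [show √3 ^ 2 = 3 by rw [pow_two]; exact hs]
            ring
          · simp only [Complex.mul_re, Complex.mul_im, Complex.ofReal_re, Complex.ofReal_im,
              Complex.sub_re, Complex.sub_im, Complex.one_re, Complex.one_im, w3_re, w3_im]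
            field_simp
            ring)
      rcases this with h | h
      · exact absurd h hall
      · exact h
    · rw [abs_of_pos h] at heq
      have := PI_side hS h0 h3 hx hx0 2 (by decide) (r := 2 * q.im / √3 / ‖x‖ ^ 2) (u := u)
        (by positivity) (by
          apply mul_left_cancel₀ hne
          rw [← hq', Complex.real_smul, rot3_two]
          have e3 : conj x * (((2 * q.im / √3 / ‖x‖ ^ 2 : ℝ) : ℂ) * (x - conj w3 * x)) =
              ((2 * q.im / √3 / ‖x‖ ^ 2 : ℝ) : ℂ) * (1 - conj w3) * (conj x * x) := by ring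
          rw [e3, hxx]
          apply Complex.ext
          · simp only [Complex.mul_re, Complex.mul_im, Complex.ofReal_re, Complex.ofReal_im,
              Complex.sub_re, Complex.sub_im, Complex.one_re, Complex.one_im, Complex.conj_re,
              Complex.conj_im, w3_re, w3_im]
            rw [← heq]
            field_simp
            ring_nf
            rw [show √3 ^ 2 = 3 by rw [pow_two]; exact hs]
            ring
          · simp only [Complex.mul_re, Complex.mul_im, Complex.ofReal_re, Complex.ofReal_im,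
              Complex.sub_re, Complex.sub_im, Complex.one_re, Complex.one_im, Complex.conj_re,
              Complex.conj_im, w3_re, w3_im]
            field_simp
            ring)
      rcases this with h | h
      · exact absurd h hall
      · exact h
  · rw [h6]
    have e2 : q.im ^ 2 = ‖x‖ ^ 2 / 4 := by linarith
    -- `q ^ 2 = 2 im² (1 ± √3 i)`, `q ^ 3 = ± 8 im³ i`
    have e1c : (q.re : ℂ) ^ 2 = 3 * (q.im : ℂ) ^ 2 := by exact_mod_cast e1
    have e2c : (q.im : ℂ) ^ 2 = (‖x‖ : ℂ) ^ 2 / 4 := by exact_mod_cast e2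
    have e4 : q ^ 3 = 8 * (q.im : ℂ) ^ 3 * Complex.I := by
      conv_lhs => rw [hqq]
      linear_combination (3 * (q.re : ℂ) * q.im ^ 2 + q.im ^ 3 * Complex.I) * hI +
        ((q.re : ℂ) + 3 * q.im * Complex.I) * e1c
    have e5 : q ^ 6 = (q ^ 3) ^ 2 := by ring
    rw [e5, e4]
    have e6 : (8 * (q.im : ℂ) ^ 3 * Complex.I) ^ 2 = -(64 * ((q.im : ℂ) ^ 2) ^ 3) := by
      linear_combination (64 * (q.im : ℂ) ^ 6) * hI
    rw [e6, e2c]
    ring

/-- points of the triangle -/
theorem inT_mem {S : Set ℂ} (hS : Convex ℝ S) (h3 : Inv3 S) {x y : ℂ} (hx : x ∈ S) (hx0 : x ≠ 0)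
    (h : InT x y) : y ∈ S := by
  have hs := sqrt3_sq
  have hs0 := sqrt3_pos
  have hN2 : 0 < ‖x‖ ^ 2 := by
    have := norm_pos_iff.2 hx0
    positivity
  obtain ⟨l, hl⟩ : ∃ l : Fin 3 → ℝ, l = fun k =>
    (1 + 2 * (conj (rot3 k * x) * y).re / ‖x‖ ^ 2) / 3 := ⟨_, rfl⟩
  have hl0 : ∀ k, 0 ≤ l k := by
    intro k
    have h1 := h k
    rw [hl]
    simp only
    have h2 : -1 ≤ 2 * (conj (rot3 k * x) * y).re / ‖x‖ ^ 2 := by
      rw [le_div_iff₀ hN2]
      linarith
    linarith
  have hp : ∀ k, conj (rot3 k * x) * y = rot3 (-k) * (conj x * y) := by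
    intro k
    rw [map_mul, rot3_conj]
    ring
  obtain ⟨p, hpp⟩ : ∃ p, p = conj x * y := ⟨_, rfl⟩
  have e0 : (conj (rot3 0 * x) * y).re = p.re := by
    rw [hp, hpp, neg_zero, rot3_zero, one_mul]
  have e1 : (conj (rot3 1 * x) * y).re = -p.re / 2 + √3 * p.im / 2 := by
    rw [hp, hpp, show (-1 : Fin 3) = 2 from rfl, rot3_two, ← hpp]
    simp only [Complex.mul_re, Complex.conj_re, Complex.conj_im, w3_re, w3_im]
    ring
  have e2 : (conj (rot3 2 * x) * y).re = -p.re / 2 - √3 * p.im / 2 := by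
    rw [hp, hpp, show (-2 : Fin 3) = 1 from rfl, rot3_one, ← hpp]
    simp only [Complex.mul_re, w3_re, w3_im]
    ring
  have hsum : l 0 + l 1 + l 2 = 1 := by
    rw [hl]
    simp only [e0, e1, e2]
    ring
  have h5 := convex3 hS (h3 x hx 0) (h3 x hx 1) (h3 x hx 2) (hl0 0) (hl0 1) (hl0 2) hsum
  convert h5 using 1
  have hne : conj x ≠ 0 := by rwa [Ne, map_eq_zero]
  have hxx : conj x * x = ((‖x‖ ^ 2 : ℝ) : ℂ) := by
    rw [← Complex.normSq_eq_conj_mul_self, Complex.normSq_eq_norm_sq]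
  apply mul_left_cancel₀ hne
  rw [← hpp]
  have e3 : conj x * (l 0 • (rot3 0 * x) + l 1 • (rot3 1 * x) + l 2 • (rot3 2 * x)) =
      ((l 0 : ℂ) + l 1 * w3 + l 2 * conj w3) * (conj x * x) := by
    rw [rot3_zero, rot3_one, rot3_two]
    simp only [Complex.real_smul]
    ring
  rw [e3, hxx, hl]
  simp only [e0, e1, e2]
  apply Complex.ext
  · simp only [Complex.mul_re, Complex.mul_im, Complex.ofReal_re, Complex.ofReal_im,
      Complex.add_re, Complex.add_im, Complex.conj_re, Complex.conj_im, w3_re, w3_im]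
    field_simp
    ring_nf
  · simp only [Complex.mul_re, Complex.mul_im, Complex.ofReal_re, Complex.ofReal_im,
      Complex.add_re, Complex.add_im, Complex.conj_re, Complex.conj_im, w3_re, w3_im]
    field_simp
    ring_nf
    rw [show √3 ^ 2 = 3 by rw [pow_two]; exact hs]
    ring

/-- vertices -/
theorem inT_both {x y : ℂ} (hx0 : x ≠ 0) (hy0 : y ≠ 0) (h1 : InT x y) (h2 : InT y x) :
    ‖x‖ = ‖y‖ ∧ x ^ 3 = y ^ 3 := by
  have hs := sqrt3_sq
  have hs0 := sqrt3_pos
  have hxn := norm_pos_iff.2 hx0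
  have hyn := norm_pos_iff.2 hy0
  have hp : ∀ k, conj (rot3 k * x) * y = rot3 (-k) * (conj x * y) := by
    intro k
    rw [map_mul, rot3_conj]
    ring
  have hp' : ∀ k, (conj (rot3 k * y) * x).re = (rot3 k * (conj x * y)).re := by
    intro k
    have : conj (rot3 k * y) * x = conj (rot3 k * (conj x * y)) := by
      simp only [map_mul, Complex.conj_conj]
      ring
    rw [this, Complex.conj_re]
  obtain ⟨p, hpp⟩ : ∃ p, p = conj x * y := ⟨_, rfl⟩
  have hpn : p.re ^ 2 + p.im ^ 2 = (‖x‖ * ‖y‖) ^ 2 := by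
    rw [normSq_eq, hpp, norm_mul, Complex.norm_conj]
  have e0 : (rot3 0 * p).re = p.re := by
    rw [rot3_zero, one_mul]
  have e1 : (rot3 2 * p).re = -p.re / 2 + √3 * p.im / 2 := by
    rw [rot3_two]
    simp only [Complex.mul_re, Complex.conj_re, Complex.conj_im, w3_re, w3_im]
    ring
  have e2 : (rot3 1 * p).re = -p.re / 2 - √3 * p.im / 2 := by
    rw [rot3_one]
    simp only [Complex.mul_re, w3_re, w3_im]
    ring
  have a0 := h1 0
  have a1 := h1 1
  have a2 := h1 2
  have b0 := h2 0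
  have b1 := h2 1
  have b2 := h2 2
  rw [hp, ← hpp] at a0 a1 a2
  rw [hp', ← hpp] at b0 b1 b2
  rw [neg_zero, e0] at a0
  rw [show (-1 : Fin 3) = 2 from rfl, e1] at a1
  rw [show (-2 : Fin 3) = 1 from rfl, e2] at a2
  rw [e0] at b0
  rw [e2] at b1
  rw [e1] at b2
  -- the three slacks for a bound `m`
  have slack : ∀ m : ℝ, -p.re ≤ m → -(-p.re / 2 + √3 * p.im / 2) ≤ m →
      -(-p.re / 2 - √3 * p.im / 2) ≤ m → p.re ^ 2 + p.im ^ 2 ≤ 4 * m ^ 2 ∧
      (p.re ^ 2 + p.im ^ 2 = 4 * m ^ 2 →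
        (m + p.re) * (m - p.re / 2 + √3 * p.im / 2) = 0 ∧
        (m + p.re) * (m - p.re / 2 - √3 * p.im / 2) = 0 ∧
        (m - p.re / 2 + √3 * p.im / 2) * (m - p.re / 2 - √3 * p.im / 2) = 0) := by
    intro m g0 g1 g2
    have f0 : 0 ≤ m + p.re := by linarith
    have f1 : 0 ≤ m - p.re / 2 + √3 * p.im / 2 := by linarith
    have f2 : 0 ≤ m - p.re / 2 - √3 * p.im / 2 := by linarith
    have k01 := mul_nonneg f0 f1
    have k02 := mul_nonneg f0 f2
    have k12 := mul_nonneg f1 f2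
    have hid : 3 * (4 * m ^ 2 - (p.re ^ 2 + p.im ^ 2)) = 4 * ((m + p.re) *
        (m - p.re / 2 + √3 * p.im / 2) + (m + p.re) * (m - p.re / 2 - √3 * p.im / 2) +
        (m - p.re / 2 + √3 * p.im / 2) * (m - p.re / 2 - √3 * p.im / 2)) := by
      linear_combination (p.im ^ 2) * hs
    refine ⟨by linarith, fun h => ⟨?_, ?_, ?_⟩⟩ <;> linarith
  obtain ⟨c1, d1⟩ := slack (‖x‖ ^ 2 / 2) (by linarith) (by linarith) (by linarith)
  obtain ⟨c2, -⟩ := slack (‖y‖ ^ 2 / 2) (by linarith) (by linarith) (by linarith)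
  rw [hpn] at c1 c2
  have hle1 : ‖y‖ ≤ ‖x‖ := by
    have h5 : (‖x‖ * ‖y‖) ^ 2 ≤ (‖x‖ * ‖x‖) ^ 2 := c1.trans (le_of_eq (by ring))
    have h6 := abs_le_of_sq_le_sq h5 (by positivity)
    have h7 := (le_abs_self _).trans h6
    exact le_of_mul_le_mul_left h7 hxn
  have hle2 : ‖x‖ ≤ ‖y‖ := by
    have h5 : (‖x‖ * ‖y‖) ^ 2 ≤ (‖y‖ * ‖y‖) ^ 2 := c2.trans (le_of_eq (by ring))
    have h6 := abs_le_of_sq_le_sq h5 (by positivity)
    have h7 := (le_abs_self _).trans h6
    exact le_of_mul_le_mul_right h7 hyn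
  have heq : ‖x‖ = ‖y‖ := le_antisymm hle2 hle1
  refine ⟨heq, ?_⟩
  obtain ⟨m, hm⟩ : ∃ m, m = ‖x‖ ^ 2 / 2 := ⟨_, rfl⟩
  have hm0 : 0 < m := by
    rw [hm]
    positivity
  obtain ⟨z1, z2, z3⟩ := d1 (by rw [hpn, ← heq]; ring)
  rw [← hm] at z1 z2 z3
  -- `p ^ 3 = (2 m) ^ 3`
  have hp3 : p ^ 3 = ((2 * m : ℝ) : ℂ) ^ 3 := by
    have hI := Complex.I_sq
    have hqq : p = p.re + p.im * Complex.I := (Complex.re_add_im p).symm
    -- either all conditions
    have hcase : (p.re = 2 * m ∧ p.im = 0) ∨ (p.re = -m ∧ p.im ^ 2 = 3 * m ^ 2) := by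
      rcases mul_eq_zero.1 z1 with h | h
      · right
        rcases mul_eq_zero.1 z3 with h' | h'
        · refine ⟨by linarith, ?_⟩
          have : √3 * p.im = -3 * m := by linarith
          have h9 : (√3 * p.im) * (√3 * p.im) = (-3 * m) * (-3 * m) := by rw [this]
          have h10 : (√3 * p.im) * (√3 * p.im) = 3 * p.im ^ 2 := by
            linear_combination (p.im ^ 2) * hs
          rw [h9] at h10
          linarith
        · refine ⟨by linarith, ?_⟩
          have : √3 * p.im = 3 * m := by linarith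
          have h9 : (√3 * p.im) * (√3 * p.im) = (3 * m) * (3 * m) := by rw [this]
          have h10 : (√3 * p.im) * (√3 * p.im) = 3 * p.im ^ 2 := by
            linear_combination (p.im ^ 2) * hs
          rw [h9] at h10
          linarith
      · rcases mul_eq_zero.1 z2 with h' | h'
        · right
          refine ⟨by linarith, ?_⟩
          have : √3 * p.im = -3 * m := by linarith
          have h9 : (√3 * p.im) * (√3 * p.im) = (-3 * m) * (-3 * m) := by rw [this]
          have h10 : (√3 * p.im) * (√3 * p.im) = 3 * p.im ^ 2 := by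
            linear_combination (p.im ^ 2) * hs
          rw [h9] at h10
          linarith
        · left
          have : √3 * p.im = 0 := by linarith
          refine ⟨by linarith, (mul_eq_zero.1 this).resolve_left hs0.ne'⟩
    rcases hcase with ⟨h1, h2⟩ | ⟨h1, h2⟩
    · rw [hqq, h1, h2]
      simp
    · have h2c : (p.im : ℂ) ^ 2 = 3 * (m : ℂ) ^ 2 := by exact_mod_cast h2
      have h1c : (p.re : ℂ) = -(m : ℂ) := by exact_mod_cast h1
      rw [hqq, h1c]
      push_cast
      linear_combination (-3 * (m : ℂ) * p.im ^ 2 + p.im ^ 3 * Complex.I) * hI +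
        (3 * (m : ℂ) - p.im * Complex.I) * h2c
  have hxc : conj x ^ 3 ≠ 0 := pow_ne_zero _ (by rwa [Ne, map_eq_zero])
  apply mul_left_cancel₀ hxc
  rw [← mul_pow, ← mul_pow, ← hpp, hp3]
  have hxx : conj x * x = ((2 * m : ℝ) : ℂ) := by
    rw [← Complex.normSq_eq_conj_mul_self, Complex.normSq_eq_norm_sq, hm]
    congr 1
    ring
  rw [hxx]

end Pool.Agent.W867.Cov3
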